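import Pool.Agent.P.MP_7a2702_mp.Basic

set_option autoImplicit false

open scoped MatrixGroups UpperHalfPlane ENNReal ComplexConjugate ContDiff
open MeasureTheory Filter Topology

namespace Pool.Agent.P.MP_7a2702_mp

/-- The kernel as an explicit rational function of the second variable. -/
noncomputable def greenBQ (z : ℍ) (w : ℂ) : ℝ :=
  4 * z.im * w.im / ((z.re - w.re) ^ 2 + (z.im + w.im) ^ 2)

theorem greenB_eqOn (Φ : ℝ → ℝ) (z : ℍ) {w : ℂ} (hw : 0 < w.im) :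
    ((fun w : ℍ => Φ (q z w)) ∘ UpperHalfPlane.ofComplex) w = Φ (greenBQ z w) := by
  simp only [Function.comp_apply, UpperHalfPlane.ofComplex_apply_of_im_pos hw, q_eq', greenBQ]
  rfl

theorem greenB_contDiffOn (z : ℍ) : ContDiffOn ℝ 2 (greenBQ z) {w : ℂ | 0 < w.im} := by
  have hre : ContDiff ℝ 2 fun w : ℂ => w.re := Complex.reCLM.contDiff
  have him : ContDiff ℝ 2 fun w : ℂ => w.im := Complex.imCLM.contDiff
  refine ContDiffOn.div (contDiff_const.mul him).contDiffOn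
    (((contDiff_const.sub hre).pow 2).add ((contDiff_const.add him).pow 2)).contDiffOn ?_
  intro w hw
  have h1 : 0 < w.im := hw
  have h2 := z.im_pos
  positivity

theorem contDiffOn_radial {Φ : ℝ → ℝ} (hΦ : ContDiff ℝ 2 Φ) (z : ℍ) :
    ContDiffOn ℝ 2 ((fun w : ℍ => Φ (q z w)) ∘ UpperHalfPlane.ofComplex) {w : ℂ | 0 < w.im} :=
  (hΦ.comp_contDiffOn (greenB_contDiffOn z)).congr fun _ hw => greenB_eqOn Φ z hw

/-- The second derivative in a direction is the second derivative along the line. -/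
theorem greenB_line {F : ℂ → ℝ} {p : ℂ} (hF : ContDiffAt ℝ 2 F p) (v : ℂ) :
    iteratedFDeriv ℝ 2 F p ![v, v] = deriv (deriv fun t : ℝ => F (p + t • v)) 0 := by
  have hγ : ∀ t : ℝ, HasDerivAt (fun t : ℝ => p + t • v) v t := fun t => by
    simpa using ((hasDerivAt_id t).smul_const v).const_add p
  have hc : Tendsto (fun t : ℝ => p + t • v) (𝓝 0) (𝓝 p) := by
    simpa using (hγ 0).continuousAt.tendsto
  have h1 : ∀ᶠ w in 𝓝 p, DifferentiableAt ℝ F w :=
    (hF.eventually (by simp)).mono fun w hw => hw.differentiableAt (by simp)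
  have h2 : deriv (fun t : ℝ => F (p + t • v)) =ᶠ[𝓝 0] fun t => fderiv ℝ F (p + t • v) v :=
    (hc.eventually h1).mono fun t ht => (ht.hasFDerivAt.comp_hasDerivAt t (hγ t)).deriv
  have h3 : DifferentiableAt ℝ (fderiv ℝ F) p :=
    (hF.fderiv_right (m := 1) (by norm_num)).differentiableAt (by simp)
  have h4 : HasDerivAt (fun t : ℝ => fderiv ℝ F (p + t • v)) (fderiv ℝ (fderiv ℝ F) p v) 0 := by
    have h5 : HasFDerivAt (fderiv ℝ F) (fderiv ℝ (fderiv ℝ F) p) (p + (0 : ℝ) • v) := by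
      simpa using h3.hasFDerivAt
    exact h5.comp_hasDerivAt (0 : ℝ) (hγ 0)
  have h6 : HasDerivAt (fun t : ℝ => fderiv ℝ F (p + t • v) v) (fderiv ℝ (fderiv ℝ F) p v v) 0 := by
    simpa using h4.clm_apply (hasDerivAt_const (0 : ℝ) v)
  rw [h2.deriv_eq, h6.deriv, iteratedFDeriv_two_apply]
  simp

/-- Second order chain rule in one variable. -/
theorem greenB_chain {Φ r r1 : ℝ → ℝ} {r2 : ℝ} (hΦ : ContDiff ℝ 2 Φ)
    (h1 : ∀ᶠ t in 𝓝 (0 : ℝ), HasDerivAt r (r1 t) t) (h2 : HasDerivAt r1 r2 0) :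
    deriv (deriv fun t => Φ (r t)) 0 =
      deriv (deriv Φ) (r 0) * r1 0 ^ 2 + deriv Φ (r 0) * r2 := by
  have hd : Differentiable ℝ Φ := hΦ.differentiable (by simp)
  have hd' : Differentiable ℝ (deriv Φ) := by
    have h : ContDiff ℝ (1 + 1) Φ := by simpa [one_add_one_eq_two] using hΦ
    exact (contDiff_succ_iff_deriv.1 h).2.2.differentiable (by simp)
  have h3 : deriv (fun t => Φ (r t)) =ᶠ[𝓝 0] fun t => deriv Φ (r t) * r1 t :=
    h1.mono fun t ht => ((hd (r t)).hasDerivAt.comp t ht).deriv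
  have h4 : HasDerivAt (fun t => deriv Φ (r t)) (deriv (deriv Φ) (r 0) * r1 0) 0 :=
    (hd' (r 0)).hasDerivAt.comp 0 h1.self_of_nhds
  rw [h3.deriv_eq, (h4.fun_mul h2).deriv]
  ring

/-- The chain rule for a linear function divided by a monic quadratic function. -/
theorem greenB_rat {Φ : ℝ → ℝ} (hΦ : ContDiff ℝ 2 Φ) (n0 n1 d0 d1 : ℝ) (hd : d0 ≠ 0) :
    deriv (deriv fun t => Φ ((n0 + n1 * t) / (d0 + d1 * t + t ^ 2))) 0 =
      deriv (deriv Φ) (n0 / d0) * ((n1 * d0 - n0 * d1) / d0 ^ 2) ^ 2 +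
        deriv Φ (n0 / d0) * ((-2 * n0 * d0 - 2 * (n1 * d0 - n0 * d1) * d1) / d0 ^ 3) := by
  have hN : ∀ t : ℝ, HasDerivAt (fun t : ℝ => n0 + n1 * t) n1 t := fun t => by
    simpa using ((hasDerivAt_id t).const_mul n1).const_add n0
  have hD : ∀ t : ℝ, HasDerivAt (fun t : ℝ => d0 + d1 * t + t ^ 2) (d1 + 2 * t) t := fun t => by
    simpa using (((hasDerivAt_id t).const_mul d1).const_add d0).fun_add (hasDerivAt_pow 2 t)
  have hD' : HasDerivAt (fun t : ℝ => d1 + 2 * t) 2 0 := by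
    simpa using ((hasDerivAt_id (0 : ℝ)).const_mul 2).const_add d1
  have hne : ∀ᶠ t in 𝓝 (0 : ℝ), d0 + d1 * t + t ^ 2 ≠ 0 :=
    (hD 0).continuousAt.eventually_ne (by simpa using hd)
  have h1 : ∀ᶠ t in 𝓝 (0 : ℝ), HasDerivAt (fun t => (n0 + n1 * t) / (d0 + d1 * t + t ^ 2))
      ((n1 * (d0 + d1 * t + t ^ 2) - (n0 + n1 * t) * (d1 + 2 * t)) / (d0 + d1 * t + t ^ 2) ^ 2) t :=
    hne.mono fun t ht => (hN t).div (hD t) ht
  have h2 := ((((hD 0).const_mul n1).sub ((hN 0).mul hD')).div ((hD 0).pow 2)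
    (by simpa using hd))
  have h3 := greenB_chain hΦ h1 h2
  rw [h3]
  simp only [mul_zero, add_zero, ne_eq, OfNat.ofNat_ne_zero, not_false_eq_true, zero_pow,
    Pi.pow_apply, Pi.sub_apply, Pi.mul_apply]
  congr 2
  field_simp
  ring

/-- The Laplacian of a radial function. -/
theorem hypLaplacian_radial {Φ : ℝ → ℝ} (hΦ : ContDiff ℝ 2 Φ) (z w : ℍ) :
    hypLaplacian (fun w : ℍ => Φ (q z w)) w =
      deriv (deriv Φ) (q z w) * (q z w ^ 2 - q z w ^ 3) - deriv Φ (q z w) * q z w ^ 2 := by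
  have hU : {w : ℂ | 0 < w.im} ∈ 𝓝 (w : ℂ) :=
    (isOpen_lt continuous_const Complex.continuous_im).mem_nhds w.im_pos
  have he : ((fun w : ℍ => Φ (q z w)) ∘ UpperHalfPlane.ofComplex) =ᶠ[𝓝 (w : ℂ)]
      fun u => Φ (greenBQ z u) := Filter.eventually_of_mem hU fun u hu => greenB_eqOn Φ z hu
  have hF : ContDiffAt ℝ 2 (fun u => Φ (greenBQ z u)) (w : ℂ) :=
    (hΦ.comp_contDiffOn (greenB_contDiffOn z)).contDiffAt hU
  have hz := z.im_pos
  have hw := w.im_pos
  have hd : (z.re - w.re) ^ 2 + (z.im + w.im) ^ 2 ≠ 0 := by positivity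
  have hA : (fun t : ℝ => Φ (greenBQ z ((w : ℂ) + t • (1 : ℂ)))) = fun t : ℝ =>
      Φ ((4 * z.im * w.im + 0 * t) / ((z.re - w.re) ^ 2 + (z.im + w.im) ^ 2 +
        (-2 * (z.re - w.re)) * t + t ^ 2)) := by
    funext t
    simp only [greenBQ, Complex.add_im, Complex.add_re, Complex.real_smul, mul_one,
      Complex.ofReal_im, Complex.ofReal_re, UpperHalfPlane.coe_im, UpperHalfPlane.coe_re]
    congr 2 <;> ring
  have hB : (fun t : ℝ => Φ (greenBQ z ((w : ℂ) + t • Complex.I))) = fun t : ℝ =>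
      Φ ((4 * z.im * w.im + 4 * z.im * t) / ((z.re - w.re) ^ 2 + (z.im + w.im) ^ 2 +
        (2 * (z.im + w.im)) * t + t ^ 2)) := by
    funext t
    simp only [greenBQ, Complex.add_im, Complex.add_re, Complex.real_smul, Complex.mul_im,
      Complex.mul_re, Complex.I_re, Complex.I_im,
      Complex.ofReal_im, Complex.ofReal_re, UpperHalfPlane.coe_im, UpperHalfPlane.coe_re]
    congr 2 <;> ring
  rw [hypLaplacian, (InnerProductSpace.laplacian_congr_nhds he).eq_of_nhds,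
    InnerProductSpace.laplacian_eq_iteratedFDeriv_complexPlane]
  simp only [smul_eq_mul]
  rw [greenB_line hF, greenB_line hF, hA, hB, greenB_rat hΦ _ _ _ _ hd, greenB_rat hΦ _ _ _ _ hd,
    q_eq']
  field_simp
  ring

end Pool.Agent.P.MP_7a2702_mp
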