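import Pool.Agent.P.MP_7a2702_mp.GreenA
import Pool.Agent.P.MP_7a2702_mp.GreenB

set_option autoImplicit false

open scoped MatrixGroups UpperHalfPlane ENNReal ComplexConjugate ContDiff
open MeasureTheory Filter Topology

namespace Pool.Agent.P.MP_7a2702_mp

theorem greenAux_hasDerivAt_pos (n : ℕ) (t : ℝ) :
    HasDerivAt (fun u : ℝ => max u 0 ^ (n + 2)) (((n : ℝ) + 2) * max t 0 ^ (n + 1)) t := by
  have hp : HasDerivAt (fun u : ℝ => u ^ (n + 2)) (((n : ℝ) + 2) * t ^ (n + 1)) t := by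
    simpa using hasDerivAt_pow (n + 2) t
  rcases lt_trichotomy t 0 with ht | ht | ht
  · have h0 : HasDerivAt (fun _ : ℝ => (0 : ℝ)) 0 t := hasDerivAt_const t 0
    rw [max_eq_right ht.le, zero_pow (Nat.succ_ne_zero n), mul_zero]
    refine h0.congr_of_eventuallyEq ?_
    filter_upwards [Iio_mem_nhds ht] with u hu
    rw [max_eq_right (le_of_lt hu), zero_pow (Nat.succ_ne_zero _)]
  · subst ht
    rw [max_self]
    have h1 : HasDerivWithinAt (fun u : ℝ => max u 0 ^ (n + 2))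
        (((n : ℝ) + 2) * (0 : ℝ) ^ (n + 1)) (Set.Ici 0) 0 :=
      hp.hasDerivWithinAt.congr (fun u hu => by rw [max_eq_left hu]) (by rw [max_self])
    have h2 : HasDerivWithinAt (fun u : ℝ => max u 0 ^ (n + 2))
        (((n : ℝ) + 2) * (0 : ℝ) ^ (n + 1)) (Set.Iic 0) 0 := by
      rw [zero_pow (Nat.succ_ne_zero n), mul_zero]
      exact (hasDerivAt_const (0 : ℝ) (0 : ℝ)).hasDerivWithinAt.congr
        (fun u hu => by rw [max_eq_right hu, zero_pow (Nat.succ_ne_zero _)])
        (by rw [max_self, zero_pow (Nat.succ_ne_zero _)])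
    have h3 := h2.union h1
    rwa [Set.Iic_union_Ici, hasDerivWithinAt_univ] at h3
  · rw [max_eq_left ht.le]
    refine hp.congr_of_eventuallyEq ?_
    filter_upwards [Ioi_mem_nhds ht] with u hu
    rw [max_eq_left (le_of_lt hu)]

theorem greenAux_hasDerivAt (ε : ℝ) (n : ℕ) (t : ℝ) :
    HasDerivAt (fun u : ℝ => max (u - ε) 0 ^ (n + 2))
      (((n : ℝ) + 2) * max (t - ε) 0 ^ (n + 1)) t :=
  (greenAux_hasDerivAt_pos n (t - ε)).comp_sub_const t ε

theorem greenAux_deriv (ε : ℝ) (n : ℕ) :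
    deriv (fun u : ℝ => max (u - ε) 0 ^ (n + 2)) =
      fun t => ((n : ℝ) + 2) * max (t - ε) 0 ^ (n + 1) :=
  funext fun t => (greenAux_hasDerivAt ε n t).deriv

theorem greenAux_deriv_two (ε : ℝ) (n : ℕ) :
    deriv (deriv (fun u : ℝ => max (u - ε) 0 ^ (n + 3))) =
      fun t => ((n : ℝ) + 3) * (((n : ℝ) + 2) * max (t - ε) 0 ^ (n + 1)) := by
  rw [greenAux_deriv ε (n + 1)]
  funext t
  rw [((greenAux_hasDerivAt ε n t).const_mul _).deriv]
  push_cast
  ring

theorem greenAux_contDiff (ε : ℝ) (n : ℕ) :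
    ContDiff ℝ 2 (fun u : ℝ => max (u - ε) 0 ^ (n + 3)) := by
  have h1 : ContDiff ℝ 1 (fun u : ℝ => max (u - ε) 0 ^ (n + 2)) := by
    rw [contDiff_one_iff_deriv, greenAux_deriv]
    exact ⟨fun t => (greenAux_hasDerivAt ε n t).differentiableAt, by fun_prop⟩
  have h2 : (2 : WithTop ℕ∞) = 1 + 1 := rfl
  rw [h2, contDiff_succ_iff_deriv, greenAux_deriv ε (n + 1)]
  exact ⟨fun t => (greenAux_hasDerivAt ε (n + 1) t).differentiableAt, by simp,
    contDiff_const.mul h1⟩

theorem greenAux_theta_lt {ε : ℝ} (hε : 0 < ε) : theta (4 / ε) < ε := by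
  have h1 : 1 ≤ Real.cosh (4 / ε / 2) := Real.one_le_cosh _
  have h2 : 1 / ε < Real.cosh (4 / ε / 2) := by
    have h3 := Real.add_one_le_exp (4 / ε / 2)
    have h4 := Real.exp_pos (-(4 / ε / 2))
    have h5 : 4 / ε / 2 = 2 * (1 / ε) := by ring
    rw [Real.cosh_eq]
    linarith
  have h6 : (Real.cosh (4 / ε / 2))⁻¹ < ε := by
    rw [inv_lt_comm₀ (by linarith) hε, inv_eq_one_div]
    exact h2
  have h7 : (Real.cosh (4 / ε / 2))⁻¹ ≤ 1 := inv_le_one_of_one_le₀ h1
  have h8 : 0 < (Real.cosh (4 / ε / 2))⁻¹ := inv_pos.2 (by linarith)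
  unfold theta
  nlinarith

theorem greenAux_hyp (f : ℍ → ℝ) {w : ℂ} (hw : 0 < w.im) :
    hypLaplacian f (UpperHalfPlane.ofComplex w) =
      w.im ^ 2 * Laplacian.laplacian (f ∘ UpperHalfPlane.ofComplex : ℂ → ℝ) w := by
  rw [hypLaplacian, UpperHalfPlane.ofComplex_apply_of_im_pos hw]
  rfl

/-- Green identity on the hyperbolic plane for a truncated radial test function. -/
theorem greenAux_trunc {f : ℍ → ℝ} (hf : Smooth f) {Φ : ℝ → ℝ} (hΦ : ContDiff ℝ 2 Φ) {ε : ℝ}
    (hε : 0 < ε) (h0 : ∀ t, t ≤ ε → Φ t = 0) (z : ℍ) :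
    ∫ w, Φ (q z w) * hypLaplacian f w =
      ∫ w, f w * hypLaplacian (fun w : ℍ => Φ (q z w)) w := by
  have hU : MeasurableSet {w : ℂ | 0 < w.im} :=
    (isOpen_lt continuous_const Complex.continuous_im).measurableSet
  have hf2 : ContDiffOn ℝ 2 (f ∘ UpperHalfPlane.ofComplex) {w : ℂ | 0 < w.im} :=
    ContDiffOn.of_le hf (WithTop.coe_le_coe.2 le_top : ((2 : ℕ∞) : WithTop ℕ∞) ≤ ((⊤ : ℕ∞) : _))
  have hK : IsCompact (UpperHalfPlane.coe '' Metric.closedBall z (4 / ε)) :=
    (isCompact_closedBall z (4 / ε)).image UpperHalfPlane.continuous_coe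
  have hG := green_compact (contDiffOn_radial hΦ z) hf2 hK
    (by rintro _ ⟨w, -, rfl⟩; exact w.im_pos) (fun w hw hwK => by
      refine h0 _ (le_trans (q_le_theta (by positivity) ?_) (greenAux_theta_lt hε).le)
      by_contra hlt
      refine hwK ⟨UpperHalfPlane.ofComplex w, ?_, ?_⟩
      · rw [Metric.mem_closedBall, dist_comm]
        exact (not_le.1 hlt).le
      · rw [UpperHalfPlane.ofComplex_apply_of_im_pos hw])
  rw [integral_eq_setIntegral, integral_eq_setIntegral]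
  refine (setIntegral_congr_fun hU fun w hw => ?_).trans
    (hG.trans (setIntegral_congr_fun hU fun w hw => ?_))
  · have hw' : 0 < w.im := hw
    simp only [greenAux_hyp f hw', smul_eq_mul, Function.comp_apply]
    field_simp
  · have hw' : 0 < w.im := hw
    simp only [greenAux_hyp _ hw', smul_eq_mul, Function.comp_apply]
    field_simp

theorem greenAux_norm_le {g : ℍ → ℝ} {ε : ℝ} (hε : 0 ≤ ε) (n m : ℕ) (z w : ℍ) :
    ‖max (q z w - ε) 0 ^ n * q z w ^ m * g w‖ ≤ ‖q z w ^ (n + m) * g w‖ := by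
  have hq := q_pos z w
  have h1 : max (q z w - ε) 0 ^ n ≤ q z w ^ n :=
    pow_le_pow_left₀ (le_max_right _ _) (max_le (by linarith) hq.le) n
  have h2 : 0 ≤ max (q z w - ε) 0 ^ n := pow_nonneg (le_max_right _ _) n
  rw [norm_mul, norm_mul (q z w ^ (n + m)), pow_add]
  refine mul_le_mul_of_nonneg_right ?_ (norm_nonneg _)
  rw [Real.norm_of_nonneg (by positivity), Real.norm_of_nonneg (by positivity)]
  exact mul_le_mul_of_nonneg_right h1 (by positivity)

theorem greenAux_meas {g : ℍ → ℝ} (hg : BC g) (ε : ℝ) (n m : ℕ) (z : ℍ) :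
    AEStronglyMeasurable (fun w => max (q z w - ε) 0 ^ n * q z w ^ m * g w) volume := by
  have h1 := continuous_q_right z
  have h2 := hg.1
  exact Continuous.aestronglyMeasurable (by fun_prop)

theorem greenAux_integrable {g : ℍ → ℝ} (hg : BC g) {ε : ℝ} (hε : 0 ≤ ε) {n m : ℕ}
    (h : 2 ≤ n + m) (z : ℍ) :
    Integrable fun w => max (q z w - ε) 0 ^ n * q z w ^ m * g w :=
  (hg.integrable_avg h z).norm.mono' (greenAux_meas hg ε n m z)
    (Eventually.of_forall fun w => greenAux_norm_le hε n m z w)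

theorem greenAux_tendsto {g : ℍ → ℝ} (hg : BC g) {n m : ℕ} (h : 2 ≤ n + m) (z : ℍ) :
    Tendsto (fun k : ℕ => ∫ w, max (q z w - 1 / ((k : ℝ) + 1)) 0 ^ n * q z w ^ m * g w) atTop
      (𝓝 (avg (n + m) g z)) := by
  refine tendsto_integral_of_dominated_convergence (fun w => ‖q z w ^ (n + m) * g w‖)
    (fun k => greenAux_meas hg _ n m z) (hg.integrable_avg h z).norm
    (fun k => Eventually.of_forall fun w => greenAux_norm_le (by positivity) n m z w)
    (Eventually.of_forall fun w => ?_)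
  have h1 : Tendsto (fun k : ℕ => max (q z w - 1 / ((k : ℝ) + 1)) 0) atTop (𝓝 (q z w)) := by
    have h2 := ((tendsto_const_nhds (x := q z w)).sub
      (tendsto_one_div_add_atTop_nhds_zero_nat (𝕜 := ℝ))).max (tendsto_const_nhds (x := (0 : ℝ)))
    rwa [sub_zero, max_eq_left (q_pos z w).le] at h2
  rw [pow_add]
  exact ((h1.pow n).mul_const _).mul_const _

theorem avg_lap {f : ℍ → ℝ} (hf : Smooth f) (hb : BC f) (hb' : BC (hypLaplacian f)) {s : ℕ}
    (hs : 3 ≤ s) (z : ℍ) :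
    avg s (hypLaplacian f) z =
      (s : ℝ) * ((s : ℝ) - 1) * avg s f z - (s : ℝ) ^ 2 * avg (s + 1) f z := by
  obtain ⟨n, rfl⟩ : ∃ n, s = n + 3 := ⟨s - 3, by omega⟩
  have key : ∀ ε : ℝ, 0 < ε →
      ∫ w, max (q z w - ε) 0 ^ (n + 3) * q z w ^ 0 * hypLaplacian f w =
        ((n : ℝ) + 3) * ((n : ℝ) + 2) *
          ((∫ w, max (q z w - ε) 0 ^ (n + 1) * q z w ^ 2 * f w) -
            ∫ w, max (q z w - ε) 0 ^ (n + 1) * q z w ^ 3 * f w) -
          ((n : ℝ) + 3) * ∫ w, max (q z w - ε) 0 ^ (n + 2) * q z w ^ 2 * f w := by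
    intro ε hε
    have h1 := greenAux_trunc hf (greenAux_contDiff ε n) hε (fun t ht => by
      rw [max_eq_right (by linarith), zero_pow (Nat.succ_ne_zero _)]) z
    have i1 := greenAux_integrable hb hε.le (n := n + 1) (m := 2) (by omega) z
    have i2 := greenAux_integrable hb hε.le (n := n + 1) (m := 3) (by omega) z
    have i3 := greenAux_integrable hb hε.le (n := n + 2) (m := 2) (by omega) z
    have i4 : Integrable fun w => max (q z w - ε) 0 ^ (n + 1) * q z w ^ 2 * f w -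
        max (q z w - ε) 0 ^ (n + 1) * q z w ^ 3 * f w := i1.sub i2
    rw [← integral_sub i1 i2, ← integral_const_mul, ← integral_const_mul,
      ← integral_sub (i4.const_mul _) (i3.const_mul _)]
    simp only [pow_zero, mul_one]
    refine h1.trans (integral_congr_ae (Eventually.of_forall fun w => ?_))
    simp only [hypLaplacian_radial (greenAux_contDiff ε n)]
    rw [greenAux_deriv_two, greenAux_deriv ε (n + 1)]
    push_cast
    ring
  have t0 := greenAux_tendsto hb' (n := n + 3) (m := 0) (by omega) z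
  have t1 := greenAux_tendsto hb (n := n + 1) (m := 2) (by omega) z
  have t2 := greenAux_tendsto hb (n := n + 1) (m := 3) (by omega) z
  have t3 := greenAux_tendsto hb (n := n + 2) (m := 2) (by omega) z
  have t4 := ((t1.sub t2).const_mul (((n : ℝ) + 3) * ((n : ℝ) + 2))).sub
    (t3.const_mul ((n : ℝ) + 3))
  have h := tendsto_nhds_unique t0 (t4.congr fun k => (key _ (by positivity)).symm)
  have e1 : n + 1 + 3 = n + 3 + 1 := by omega
  have e2 : n + 2 + 2 = n + 3 + 1 := by omega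
  have e3 : n + 1 + 2 = n + 3 := by omega
  rw [e1, e2, e3] at h
  rw [h]
  push_cast
  ring

end Pool.Agent.P.MP_7a2702_mp
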