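import Pool.Agent.P.MP_7a2702_mp.Basic

set_option autoImplicit false

open scoped MatrixGroups UpperHalfPlane ENNReal ComplexConjugate ContDiff
open MeasureTheory Filter Topology

namespace Pool.Agent.P.MP_7a2702_mp

theorem selAux_den {s m : ℕ} (hs : 2 ≤ s) (hm : s ≤ m) : 0 < (m : ℝ) * ((m : ℝ) - 1) := by
  have : (2 : ℝ) ≤ m := by exact_mod_cast hs.trans hm
  nlinarith

theorem selAux_one_le {s : ℕ} (hs : 2 ≤ s) {μ : ℝ} (hμ : 0 ≤ μ) (M : ℕ) : 1 ≤ selP s M μ := by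
  refine Finset.prod_induction _ (fun x => 1 ≤ x) (fun a b ha hb => one_le_mul_of_one_le_of_one_le ha hb)
    le_rfl fun m hm => ?_
  have := div_nonneg hμ (selAux_den hs (Finset.mem_Ico.1 hm).1).le
  linarith

theorem selAux_mono {s : ℕ} (hs : 2 ≤ s) {μ : ℝ} (hμ : 0 ≤ μ) :
    Monotone fun M => selP s M μ := by
  refine monotone_nat_of_le_succ fun M => ?_
  rcases le_or_gt s M with h | h
  · have h1 := selAux_one_le hs hμ M
    have h2 := div_nonneg hμ (selAux_den hs h).le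
    simp only [selP] at h1 ⊢
    rw [Finset.prod_Ico_succ_top h]
    nlinarith
  · simp only [selP]
    rw [Finset.Ico_eq_empty (by omega), Finset.Ico_eq_empty (by omega)]

theorem selAux_le_exp {s : ℕ} (hs : 2 ≤ s) {μ : ℝ} (hμ : 0 ≤ μ) (M : ℕ) :
    selP s M μ ≤ Real.exp (μ / ((s : ℝ) - 1)) := by
  have hs' : (2 : ℝ) ≤ s := by exact_mod_cast hs
  have key : ∀ M, s ≤ M → selP s M μ ≤ Real.exp (μ / ((s : ℝ) - 1) - μ / ((M : ℝ) - 1)) := by
    intro M hM
    induction M, hM using Nat.le_induction with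
    | base => simp [selP]
    | succ M hM ih =>
      have hM' : (2 : ℝ) ≤ M := by exact_mod_cast hs.trans hM
      have h1 : μ / ((s : ℝ) - 1) - μ / (((M + 1 : ℕ) : ℝ) - 1) =
          (μ / ((s : ℝ) - 1) - μ / ((M : ℝ) - 1)) + μ / ((M : ℝ) * ((M : ℝ) - 1)) := by
        have : (M : ℝ) - 1 ≠ 0 := by linarith
        have : (M : ℝ) ≠ 0 := by linarith
        rw [Nat.cast_add, Nat.cast_one, add_sub_cancel_right]
        have h0 : μ / (M : ℝ) = μ / ((M : ℝ) - 1) - μ / ((M : ℝ) * ((M : ℝ) - 1)) := by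
          field_simp
        rw [h0]
        ring
      simp only [selP] at ih ⊢
      rw [Finset.prod_Ico_succ_top hM, h1, Real.exp_add]
      have h2 := div_nonneg hμ (selAux_den hs hM).le
      exact mul_le_mul ih (by linarith [Real.add_one_le_exp (μ / ((M : ℝ) * ((M : ℝ) - 1)))])
        (by linarith) (Real.exp_pos _).le
  rcases le_or_gt s M with h | h
  · refine (key M h).trans (Real.exp_le_exp.2 ?_)
    have hM' : (2 : ℝ) ≤ M := by exact_mod_cast hs.trans h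
    have : 0 ≤ μ / ((M : ℝ) - 1) := div_nonneg hμ (by linarith)
    linarith
  · simp only [selP]
    rw [Finset.Ico_eq_empty (by omega), Finset.prod_empty]
    exact Real.one_le_exp (div_nonneg hμ (by linarith))

theorem selAux_bdd {s : ℕ} (hs : 2 ≤ s) {μ : ℝ} (hμ : 0 ≤ μ) :
    BddAbove (Set.range fun M => selP s M μ) :=
  ⟨_, by rintro _ ⟨M, rfl⟩; exact selAux_le_exp hs hμ M⟩

theorem selAux_one_le_iSup {s : ℕ} (hs : 2 ≤ s) {μ : ℝ} (hμ : 0 ≤ μ) :
    1 ≤ ⨆ M : ℕ, selP s M μ :=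
  (selAux_one_le hs hμ 0).trans (le_ciSup (selAux_bdd hs hμ) 0)

theorem tendsto_selP {s : ℕ} (hs : 2 ≤ s) {μ : ℝ} (hμ : 0 ≤ μ) :
    Tendsto (fun M => selP s M μ) atTop (𝓝 (sel s μ)⁻¹) := by
  rw [sel, inv_inv]
  exact tendsto_atTop_ciSup (selAux_mono hs hμ) (selAux_bdd hs hμ)

theorem sel_pos {s : ℕ} (hs : 2 ≤ s) {μ : ℝ} (hμ : 0 ≤ μ) : 0 < sel s μ :=
  inv_pos.2 (one_pos.trans_le (selAux_one_le_iSup hs hμ))

theorem sel_le_one {s : ℕ} (hs : 2 ≤ s) {μ : ℝ} (hμ : 0 ≤ μ) : sel s μ ≤ 1 :=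
  inv_le_one_of_one_le₀ (selAux_one_le_iSup hs hμ)

theorem sel_antitoneOn {s : ℕ} (hs : 2 ≤ s) : AntitoneOn (sel s) (Set.Ici 0) := by
  intro μ hμ μ' hμ' h
  refine inv_anti₀ (one_pos.trans_le (selAux_one_le_iSup hs hμ))
    (ciSup_mono (selAux_bdd hs hμ') fun M => ?_)
  refine Finset.prod_le_prod (fun m hm => ?_) fun m hm => ?_
  · have := div_nonneg hμ (selAux_den hs (Finset.mem_Ico.1 hm).1).le
    linarith
  · have := div_le_div_of_nonneg_right h (selAux_den hs (Finset.mem_Ico.1 hm).1).le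
    linarith

end Pool.Agent.P.MP_7a2702_mp
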