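import Pool.Agent.P.MP_7a2702_mp.SmoothAvg
import Pool.Agent.P.MP_7a2702_mp.Green
import Pool.Agent.P.MP_7a2702_mp.Sel

set_option autoImplicit false

open scoped MatrixGroups UpperHalfPlane ENNReal ComplexConjugate ContDiff
open MeasureTheory Filter Topology

namespace Pool.Agent.P.MP_7a2702_mp

theorem approx_mass_succ {s : ℕ} (hs : 2 ≤ s) :
    (s : ℝ) * mass (s + 1) = ((s : ℝ) - 1) * mass s := by
  have hb : BC fun _ : ℍ => (1 : ℝ) := ⟨continuous_const, 1, fun _ => by simp⟩
  have h := lap_avg hb hs UpperHalfPlane.I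
  have h1 : avg s (fun _ => 1) = fun _ => mass s := funext fun z => avg_one s z
  have h2 : ((fun _ : ℍ => mass s) ∘ UpperHalfPlane.ofComplex : ℂ → ℝ) = fun _ => mass s := rfl
  rw [avg_one, avg_one, h1, hypLaplacian, h2] at h
  simp only [InnerProductSpace.laplacian_const, Pi.zero_apply, smul_zero] at h
  have hs' : (2 : ℝ) ≤ s := by exact_mod_cast hs
  refine mul_left_cancel₀ (by linarith : (s : ℝ) ≠ 0) ?_
  linarith

theorem mass_eq {s : ℕ} (hs : 2 ≤ s) : mass s = mass 2 / ((s : ℝ) - 1) := by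
  induction s, hs using Nat.le_induction with
  | base => norm_num
  | succ s hs ih =>
    have hs' : (2 : ℝ) ≤ s := by exact_mod_cast hs
    have h := approx_mass_succ hs
    rw [eq_div_iff (by linarith)] at ih
    rw [eq_div_iff (by push_cast; linarith)]
    push_cast
    linarith

theorem BC.avg {f : ℍ → ℝ} (hf : BC f) {s : ℕ} (hs : 2 ≤ s) : BC (avg s f) := by
  refine ⟨(smooth_avg hf hs).continuous, ?_⟩
  obtain ⟨M, hM⟩ := hf.2
  exact ⟨M * mass s, abs_avg_le hM hs⟩

/-- Approximate identity. -/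
theorem tendsto_avg {f : ℍ → ℝ} (hf : BC f) (z : ℍ) :
    Tendsto (fun s : ℕ => avg s f z / mass s) atTop (𝓝 (f z)) := by
  obtain ⟨M, hM⟩ := hf.2
  have hM0 : 0 ≤ M := (abs_nonneg _).trans (hM z)
  rw [Metric.tendsto_nhds]
  intro ε hε
  obtain ⟨δ, hδ, hδ'⟩ := Metric.continuousAt_iff.1 (hf.1.continuousAt (x := z)) (ε / 2)
    (by positivity)
  have hθ := theta_pos δ
  have hlim : Tendsto (fun s : ℕ => 2 * M / theta δ ^ 2 * ((s : ℝ) * theta δ ^ s)) atTop (𝓝 0) := by
    simpa using (tendsto_self_mul_const_pow_of_lt_one hθ.le (theta_lt_one hδ)).const_mul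
      (2 * M / theta δ ^ 2)
  filter_upwards [hlim.eventually_lt_const (by positivity : 0 < ε / 2), eventually_ge_atTop 2]
    with s h1 hs
  obtain ⟨t, rfl⟩ := Nat.exists_eq_add_of_le hs
  have hi := integrable_q_pow hs z
  have hi2 := integrable_q_pow le_rfl z
  have e1 : avg (2 + t) f z - f z * mass (2 + t) = ∫ w, q z w ^ (2 + t) * (f w - f z) := by
    rw [← integral_q_pow (2 + t) z, ← integral_const_mul, avg,
      ← integral_sub (hf.integrable_avg hs z) (hi.const_mul _)]
    exact integral_congr_ae (Eventually.of_forall fun w => by ring)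
  have e2 : |avg (2 + t) f z - f z * mass (2 + t)| ≤
      ε / 2 * mass (2 + t) + 2 * M * theta δ ^ t * mass 2 := by
    rw [e1, ← integral_q_pow (2 + t) z, ← integral_q_pow 2 z, ← integral_const_mul,
      ← integral_const_mul, ← integral_add (hi.const_mul _) (hi2.const_mul _), ← Real.norm_eq_abs]
    refine norm_integral_le_of_norm_le ((hi.const_mul _).add (hi2.const_mul _))
      (Eventually.of_forall fun w => ?_)
    have hq := q_pos z w
    rw [Real.norm_eq_abs, abs_mul, abs_of_pos (pow_pos hq _)]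
    rcases lt_or_ge (dist w z) δ with h | h
    · have h2 := hδ' h
      rw [Real.dist_eq] at h2
      have h3 : 0 ≤ 2 * M * theta δ ^ t * q z w ^ 2 := by positivity
      have h4 : q z w ^ (2 + t) * |f w - f z| ≤ q z w ^ (2 + t) * (ε / 2) := by gcongr
      linarith
    · rw [dist_comm] at h
      have h2 := q_le_theta hδ.le h
      have h3 : |f w - f z| ≤ 2 * M := by
        have := abs_sub (f w) (f z)
        linarith [hM w, hM z]
      have h4 : q z w ^ (2 + t) * |f w - f z| ≤ q z w ^ 2 * theta δ ^ t * (2 * M) := by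
        rw [pow_add]
        gcongr
      have h5 : 0 ≤ ε / 2 * q z w ^ (2 + t) := by positivity
      linarith
  have hm := mass_pos hs
  have e3 := mass_eq hs
  have ht : (0 : ℝ) ≤ t := Nat.cast_nonneg t
  push_cast at e3 h1
  rw [eq_div_iff (by linarith)] at e3
  have e4 : 2 * M / theta δ ^ 2 * ((2 + t) * theta δ ^ (2 + t)) =
      2 * M * theta δ ^ t * (2 + t) := by
    rw [pow_add]
    field_simp
  rw [e4] at h1
  rw [Real.dist_eq, div_sub' hm.ne', abs_div, abs_of_pos hm, div_lt_iff₀ hm, mul_comm (mass _)]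
  refine e2.trans_lt ?_
  rw [← e3]
  have h6 : 0 ≤ 2 * M * theta δ ^ t := by positivity
  nlinarith

theorem approx_avg_lin {f g : ℍ → ℝ} (hf : BC f) (hg : BC g) (a b : ℝ) {s : ℕ} (hs : 2 ≤ s)
    (z : ℍ) : avg s (fun w => a * f w - b * g w) z = a * avg s f z - b * avg s g z := by
  rw [avg, avg, avg, ← integral_const_mul, ← integral_const_mul,
    ← integral_sub ((hf.integrable_avg hs z).const_mul a) ((hg.integrable_avg hs z).const_mul b)]
  exact integral_congr_ae (Eventually.of_forall fun w => by ring)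

theorem approx_bc_lin {f g : ℍ → ℝ} (hf : BC f) (hg : BC g) (a b : ℝ) :
    BC fun w => a * f w - b * g w := by
  obtain ⟨hc, M, hM⟩ := hf
  obtain ⟨hc', M', hM'⟩ := hg
  refine ⟨by fun_prop, |a| * M + |b| * M', fun z => (abs_sub _ _).trans ?_⟩
  rw [abs_mul, abs_mul]
  have := hM z
  have := hM' z
  gcongr

theorem avg_succ_eigen {f : ℍ → ℝ} (hf : Smooth f) (hb : BC f) {μ : ℝ}
    (he : ∀ z, hypLaplacian f z = -μ * f z) {s : ℕ} (hs : 3 ≤ s) (z : ℍ) :
    (s : ℝ) ^ 2 * avg (s + 1) f z = ((s : ℝ) * ((s : ℝ) - 1) + μ) * avg s f z := by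
  have e : hypLaplacian f = fun w => -μ * f w - 0 * f w := funext fun w => by rw [he]; ring
  have h := avg_lap hf hb (e ▸ approx_bc_lin hb hb (-μ) 0) hs z
  rw [e, approx_avg_lin hb hb _ _ (by omega)] at h
  linarith

theorem approx_step {f : ℍ → ℝ} (hf : Smooth f) (hb : BC f) {μ : ℝ}
    (he : ∀ z, hypLaplacian f z = -μ * f z) {s : ℕ} (hs : 3 ≤ s) (z : ℍ) :
    avg (s + 1) f z / mass (s + 1) =
      (1 + μ / ((s : ℝ) * ((s : ℝ) - 1))) * (avg s f z / mass s) := by
  have h1 := avg_succ_eigen hf hb he hs z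
  have h2 := approx_mass_succ (s := s) (by omega)
  have h3 := mass_pos (s := s) (by omega)
  have hs' : (3 : ℝ) ≤ s := by exact_mod_cast hs
  have h4 : (s : ℝ) ≠ 0 := by linarith
  have h5 : (s : ℝ) - 1 ≠ 0 := by linarith
  have e1 : avg (s + 1) f z = ((s : ℝ) * ((s : ℝ) - 1) + μ) * avg s f z / (s : ℝ) ^ 2 := by
    rw [← h1]
    field_simp
  have e2 : mass (s + 1) = ((s : ℝ) - 1) * mass s / s := by
    rw [← h2]
    field_simp
  rw [e1, e2]
  field_simp

theorem avg_eigen {f : ℍ → ℝ} (hf : Smooth f) (hb : BC f) {μ : ℝ} (hμ : 0 ≤ μ)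
    (he : ∀ z, hypLaplacian f z = -μ * f z) {s : ℕ} (hs : 3 ≤ s) (z : ℍ) :
    avg s f z = mass s * sel s μ * f z := by
  have key : ∀ M, s ≤ M → avg M f z / mass M = selP s M μ * (avg s f z / mass s) := by
    intro M hM
    induction M, hM using Nat.le_induction with
    | base => simp [selP]
    | succ M hM ih =>
      rw [approx_step hf hb he (hs.trans hM), ih, selP, selP, Finset.prod_Ico_succ_top hM]
      ring
  have h1 := (tendsto_selP (s := s) (by omega) hμ).mul_const (avg s f z / mass s)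
  have h2 := tendsto_nhds_unique (tendsto_avg hb z) (h1.congr' (by
    filter_upwards [eventually_ge_atTop s] with M hM
    exact (key M hM).symm))
  have h3 := (mass_pos (s := s) (by omega)).ne'
  have h4 := (sel_pos (s := s) (by omega) hμ).ne'
  rw [h2]
  field_simp

theorem eq_zero_of_neg {f : ℍ → ℝ} (hf : Smooth f) (hb : BC f) {μ : ℝ} (hμ : μ < 0)
    (he : ∀ z, hypLaplacian f z = -μ * f z) : f = 0 := by
  obtain ⟨n, hn⟩ := exists_nat_gt (-μ)
  set s := n + 3 with hs
  have hs3 : 3 ≤ s := by omega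
  have hfac : ∀ m : ℕ, s ≤ m → 0 < 1 + μ / ((m : ℝ) * ((m : ℝ) - 1)) ∧
      1 + μ / ((m : ℝ) * ((m : ℝ) - 1)) < 1 := by
    intro m hm
    have h1 : (n : ℝ) + 3 ≤ m := by exact_mod_cast hm
    have h0 : (0 : ℝ) ≤ n := Nat.cast_nonneg n
    have h2 : 0 < (m : ℝ) * ((m : ℝ) - 1) := by nlinarith
    have h3 : -1 < μ / ((m : ℝ) * ((m : ℝ) - 1)) := by
      rw [lt_div_iff₀ h2]
      nlinarith
    have h4 := div_neg_of_neg_of_pos hμ h2
    constructor <;> linarith
  set θ := 1 + μ / ((s : ℝ) * ((s : ℝ) - 1)) with hθ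
  obtain ⟨hθ0, hθ1⟩ := hfac s le_rfl
  have step : ∀ M : ℝ, (∀ z, |f z| ≤ M) → ∀ z, |f z| ≤ θ * M := by
    intro M hM z
    have h1 : |avg s f z / mass s| ≤ M := by
      have hm := mass_pos (s := s) (by omega)
      rw [abs_div, abs_of_pos hm, div_le_iff₀ hm]
      exact abs_avg_le hM (by omega) z
    have h2 : ∀ m, s + 1 ≤ m → |avg m f z / mass m| ≤ θ * M := by
      intro m hm
      induction m, hm using Nat.le_induction with
      | base =>
        rw [approx_step hf hb he hs3, abs_mul, abs_of_pos hθ0]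
        gcongr
      | succ m hm ih =>
        obtain ⟨h3, h4⟩ := hfac m (by omega)
        rw [approx_step hf hb he (by omega), abs_mul, abs_of_pos h3]
        nlinarith [abs_nonneg (avg m f z / mass m)]
    exact le_of_tendsto (tendsto_avg hb z).abs (eventually_atTop.2 ⟨s + 1, h2⟩)
  obtain ⟨M, hM⟩ := hb.2
  have iter : ∀ k : ℕ, ∀ z, |f z| ≤ θ ^ k * M := by
    intro k
    induction k with
    | zero => simpa using hM
    | succ k ih =>
      intro z
      rw [pow_succ', mul_assoc]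
      exact step _ ih z
  funext z
  have h1 : Tendsto (fun k : ℕ => θ ^ k * M) atTop (𝓝 0) := by
    simpa using (tendsto_pow_atTop_nhds_zero_of_lt_one hθ0.le hθ1).mul_const M
  exact abs_nonpos_iff.1 (ge_of_tendsto' h1 fun k => iter k z)

theorem avg_comm {f : ℍ → ℝ} (hf : BC f) {s : ℕ} (hs : 3 ≤ s) (z : ℍ) :
    avg s (avg (s + 1) f) z = avg (s + 1) (avg s f) z := by
  have h2 : 2 ≤ s := by omega
  have b1 := hf.avg h2
  have b2 := hf.avg (s := s + 1) (by omega)
  have e : hypLaplacian (avg s f) = fun w =>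
      (s : ℝ) * ((s : ℝ) - 1) * avg s f w - (s : ℝ) ^ 2 * avg (s + 1) f w :=
    funext fun w => lap_avg hf h2 w
  have h := avg_lap (smooth_avg hf h2) b1 (e ▸ approx_bc_lin b1 b2 _ _) hs z
  rw [e, approx_avg_lin b1 b2 _ _ h2] at h
  have hs' : (3 : ℝ) ≤ s := by exact_mod_cast hs
  refine mul_left_cancel₀ (by positivity : (s : ℝ) ^ 2 ≠ 0) ?_
  linarith

end Pool.Agent.P.MP_7a2702_mp
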