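import Pool.Agent.P.MP_7a2702_mp.CocptG0

set_option autoImplicit false

open scoped MatrixGroups UpperHalfPlane ENNReal ComplexConjugate ContDiff
open MeasureTheory Filter Topology

namespace Pool.Agent.P.MP_7a2702_mp

theorem arith_center_le {G : Subgroup SL(2, ℝ)} (h : (-1 : SL(2, ℝ)) ∈ G) :
    Subgroup.center SL(2, ℝ) ≤ G := by
  intro A hA
  obtain ⟨r, hr, hA⟩ := Matrix.SpecialLinearGroup.mem_center_iff.1 hA
  rw [Fintype.card_fin, sq_eq_one_iff] at hr
  rcases hr with rfl | rfl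
  · have : A = 1 := Subtype.ext (by rw [← hA]; simp)
    rw [this]; exact G.one_mem
  · have : A = -1 := Subtype.ext (by rw [← hA, map_neg, map_one]; simp)
    rw [this]; exact h

theorem cover_map {G : Subgroup SL(2, ℝ)} (h : (-1 : SL(2, ℝ)) ∈ G) :
    cover (G.map (QuotientGroup.mk' (Subgroup.center SL(2, ℝ)))) = G := by
  rw [cover, Subgroup.comap_map_eq, QuotientGroup.ker_mk', sup_eq_left.2 (arith_center_le h)]

/-- The order inside the rational quaternion algebra `(5, 13)`. -/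
def arithE : Qu ℤ →+* QuaternionAlgebra ℚ 5 0 13 where
  toFun x := ⟨x.re + x.imI / 2, x.imI / 2, x.imJ + x.imK / 2, x.imK / 2⟩
  map_one' := by ext <;> simp
  map_mul' x y := by ext <;> simp <;> ring
  map_zero' := by ext <;> simp
  map_add' x y := by ext <;> simp <;> ring

theorem arithE_apply (x : Qu ℤ) :
    arithE x = ⟨x.re + x.imI / 2, x.imI / 2, x.imJ + x.imK / 2, x.imK / 2⟩ := rfl

/-- Change of basis over the reals. -/
def arithF : QuaternionAlgebra ℚ 5 0 13 →+* Qu ℝ where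
  toFun x := ⟨x.re - x.imI, 2 * x.imI, x.imJ - x.imK, 2 * x.imK⟩
  map_one' := by ext <;> simp
  map_mul' x y := by ext <;> simp <;> ring
  map_zero' := by ext <;> simp
  map_add' x y := by ext <;> simp <;> ring

theorem arithF_apply (x : QuaternionAlgebra ℚ 5 0 13) :
    arithF x = ⟨x.re - x.imI, 2 * x.imI, x.imJ - x.imK, 2 * x.imK⟩ := rfl

theorem arith_rho (x : Qu ℤ) : rhoR (arithF (arithE x)) = rho x := by
  rw [rho, RingHom.comp_apply]
  congr 1
  ext <;> simp [arithF_apply, arithE_apply, Qu.map_apply] <;> ring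

theorem arith_mul_star (x : Qu ℤ) :
    arithE x * star (arithE x) = ((nrd x : ℤ) : ℚ) • (1 : QuaternionAlgebra ℚ 5 0 13) := by
  ext <;> simp [arithE_apply, nrd] <;> ring

theorem arith_span_int : arithE.range.toAddSubgroup =
    AddSubgroup.closure ({arithE ⟨1, 0, 0, 0⟩, arithE ⟨0, 1, 0, 0⟩, arithE ⟨0, 0, 1, 0⟩,
      arithE ⟨0, 0, 0, 1⟩} : Set (QuaternionAlgebra ℚ 5 0 13)) := by
  apply le_antisymm
  · rintro _ ⟨x, rfl⟩
    have hx : x = x.re • (⟨1, 0, 0, 0⟩ : Qu ℤ) + x.imI • (⟨0, 1, 0, 0⟩ : Qu ℤ) +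
        x.imJ • (⟨0, 0, 1, 0⟩ : Qu ℤ) + x.imK • (⟨0, 0, 0, 1⟩ : Qu ℤ) := by
      ext <;> simp
    rw [hx]
    simp only [map_add, map_zsmul]
    refine add_mem (add_mem (add_mem ?_ ?_) ?_) ?_ <;>
      exact zsmul_mem (AddSubgroup.subset_closure (by simp)) _
  · rw [AddSubgroup.closure_le]
    intro y hy
    simp only [Set.mem_insert_iff, Set.mem_singleton_iff] at hy
    rcases hy with rfl | rfl | rfl | rfl <;> exact ⟨_, rfl⟩

theorem arith_span_rat :
    Submodule.span ℚ (arithE.range : Set (QuaternionAlgebra ℚ 5 0 13)) = ⊤ := by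
  rw [eq_top_iff]
  intro y _
  have hy : y = (y.re - y.imI) • arithE ⟨1, 0, 0, 0⟩ + (2 * y.imI) • arithE ⟨0, 1, 0, 0⟩ +
      (y.imJ - y.imK) • arithE ⟨0, 0, 1, 0⟩ + (2 * y.imK) • arithE ⟨0, 0, 0, 1⟩ := by
    ext <;> simp [arithE_apply] <;> ring
  rw [hy]
  refine add_mem (add_mem (add_mem ?_ ?_) ?_) ?_ <;>
    exact Submodule.smul_mem _ _ (Submodule.subset_span ⟨_, rfl⟩)

theorem isArithmetic_G0 :
    IsArithmetic (G0.map (QuotientGroup.mk' (Subgroup.center SL(2, ℝ)))) := by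
  refine ⟨ℚ, inferInstance, inferInstance, inferInstance, 5, 13, Rat.castHom ℝ, rhoR.comp arithF,
    arithE.range, G1.map (QuotientGroup.mk' (Subgroup.center SL(2, ℝ))), by norm_num, by norm_num,
    ?_, ?_, ⟨?_, ?_, arith_span_rat⟩, ?_, ?_⟩
  · intro x
    ext i j
    fin_cases i <;> fin_cases j <;> simp [rhoR_apply, arithF_apply, QuaternionAlgebra.algebraMap_eq]
  · intro ψ hψ
    exact absurd (Subsingleton.elim _ _) hψ
  · intro x hx
    obtain ⟨n, rfl⟩ := IsIntegrallyClosed.isIntegral_iff.1 hx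
    exact ⟨(n : Qu ℤ), by simp⟩
  · exact (AddSubgroup.fg_iff _).2 ⟨_, arith_span_int.symm, Set.toFinite _⟩
  · intro g
    rw [cover_map neg_one_mem_G1, mem_G1]
    constructor
    · rintro ⟨x, hx, hg⟩
      refine ⟨arithE x, ⟨x, rfl⟩, ?_, ?_⟩
      · rw [arith_mul_star, hx]; simp
      · rw [RingHom.comp_apply, arith_rho, hg]
    · rintro ⟨_, ⟨x, rfl⟩, hx, hg⟩
      refine ⟨x, ?_, ?_⟩
      · rw [arith_mul_star] at hx
        have h1 := congrArg QuaternionAlgebra.re hx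
        simp only [QuaternionAlgebra.re_smul, QuaternionAlgebra.re_one, smul_eq_mul, mul_one] at h1
        exact_mod_cast h1
      · rw [← hg, RingHom.comp_apply, arith_rho]
  · constructor <;> rw [Subgroup.relIndex_map_map, QuotientGroup.ker_mk',
      sup_eq_left.2 (arith_center_le neg_one_mem_G0),
      sup_eq_left.2 (arith_center_le neg_one_mem_G1)]
    · exact relIndex_G0_ne_zero
    · rw [Subgroup.relIndex_eq_one.2 G0_le_G1]; exact one_ne_zero

end Pool.Agent.P.MP_7a2702_mp
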