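import Pool.Agent.P.MP_7a2702_mp.Defs

/-!
Point pair invariants `q ^ s` on the upper half-plane, the averaging operators and the
auxiliary definitions of the proof.
-/

set_option autoImplicit false

open scoped MatrixGroups UpperHalfPlane ENNReal ComplexConjugate
open MeasureTheory Filter Topology

namespace Pool.Agent.P.MP_7a2702_mp

/-- The point pair invariant `cosh (d / 2) ^ (-2)`. -/
noncomputable def q (z w : ℍ) : ℝ := (Real.cosh (dist z w / 2))⁻¹ ^ 2

/-- The integral operator with kernel `q ^ s`. -/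
noncomputable def avg (s : ℕ) (f : ℍ → ℝ) (z : ℍ) : ℝ := ∫ w, q z w ^ s * f w

/-- The total mass of the kernel `q ^ s`. -/
noncomputable def mass (s : ℕ) : ℝ := ∫ w, q UpperHalfPlane.I w ^ s

/-- Bounded continuous functions. -/
def BC (f : ℍ → ℝ) : Prop := Continuous f ∧ ∃ M : ℝ, ∀ z, |f z| ≤ M

/-- Invariant functions. -/
def Inv (G : Subgroup SL(2, ℝ)) (f : ℍ → ℝ) : Prop := ∀ g ∈ G, ∀ z : ℍ, f (g • z) = f z

/-- Discrete cocompact subgroups. -/
structure Cocpt (G : Subgroup SL(2, ℝ)) : Prop where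
  disc : DiscreteTopology G
  cov : ∃ R : ℝ, ∀ z : ℍ, ∃ g ∈ G, dist (g • z) UpperHalfPlane.I ≤ R

/-- Finite products approximating the inverse of the Selberg transform of `q ^ s`. -/
noncomputable def selP (s M : ℕ) (μ : ℝ) : ℝ :=
  ∏ m ∈ Finset.Ico s M, (1 + μ / ((m : ℝ) * ((m : ℝ) - 1)))

/-- The normalised Selberg transform of `q ^ s` (meaningful for `0 ≤ μ`, `2 ≤ s`). -/
noncomputable def sel (s : ℕ) (μ : ℝ) : ℝ := (⨆ M : ℕ, selP s M μ)⁻¹

/-- A finite measure with bounded support which unfolds to the hyperbolic area. -/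
structure Unf (G : Subgroup SL(2, ℝ)) where
  ν : Measure ℍ
  fin : IsFiniteMeasure ν
  R : ℝ
  supp : ν (Metric.closedBall UpperHalfPlane.I R)ᶜ = 0
  unfold : ∀ F : ℍ → ℝ≥0∞, Measurable F →
    ∫⁻ z, F z = ∫⁻ z, ∑' γ : G, F ((γ : SL(2, ℝ)) • z) ∂ν

instance {G : Subgroup SL(2, ℝ)} (U : Unf G) : IsFiniteMeasure U.ν := U.fin

/-- The automorphic kernel. -/
noncomputable def kern (G : Subgroup SL(2, ℝ)) (s : ℕ) (z w : ℍ) : ℝ :=
  ∑' γ : G, q z ((γ : SL(2, ℝ)) • w) ^ s

/-- The multiplicity of the eigenvalue `μ` (real valued eigenfunctions). -/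
noncomputable def mult (G : Subgroup SL(2, ℝ)) (μ : ℝ) : ℕ :=
  Module.finrank ℝ (eigenSpace ℝ G μ)

/-- An orthonormal basis (for the measure `U.ν`) of every eigenspace. -/
structure EigBasis {G : Subgroup SL(2, ℝ)} (U : Unf G) where
  e : (μ : ℝ) → Fin (mult G μ) → ℍ → ℝ
  mem : ∀ μ i, e μ i ∈ eigenSpace ℝ G μ
  on : ∀ μ i j, ∫ z, e μ i z * e μ j z ∂U.ν = if i = j then 1 else 0
  span : ∀ μ, ∀ f ∈ eigenSpace ℝ G μ, f ∈ Submodule.span ℝ (Set.range (e μ))

theorem mem_eigenSpace {G : Subgroup SL(2, ℝ)} {μ : ℝ} {f : ℍ → ℝ} :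
    f ∈ eigenSpace ℝ G μ ↔ Smooth f ∧ Inv G f ∧ ∀ z, hypLaplacian f z = -μ * f z := by
  refine and_congr Iff.rfl (and_congr Iff.rfl (forall_congr' fun z => ?_))
  change -hypLaplacian f z = μ * f z ↔ _
  constructor <;> intro h <;> linarith

theorem q_pos (z w : ℍ) : 0 < q z w := by
  have := Real.cosh_pos (dist z w / 2)
  unfold q; positivity

theorem q_le_one (z w : ℍ) : q z w ≤ 1 :=
  pow_le_one₀ (inv_nonneg.2 (Real.cosh_pos _).le) (inv_le_one_of_one_le₀ (Real.one_le_cosh _))

theorem q_symm (z w : ℍ) : q z w = q w z := by simp [q, dist_comm]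

theorem q_smul (g : SL(2, ℝ)) (z w : ℍ) : q (g • z) (g • w) = q z w := by simp [q, dist_smul]

theorem q_smul_left (g : SL(2, ℝ)) (z w : ℍ) : q (g • z) w = q z (g⁻¹ • w) := by
  rw [← q_smul g z (g⁻¹ • w), smul_inv_smul]

theorem q_pow_le (z w : ℍ) {s t : ℕ} (h : s ≤ t) : q z w ^ t ≤ q z w ^ s :=
  pow_le_pow_of_le_one (q_pos z w).le (q_le_one z w) h

theorem continuous_q : Continuous fun p : ℍ × ℍ => q p.1 p.2 := by
  unfold q
  refine Continuous.pow (Continuous.inv₀ (by fun_prop) fun p => (Real.cosh_pos _).ne') 2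

theorem continuous_q_right (z : ℍ) : Continuous fun w => q z w := by
  unfold q
  refine Continuous.pow (Continuous.inv₀ (by fun_prop) fun p => (Real.cosh_pos _).ne') 2

theorem continuous_q_left (w : ℍ) : Continuous fun z => q z w := by
  simpa only [q_symm w] using continuous_q_right w

theorem q_eq (z w : ℍ) :
    q z w = 4 * z.im * w.im / Complex.normSq ((z : ℂ) - conj (w : ℂ)) := by
  have hz := z.im_pos
  have hw := w.im_pos
  rw [q, UpperHalfPlane.cosh_half_dist, inv_div, div_pow, mul_pow, Real.sq_sqrt (by positivity),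
    Complex.dist_eq, Complex.normSq_eq_norm_sq]
  ring

theorem q_eq' (z w : ℍ) :
    q z w = 4 * z.im * w.im / ((z.re - w.re) ^ 2 + (z.im + w.im) ^ 2) := by
  rw [q_eq, Complex.normSq_apply]
  simp only [Complex.sub_re, Complex.sub_im, Complex.conj_re, Complex.conj_im,
    UpperHalfPlane.coe_re, UpperHalfPlane.coe_im]
  ring

theorem cosh_le_exp_mul (a b : ℝ) : Real.cosh a ≤ Real.exp |a - b| * Real.cosh b := by
  have h1 : Real.exp a ≤ Real.exp |a - b| * Real.exp b := by
    rw [← Real.exp_add]; exact Real.exp_le_exp.2 (by linarith [le_abs_self (a - b)])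
  have h2 : Real.exp (-a) ≤ Real.exp |a - b| * Real.exp (-b) := by
    rw [← Real.exp_add]; exact Real.exp_le_exp.2 (by linarith [neg_abs_le (a - b)])
  rw [Real.cosh_eq, Real.cosh_eq]
  linarith

/-- Harnack type inequality. -/
theorem q_le_exp_mul (z w w' : ℍ) : q z w ≤ Real.exp (dist w w') * q z w' := by
  have h := cosh_le_exp_mul (dist z w' / 2) (dist z w / 2)
  have hd : |dist z w' / 2 - dist z w / 2| ≤ dist w w' / 2 := by
    rw [← sub_div, abs_div, abs_two]
    have := abs_dist_sub_le w' w z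
    rw [dist_comm w' z, dist_comm w z, dist_comm w' w] at this
    linarith
  have h1 := Real.cosh_pos (dist z w / 2)
  have h2 := Real.cosh_pos (dist z w' / 2)
  have h3 : Real.cosh (dist z w' / 2) ≤ Real.exp (dist w w' / 2) * Real.cosh (dist z w / 2) :=
    h.trans (mul_le_mul_of_nonneg_right (Real.exp_le_exp.2 hd) h1.le)
  have h4 : (Real.cosh (dist z w / 2))⁻¹ ≤
      Real.exp (dist w w' / 2) * (Real.cosh (dist z w' / 2))⁻¹ := by
    rw [← div_eq_mul_inv, inv_eq_one_div, div_le_div_iff₀ h1 h2]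
    linarith
  have h5 : Real.exp (dist w w') = Real.exp (dist w w' / 2) ^ 2 := by
    rw [← Real.exp_nat_mul]; congr 1; push_cast; ring
  rw [q, q, h5, ← mul_pow]
  exact pow_le_pow_left₀ (inv_nonneg.2 h1.le) h4 2

/-- The value of `q` at distance `δ`. -/
noncomputable def theta (δ : ℝ) : ℝ := (Real.cosh (δ / 2))⁻¹ ^ 2

theorem theta_pos (δ : ℝ) : 0 < theta δ := by
  have := Real.cosh_pos (δ / 2)
  unfold theta; positivity

theorem theta_lt_one {δ : ℝ} (h : 0 < δ) : theta δ < 1 :=
  pow_lt_one₀ (inv_nonneg.2 (Real.cosh_pos _).le)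
    (inv_lt_one_of_one_lt₀ (Real.one_lt_cosh.2 (by positivity))) two_ne_zero

theorem q_le_theta {δ : ℝ} (h : 0 ≤ δ) {z w : ℍ} (hd : δ ≤ dist z w) : q z w ≤ theta δ := by
  refine pow_le_pow_left₀ (inv_nonneg.2 (Real.cosh_pos _).le) ?_ 2
  refine inv_anti₀ (Real.cosh_pos _) (Real.cosh_le_cosh.2 ?_)
  rw [abs_of_nonneg (by positivity), abs_of_nonneg (by positivity)]
  linarith

theorem theta_le_q {δ : ℝ} {z w : ℍ} (hd : dist z w ≤ δ) : theta δ ≤ q z w := by
  have h0 : 0 ≤ dist z w := dist_nonneg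
  refine pow_le_pow_left₀ (inv_nonneg.2 (Real.cosh_pos _).le) ?_ 2
  refine inv_anti₀ (Real.cosh_pos _) (Real.cosh_le_cosh.2 ?_)
  rw [abs_of_nonneg (by positivity), abs_of_nonneg (by linarith)]
  linarith

theorem measurePreserving_sl (g : SL(2, ℝ)) :
    MeasurePreserving (fun z : ℍ => g • z) volume volume :=
  measurePreserving_smul (Matrix.SpecialLinearGroup.mapGL ℝ g : GL (Fin 2) ℝ) (volume : Measure ℍ)

theorem measurableEmbedding_sl (g : SL(2, ℝ)) : MeasurableEmbedding fun z : ℍ => g • z :=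
  (Homeomorph.smul g).measurableEmbedding

theorem integral_sl (g : SL(2, ℝ)) (F : ℍ → ℝ) : ∫ z, F (g • z) = ∫ z, F z :=
  (measurePreserving_sl g).integral_comp (measurableEmbedding_sl g) F

theorem lintegral_sl (g : SL(2, ℝ)) (F : ℍ → ℝ≥0∞) : ∫⁻ z, F (g • z) = ∫⁻ z, F z :=
  (measurePreserving_sl g).lintegral_comp_emb (measurableEmbedding_sl g) F

theorem integrable_sl (g : SL(2, ℝ)) {F : ℍ → ℝ} :
    Integrable (fun z => F (g • z)) ↔ Integrable F :=
  (measurePreserving_sl g).integrable_comp_emb (measurableEmbedding_sl g)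

theorem measurePreserving_coe : MeasurePreserving UpperHalfPlane.coe
    ((volume : Measure ℂ).comap UpperHalfPlane.coe) (volume.restrict {w : ℂ | 0 < w.im}) := by
  have h : Set.range UpperHalfPlane.coe = {w : ℂ | 0 < w.im} := by
    ext w
    exact ⟨fun ⟨z, hz⟩ => hz ▸ z.im_pos, fun hw => ⟨⟨w, hw⟩, rfl⟩⟩
  exact ⟨UpperHalfPlane.measurable_coe, by
    rw [UpperHalfPlane.measurableEmbedding_coe.map_comap, h]⟩

theorem measurable_density :
    Measurable fun z : ℍ => (1 / NNReal.mk z.im z.im_pos.le : NNReal) ^ 2 := by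
  refine Continuous.measurable (.pow (.div₀ continuous_const ?_ ?_) _)
  · exact UpperHalfPlane.continuous_im.subtype_mk _
  · exact fun x ↦ NNReal.ne_iff.mp x.im_ne_zero

/-- The hyperbolic integral as a Euclidean integral over the half-plane. -/
theorem integral_eq_setIntegral {E : Type} [NormedAddCommGroup E] [NormedSpace ℝ E] (F : ℍ → E) :
    ∫ z, F z = ∫ w in {w : ℂ | 0 < w.im}, (w.im ^ 2)⁻¹ • F (UpperHalfPlane.ofComplex w) := by
  rw [UpperHalfPlane.volume_def, integral_withDensity_eq_integral_smul measurable_density,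
    ← measurePreserving_coe.integral_comp UpperHalfPlane.measurableEmbedding_coe]
  refine integral_congr_ae (Eventually.of_forall fun z => ?_)
  simp [NNReal.smul_def]

theorem integrable_iff_integrableOn {E : Type} [NormedAddCommGroup E] [NormedSpace ℝ E]
    (F : ℍ → E) : Integrable F ↔
      IntegrableOn (fun w : ℂ => (w.im ^ 2)⁻¹ • F (UpperHalfPlane.ofComplex w))
        {w : ℂ | 0 < w.im} := by
  rw [UpperHalfPlane.volume_def, integrable_withDensity_iff_integrable_smul measurable_density,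
    IntegrableOn, ← measurePreserving_coe.integrable_comp_emb UpperHalfPlane.measurableEmbedding_coe]
  refine integrable_congr (Eventually.of_forall fun z => ?_)
  simp [NNReal.smul_def]

theorem integrable_q_two : Integrable fun w => q UpperHalfPlane.I w ^ 2 := by
  have h0 : Integrable (fun x : ℂ => ((1 : ℝ) + ‖x‖ ^ 2) ^ (-(4 : ℝ) / 2)) :=
    integrable_rpow_neg_one_add_norm_sq (by simp; norm_num)
  have h1 : Integrable (fun z : ℍ => 16 * ((1 : ℝ) + ‖(z : ℂ)‖ ^ 2) ^ (-(4 : ℝ) / 2))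
      ((volume : Measure ℂ).comap UpperHalfPlane.coe) :=
    (measurePreserving_coe.integrable_comp_emb UpperHalfPlane.measurableEmbedding_coe).2
      ((h0.const_mul 16).integrableOn)
  rw [UpperHalfPlane.volume_def, integrable_withDensity_iff_integrable_smul measurable_density]
  refine h1.mono' ?_ (Eventually.of_forall fun z => ?_)
  · exact (measurable_density.coe_nnreal_real.mul
      ((continuous_q_right _).pow 2).measurable).aestronglyMeasurable
  · have hz := z.im_pos
    have hn : ‖(z : ℂ)‖ ^ 2 = z.re ^ 2 + z.im ^ 2 := by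
      rw [← Complex.normSq_eq_norm_sq, Complex.normSq_apply]; simp [sq]
    have he : (-(4 : ℝ) / 2) = -((2 : ℕ) : ℝ) := by norm_num
    rw [he, Real.rpow_neg (by positivity), Real.rpow_natCast, hn, q_eq']
    simp only [NNReal.smul_def, NNReal.coe_pow, NNReal.coe_div, NNReal.coe_one, NNReal.coe_mk,
      smul_eq_mul, UpperHalfPlane.I_im, UpperHalfPlane.I_re, Real.norm_eq_abs]
    rw [abs_of_nonneg (by positivity)]
    have h2 : (1 / z.im) ^ 2 * (4 * 1 * z.im / ((0 - z.re) ^ 2 + (1 + z.im) ^ 2)) ^ 2 =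
        16 * (((0 - z.re) ^ 2 + (1 + z.im) ^ 2) ^ 2)⁻¹ := by
      field_simp; ring
    rw [h2]
    refine mul_le_mul_of_nonneg_left (inv_anti₀ (by positivity)
      (pow_le_pow_left₀ (by positivity) (by nlinarith) 2)) (by norm_num)

theorem integrable_q_pow {s : ℕ} (hs : 2 ≤ s) (z : ℍ) : Integrable fun w => q z w ^ s := by
  have h : Integrable fun w => q UpperHalfPlane.I w ^ s :=
    integrable_q_two.mono' ((continuous_q_right _).pow s).aestronglyMeasurable
      (Eventually.of_forall fun w => by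
        rw [Real.norm_eq_abs, abs_of_nonneg (pow_nonneg (q_pos _ _).le _)]
        exact q_pow_le _ _ hs)
  rw [← integrable_sl z.toSL2R]
  refine h.congr (Eventually.of_forall fun w => ?_)
  have := q_smul z.toSL2R UpperHalfPlane.I w
  rw [UpperHalfPlane.toSL2R_smul_I] at this
  simp only [this]

theorem integral_q_pow (s : ℕ) (z : ℍ) : ∫ w, q z w ^ s = mass s := by
  rw [← integral_sl z.toSL2R, mass]
  refine integral_congr_ae (Eventually.of_forall fun w => ?_)
  have := q_smul z.toSL2R UpperHalfPlane.I w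
  rw [UpperHalfPlane.toSL2R_smul_I] at this
  simp only [this]

theorem volume_univ_ne_zero : (volume : Measure ℍ) Set.univ ≠ 0 := by
  intro h
  rw [UpperHalfPlane.volume_def, withDensity_apply_eq_zero (by exact_mod_cast
    measurable_density.coe_nnreal_ennreal)] at h
  have h1 : {z : ℍ | (((1 / NNReal.mk z.im z.im_pos.le : NNReal) ^ 2 : NNReal) : ℝ≥0∞) ≠ 0} ∩
      Set.univ = Set.univ := by
    ext z
    have : NNReal.mk z.im z.im_pos.le ≠ 0 := NNReal.ne_iff.mp z.im_ne_zero
    simp only [Set.inter_univ, Set.mem_setOf_eq, Set.mem_univ, iff_true, ne_eq, ENNReal.coe_eq_zero]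
    exact pow_ne_zero _ (one_div_ne_zero this)
  rw [h1] at h
  have h2 := measurePreserving_coe.measure_preimage (s := Set.univ) MeasurableSet.univ.nullMeasurableSet
  rw [Set.preimage_univ, h, Measure.restrict_apply_univ] at h2
  exact ((isOpen_lt continuous_const Complex.continuous_im).measure_pos volume
    ⟨Complex.I, by simp⟩).ne h2

theorem mass_pos {s : ℕ} (hs : 2 ≤ s) : 0 < mass s := by
  rw [mass, integral_pos_iff_support_of_nonneg (fun w => pow_nonneg (q_pos _ w).le s)
    (integrable_q_pow hs _)]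
  have : (Function.support fun w => q UpperHalfPlane.I w ^ s) = Set.univ :=
    Set.eq_univ_of_forall fun w => (pow_pos (q_pos _ w) s).ne'
  rw [this]
  exact pos_iff_ne_zero.2 volume_univ_ne_zero

theorem BC.integrable_avg {f : ℍ → ℝ} (hf : BC f) {s : ℕ} (hs : 2 ≤ s) (z : ℍ) :
    Integrable fun w => q z w ^ s * f w := by
  obtain ⟨hc, M, hM⟩ := hf
  exact (integrable_q_pow hs z).mul_bdd hc.aestronglyMeasurable
    (Eventually.of_forall fun w => by simpa using hM w)

theorem abs_avg_le {f : ℍ → ℝ} {M : ℝ} (hM : ∀ z, |f z| ≤ M) {s : ℕ} (hs : 2 ≤ s) (z : ℍ) :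
    |avg s f z| ≤ M * mass s := by
  rw [← integral_q_pow s z, ← integral_const_mul, avg, ← Real.norm_eq_abs]
  refine norm_integral_le_of_norm_le ((integrable_q_pow hs z).const_mul M)
    (Eventually.of_forall fun w => ?_)
  rw [Real.norm_eq_abs, abs_mul, abs_of_nonneg (pow_nonneg (q_pos _ _).le _), mul_comm]
  exact mul_le_mul_of_nonneg_right (hM w) (pow_nonneg (q_pos _ _).le _)

theorem avg_smul (s : ℕ) (f : ℍ → ℝ) (g : SL(2, ℝ)) (z : ℍ) :
    avg s (fun w => f (g • w)) z = avg s f (g • z) := by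
  rw [avg, avg, ← integral_sl g fun w => q (g • z) w ^ s * f w]
  simp only [q_smul]

theorem Inv.avg {G : Subgroup SL(2, ℝ)} {f : ℍ → ℝ} (hf : Inv G f) (s : ℕ) :
    Inv G (avg s f) := fun g hg z => by
  rw [← avg_smul]
  simp only [hf g hg]

theorem avg_one (s : ℕ) (z : ℍ) : avg s (fun _ => 1) z = mass s := by
  simp [avg, integral_q_pow]

theorem Smooth.continuous {E : Type} [NormedAddCommGroup E] [NormedSpace ℝ E] {f : ℍ → E}
    (hf : Smooth f) : Continuous f := by
  refine continuous_iff_continuousAt.2 fun z => ?_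
  have h := (hf.contDiffAt z).continuousAt.comp (UpperHalfPlane.continuous_coe.continuousAt (x := z))
  refine h.congr (Eventually.of_forall fun w => ?_)
  simp

theorem Cocpt.countable {G : Subgroup SL(2, ℝ)} (hG : Cocpt G) : Countable G := by
  have := hG.disc
  have : SecondCountableTopology (Matrix (Fin 2) (Fin 2) ℝ) :=
    inferInstanceAs (SecondCountableTopology (Fin 2 → Fin 2 → ℝ))
  have : SecondCountableTopology SL(2, ℝ) :=
    Matrix.SpecialLinearGroup.isClosedEmbedding_val.isEmbedding.secondCountableTopology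
  exact TopologicalSpace.separableSpace_iff_countable.1 inferInstance

theorem Cocpt.finite_ball {G : Subgroup SL(2, ℝ)} (hG : Cocpt G) (z w : ℍ) (r : ℝ) :
    {γ : G | dist ((γ : SL(2, ℝ)) • z) w ≤ r}.Finite := by
  have := hG.disc
  refine (ProperlyDiscontinuousSMul.finite_disjoint_inter_image (Γ := G)
    (isCompact_singleton (x := z)) (isCompact_closedBall w r)).subset fun γ hγ => ?_
  exact ⟨(γ : SL(2, ℝ)) • z, ⟨z, rfl, rfl⟩, hγ⟩

/-- Continuous invariant functions are bounded. -/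
theorem Cocpt.bc {G : Subgroup SL(2, ℝ)} (hG : Cocpt G) {f : ℍ → ℝ} (hc : Continuous f)
    (hf : Inv G f) : BC f := by
  obtain ⟨R, hR⟩ := hG.cov
  obtain ⟨M, hM⟩ := (isCompact_closedBall UpperHalfPlane.I R).exists_bound_of_continuousOn
    hc.continuousOn
  refine ⟨hc, M, fun z => ?_⟩
  obtain ⟨g, hg, hz⟩ := hR z
  rw [← hf g hg z]
  exact hM _ hz

theorem Cocpt.bc_of_mem {G : Subgroup SL(2, ℝ)} (hG : Cocpt G) {μ : ℝ} {f : ℍ → ℝ}
    (hf : f ∈ eigenSpace ℝ G μ) : BC f :=
  hG.bc (mem_eigenSpace.1 hf).1.continuous (mem_eigenSpace.1 hf).2.1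

end Pool.Agent.P.MP_7a2702_mp
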