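import Pool.Agent.P.MP_7a2702_mp.Bessel

set_option autoImplicit false

open scoped MatrixGroups UpperHalfPlane ENNReal ComplexConjugate ContDiff
open MeasureTheory Filter Topology

namespace Pool.Agent.P.MP_7a2702_mp

variable {G : Subgroup SL(2, ℝ)}

/-- A positive definite symmetric form on a finite dimensional space has an orthonormal basis. -/
theorem basisAux_on (V : Type) [AddCommGroup V] [Module ℝ V] [FiniteDimensional ℝ V]
    (B : V → V → ℝ) (h1 : ∀ x y, B y x = B x y) (h2 : ∀ x y z, B (x + y) z = B x z + B y z)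
    (h3 : ∀ (r : ℝ) x y, B (r • x) y = r * B x y) (h4 : ∀ x, 0 ≤ B x x)
    (h5 : ∀ x, B x x = 0 → x = 0) :
    ∃ e : Module.Basis (Fin (Module.finrank ℝ V)) ℝ V,
      ∀ i j, B (e i) (e j) = if i = j then 1 else 0 := by
  let c : InnerProductSpace.Core ℝ V :=
    { inner := B
      conj_inner_symm := fun x y => by simpa using h1 x y
      re_inner_nonneg := fun x => by simpa using h4 x
      add_left := h2
      smul_left := fun x y r => by simpa using h3 r x y
      definite := h5 }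
  letI : NormedAddCommGroup V := @InnerProductSpace.Core.toNormedAddCommGroup ℝ V _ _ _ c
  letI : InnerProductSpace ℝ V := InnerProductSpace.ofCore c.toCore
  refine ⟨(stdOrthonormalBasis ℝ V).toBasis, fun i j => ?_⟩
  have := orthonormal_iff_ite.1 (stdOrthonormalBasis ℝ V).orthonormal i j
  rw [OrthonormalBasis.coe_toBasis]
  exact this

theorem basisAux_integrable (U : Unf G) {f g : ℍ → ℝ} (hf : BC f) (hg : BC g) :
    Integrable (fun z => f z * g z) U.ν := by
  obtain ⟨cf, M, hM⟩ := hf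
  obtain ⟨cg, N, hN⟩ := hg
  refine Integrable.of_bound (cf.mul cg).aestronglyMeasurable (M * N)
    (Eventually.of_forall fun z => ?_)
  rw [Real.norm_eq_abs, abs_mul]
  exact mul_le_mul (hM z) (hN z) (abs_nonneg _) ((abs_nonneg _).trans (hM z))

/-- Orthonormal bases of finite dimensional spaces of eigenfunctions. -/
theorem basisAux_sub (hG : Cocpt G) (U : Unf G) (μ : ℝ) (W : Submodule ℝ (ℍ → ℝ))
    (hW : W ≤ eigenSpace ℝ G μ) [FiniteDimensional ℝ W] :
    ∃ e : Fin (Module.finrank ℝ W) → ℍ → ℝ, (∀ i, e i ∈ W) ∧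
      (∀ i j, ∫ z, e i z * e j z ∂U.ν = if i = j then 1 else 0) ∧
      ∀ f ∈ W, f ∈ Submodule.span ℝ (Set.range e) := by
  obtain ⟨e, he⟩ := basisAux_on W (fun f g => ∫ z, f.1 z * g.1 z ∂U.ν)
    (fun f g => by simp only [mul_comm])
    (fun f g h => by
      rw [← integral_add (basisAux_integrable U (hG.bc_of_mem (hW f.2)) (hG.bc_of_mem (hW h.2)))
        (basisAux_integrable U (hG.bc_of_mem (hW g.2)) (hG.bc_of_mem (hW h.2)))]
      simp only [Submodule.coe_add, Pi.add_apply, add_mul])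
    (fun r f g => by
      rw [← integral_const_mul]
      simp only [Submodule.coe_smul, Pi.smul_apply, smul_eq_mul, mul_assoc])
    (fun f => integral_nonneg fun z => mul_self_nonneg _)
    (fun f hf => Subtype.ext (eq_zero_of_integral_sq hG U (hG.bc_of_mem (hW f.2))
      (mem_eigenSpace.1 (hW f.2)).2.1 hf))
  refine ⟨fun i => (e i).1, fun i => (e i).2, he, fun f hf => ?_⟩
  have h : (⟨f, hf⟩ : W) ∈ Submodule.span ℝ (Set.range e) := by
    rw [e.span_eq]
    exact Submodule.mem_top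
  have h' := Submodule.mem_map_of_mem (f := W.subtype) h
  rw [Submodule.map_span, ← Set.range_comp] at h'
  exact h'

theorem basisAux_bot (hG : Cocpt G) {μ : ℝ} (hμ : μ < 0) : eigenSpace ℝ G μ = ⊥ := by
  refine (Submodule.eq_bot_iff _).2 fun f hf => ?_
  exact eq_zero_of_neg (mem_eigenSpace.1 hf).1 (hG.bc_of_mem hf) hμ (mem_eigenSpace.1 hf).2.2

theorem finiteDimensional_eigenSpace (hG : Cocpt G) (U : Unf G) (μ : ℝ) :
    FiniteDimensional ℝ (eigenSpace ℝ G μ) := by
  rcases lt_or_ge μ 0 with hμ | hμ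
  · rw [basisAux_bot hG hμ]
    infer_instance
  obtain ⟨C, hC⟩ := bessel_sum hG U
  have hs : 0 < sel 3 μ := sel_pos (by norm_num) hμ
  obtain ⟨n, hn⟩ := exists_nat_ge (C * (3 : ℕ) / sel 3 μ ^ 2)
  have h : Module.rank ℝ (eigenSpace ℝ G μ) ≤ n := by
    refine rank_le fun s hs' => ?_
    have li : LinearIndependent ℝ fun i : s => ((i : eigenSpace ℝ G μ) : ℍ → ℝ) :=
      hs'.map' (eigenSpace ℝ G μ).subtype (Submodule.ker_subtype _)
    let W := Submodule.span ℝ (Set.range fun i : s => ((i : eigenSpace ℝ G μ) : ℍ → ℝ))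
    have hW : W ≤ eigenSpace ℝ G μ := by
      refine Submodule.span_le.2 ?_
      rintro _ ⟨i, rfl⟩
      exact (i : eigenSpace ℝ G μ).2
    have : FiniteDimensional ℝ W := FiniteDimensional.span_of_finite ℝ (Set.finite_range _)
    have hr : Module.finrank ℝ W = s.card := by
      rw [finrank_span_eq_card li, Fintype.card_coe]
    obtain ⟨e, e1, e2, -⟩ := basisAux_sub hG U μ W hW
    have h1 := hC 3 le_rfl _ e (fun _ => μ) (fun i => hW (e1 i)) e2
    rw [Finset.sum_const, Finset.card_univ, Fintype.card_fin, nsmul_eq_mul, hr,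
      ← le_div_iff₀ (by positivity)] at h1
    exact_mod_cast h1.trans hn
  exact Module.rank_lt_aleph0_iff.1 (h.trans_lt Cardinal.natCast_lt_aleph0)

theorem mult_neg (hG : Cocpt G) {μ : ℝ} (hμ : μ < 0) : mult G μ = 0 := by
  rw [mult, basisAux_bot hG hμ, finrank_bot]

theorem nonempty_eigBasis (hG : Cocpt G) (U : Unf G) : Nonempty (EigBasis U) := by
  have h := fun μ : ℝ => @basisAux_sub G hG U μ (eigenSpace ℝ G μ) le_rfl
    (finiteDimensional_eigenSpace hG U μ)
  choose e e1 e2 e3 using h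
  exact ⟨⟨e, e1, e2, e3⟩⟩

theorem upper (hG : Cocpt G) (U : Unf G) :
    ∃ C : ℝ, ∀ s : ℕ, 3 ≤ s → ∀ F : Finset ℝ,
      ∑ μ ∈ F, (mult G μ : ℝ) * sel s μ ^ 2 ≤ C * s := by
  classical
  obtain ⟨C, hC⟩ := bessel_sum hG U
  obtain ⟨B⟩ := nonempty_eigBasis hG U
  refine ⟨C, fun s hs F => ?_⟩
  have h := hC s hs (Σ μ : F, Fin (mult G μ)) (fun p => B.e p.1 p.2) (fun p => p.1)
    (fun p => B.mem _ _) (by
      rintro ⟨μ, i⟩ ⟨μ', j⟩
      by_cases hμ : μ = μ'
      · subst hμ
        rw [B.on]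
        simp
      · rw [if_neg fun h => hμ (congrArg Sigma.fst h)]
        exact integral_mul_eq_zero_of_ne hG U (B.mem _ _) (B.mem _ _)
          fun h => hμ (Subtype.ext h))
  rw [Fintype.sum_sigma] at h
  simp only [Finset.sum_const, Finset.card_univ, Fintype.card_fin, nsmul_eq_mul] at h
  rw [← Finset.sum_coe_sort F]
  exact h

end Pool.Agent.P.MP_7a2702_mp
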