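import Pool.Agent.P.MP_7a2702_mp.Kern
import Pool.Agent.P.MP_7a2702_mp.Approx

set_option autoImplicit false

open scoped MatrixGroups UpperHalfPlane ENNReal ComplexConjugate ContDiff
open MeasureTheory Filter Topology

namespace Pool.Agent.P.MP_7a2702_mp

variable {G : Subgroup SL(2, ℝ)}

theorem besselAux_mul {f g : ℍ → ℝ} (hf : BC f) (hg : BC g) : BC fun z => f z * g z := by
  obtain ⟨hc, M, hM⟩ := hf
  obtain ⟨hc', M', hM'⟩ := hg
  refine ⟨hc.mul hc', M * M', fun z => ?_⟩
  rw [abs_mul]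
  exact mul_le_mul (hM z) (hM' z) (abs_nonneg _) ((abs_nonneg _).trans (hM z))

theorem besselAux_int (U : Unf G) {f : ℍ → ℝ} (hf : BC f) : Integrable f U.ν := by
  obtain ⟨hc, M, hM⟩ := hf
  exact Integrable.of_bound hc.aestronglyMeasurable M (Eventually.of_forall hM)

theorem besselAux_symm (hG : Cocpt G) (U : Unf G) {s : ℕ} (hs : 2 ≤ s) {f g : ℍ → ℝ} (hf : BC f)
    (hi : Inv G f) (hg : BC g) (hj : Inv G g) :
    ∫ z, avg s f z * g z ∂U.ν = ∫ z, f z * avg s g z ∂U.ν := by
  obtain ⟨M, hM0, hM⟩ := exists_kern_le hG U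
  have hint : Integrable (Function.uncurry fun z w => kern G s z w * f w * g z) (U.ν.prod U.ν) := by
    obtain ⟨hc, A, hA⟩ := hf
    obtain ⟨hc', B, hB⟩ := hg
    refine Integrable.of_bound (Continuous.aestronglyMeasurable
      (((continuous_kern hG U hs).mul (hc.comp continuous_snd)).mul (hc'.comp continuous_fst)))
      (M * A * B) (Eventually.of_forall fun p => ?_)
    have hA0 : 0 ≤ A := (abs_nonneg _).trans (hA p.1)
    simp only [Function.uncurry, Real.norm_eq_abs, abs_mul]
    rw [abs_of_nonneg (kern_nonneg _ _ _)]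
    exact mul_le_mul (mul_le_mul (hM s hs _ _) (hA _) (abs_nonneg _) hM0.le) (hB _) (abs_nonneg _)
      (by positivity)
  calc ∫ z, avg s f z * g z ∂U.ν = ∫ z, ∫ w, kern G s z w * f w * g z ∂U.ν ∂U.ν := by
        refine integral_congr_ae (Eventually.of_forall fun z => ?_)
        simp only
        rw [integral_mul_const, integral_kern_mul hG U hs hf hi]
    _ = ∫ w, ∫ z, kern G s z w * f w * g z ∂U.ν ∂U.ν := integral_integral_swap hint
    _ = _ := by
        refine integral_congr_ae (Eventually.of_forall fun w => ?_)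
        simp only
        rw [← integral_kern_mul hG U hs hg hj, ← integral_const_mul]
        refine integral_congr_ae (Eventually.of_forall fun z => ?_)
        simp only
        rw [kern_symm s z w]
        ring

theorem integral_mul_eq_zero_of_ne (hG : Cocpt G) (U : Unf G) {μ μ' : ℝ} {f g : ℍ → ℝ}
    (hf : f ∈ eigenSpace ℝ G μ) (hg : g ∈ eigenSpace ℝ G μ') (h : μ ≠ μ') :
    ∫ z, f z * g z ∂U.ν = 0 := by
  have bf := hG.bc_of_mem hf
  have bg := hG.bc_of_mem hg
  obtain ⟨f1, f2, f3⟩ := mem_eigenSpace.1 hf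
  obtain ⟨g1, g2, g3⟩ := mem_eigenSpace.1 hg
  rcases lt_or_ge μ 0 with hμ | hμ
  · simp [eq_zero_of_neg f1 bf hμ f3]
  rcases lt_or_ge μ' 0 with hμ' | hμ'
  · simp [eq_zero_of_neg g1 bg hμ' g3]
  have e3 := besselAux_symm hG U (s := 3) (by norm_num) bf f2 bg g2
  have e4 := besselAux_symm hG U (s := 3 + 1) (by norm_num) bf f2 bg g2
  have a3 := avg_eigen f1 bf hμ f3 le_rfl
  have b3 := avg_eigen g1 bg hμ' g3 le_rfl
  have a4 : ∀ z, avg (3 + 1) f z = (6 + μ) / 9 * (mass 3 * sel 3 μ) * f z := fun z => by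
    have := avg_succ_eigen f1 bf f3 le_rfl z
    rw [a3] at this
    push_cast at this
    linarith
  have b4 : ∀ z, avg (3 + 1) g z = (6 + μ') / 9 * (mass 3 * sel 3 μ') * g z := fun z => by
    have := avg_succ_eigen g1 bg g3 le_rfl z
    rw [b3] at this
    push_cast at this
    linarith
  have l : ∀ c : ℝ, ∫ z, c * f z * g z ∂U.ν = c * ∫ z, f z * g z ∂U.ν := fun c => by
    simp only [mul_assoc c, integral_const_mul]
  have r : ∀ c : ℝ, ∫ z, f z * (c * g z) ∂U.ν = c * ∫ z, f z * g z ∂U.ν := fun c => by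
    simp only [mul_left_comm _ c, integral_const_mul]
  simp only [a3, b3, l, r] at e3
  simp only [a4, b4, l, r] at e4
  have h1 : (μ - μ') * (mass 3 * sel 3 μ * ∫ z, f z * g z ∂U.ν) = 0 := by
    linear_combination 9 * e4 - (6 + μ') * e3
  have h2 := (mul_eq_zero.1 h1).resolve_left (sub_ne_zero.2 h)
  exact (mul_eq_zero.1 h2).resolve_left
    (mul_pos (mass_pos (by norm_num)) (sel_pos (by norm_num) hμ)).ne'

theorem eq_zero_of_integral_sq (hG : Cocpt G) (U : Unf G) {f : ℍ → ℝ} (hf : BC f) (hi : Inv G f)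
    (h : ∫ z, f z * f z ∂U.ν = 0) : f = 0 := by
  have h1 := (integral_eq_zero_iff_of_nonneg (fun z => mul_self_nonneg (f z))
    (besselAux_int U (besselAux_mul hf hf))).1 h
  funext z
  refine tendsto_nhds_unique (tendsto_avg hf z) (tendsto_const_nhds.congr' ?_)
  filter_upwards [eventually_ge_atTop 2] with s hs
  rw [← integral_kern_mul hG U hs hf hi, integral_eq_zero_of_ae]
  · simp
  · filter_upwards [h1] with w hw
    simp [mul_self_eq_zero.1 hw]

theorem besselAux_point (U : Unf G) {ι : Type} [Fintype ι] [DecidableEq ι] {f : ι → ℍ → ℝ}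
    (hf : ∀ i, BC (f i)) (ho : ∀ i j, ∫ z, f i z * f j z ∂U.ν = if i = j then 1 else 0)
    {K : ℍ → ℝ} (hK : BC K) :
    ∑ i, (∫ w, K w * f i w ∂U.ν) ^ 2 ≤ ∫ w, K w * K w ∂U.ν := by
  set c : ι → ℝ := fun i => ∫ w, K w * f i w ∂U.ν with hc
  have h0 : 0 ≤ ∫ w, (K w - ∑ i, c i * f i w) ^ 2 ∂U.ν := integral_nonneg fun w => sq_nonneg _
  have e : ∀ w, (K w - ∑ i, c i * f i w) ^ 2 = K w * K w - 2 * ∑ i, c i * (K w * f i w) +
      ∑ i, ∑ j, c i * c j * (f i w * f j w) := fun w => by
    have h1 : ∑ i, c i * (K w * f i w) = K w * ∑ i, c i * f i w := by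
      rw [Finset.mul_sum]; exact Finset.sum_congr rfl fun i _ => by ring
    have h2 : ∑ i, ∑ j, c i * c j * (f i w * f j w) = (∑ i, c i * f i w) * ∑ i, c i * f i w := by
      rw [Finset.sum_mul_sum]
      exact Finset.sum_congr rfl fun i _ => Finset.sum_congr rfl fun j _ => by ring
    rw [h1, h2]; ring
  have i1 := besselAux_int U (besselAux_mul hK hK)
  have i2 : ∀ i, Integrable (fun w => c i * (K w * f i w)) U.ν := fun i =>
    (besselAux_int U (besselAux_mul hK (hf i))).const_mul _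
  have i3 : ∀ i j, Integrable (fun w => c i * c j * (f i w * f j w)) U.ν := fun i j =>
    (besselAux_int U (besselAux_mul (hf i) (hf j))).const_mul _
  have i4 : Integrable (fun w => 2 * ∑ i, c i * (K w * f i w)) U.ν :=
    (integrable_finsetSum _ fun i _ => i2 i).const_mul _
  have i5 : ∀ i, Integrable (fun w => ∑ j, c i * c j * (f i w * f j w)) U.ν := fun i =>
    integrable_finsetSum _ fun j _ => i3 i j
  have i6 : Integrable (fun w => K w * K w - 2 * ∑ i, c i * (K w * f i w)) U.ν := i1.sub i4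
  simp only [e] at h0
  rw [integral_add i6 (integrable_finsetSum _ fun i _ => i5 i), integral_sub i1 i4,
    integral_const_mul, integral_finsetSum _ fun i _ => i2 i,
    integral_finsetSum _ fun i _ => i5 i] at h0
  have h3 : ∀ i, ∫ w, ∑ j, c i * c j * (f i w * f j w) ∂U.ν = c i ^ 2 := fun i => by
    rw [integral_finsetSum _ fun j _ => i3 i j]
    simp only [integral_const_mul, ho]
    simp [sq]
  have h4 : ∀ i, ∫ w, c i * (K w * f i w) ∂U.ν = c i ^ 2 := fun i => by
    rw [integral_const_mul, sq]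
  simp only [h3, h4] at h0
  change ∑ i, c i ^ 2 ≤ _
  linarith

theorem bessel_sum (hG : Cocpt G) (U : Unf G) :
    ∃ C : ℝ, ∀ s : ℕ, 3 ≤ s → ∀ (ι : Type) [Fintype ι] [DecidableEq ι] (f : ι → ℍ → ℝ)
      (μ : ι → ℝ), (∀ i, f i ∈ eigenSpace ℝ G (μ i)) →
        (∀ i j, ∫ z, f i z * f j z ∂U.ν = if i = j then 1 else 0) →
          ∑ i, sel s (μ i) ^ 2 ≤ C * s := by
  obtain ⟨M, hM0, hM⟩ := exists_kern_le hG U
  refine ⟨M * U.ν.real Set.univ / mass 2, fun s hs ι _ _ f μ hf ho => ?_⟩
  have hs2 : 2 ≤ s := by omega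
  have bf := fun i => hG.bc_of_mem (hf i)
  have hμ : ∀ i, 0 ≤ μ i := fun i => by
    by_contra h
    have h1 := eq_zero_of_neg (mem_eigenSpace.1 (hf i)).1 (bf i) (not_le.1 h)
      (mem_eigenSpace.1 (hf i)).2.2
    have h2 := ho i i
    simp [h1] at h2
  have hm := mass_pos hs2
  have key : ∀ z, ∑ i, (mass s * sel s (μ i)) ^ 2 * (f i z * f i z) ≤ M * mass s := fun z => by
    have bK := bc_kern hG U hs2 z
    have h1 := besselAux_point U bf ho bK
    have h2 : ∫ w, kern G s z w * kern G s z w ∂U.ν ≤ M * mass s := by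
      have b1 : BC fun _ : ℍ => (1 : ℝ) := ⟨continuous_const, 1, fun _ => by simp⟩
      rw [← avg_one s z, ← integral_kern_mul hG U hs2 b1 (fun _ _ _ => rfl), ← integral_const_mul]
      refine integral_mono (besselAux_int U (besselAux_mul bK bK))
        ((besselAux_int U (besselAux_mul bK b1)).const_mul _) fun w => ?_
      simp only [mul_one]
      exact mul_le_mul_of_nonneg_right (hM s hs2 z w) (kern_nonneg _ _ _)
    refine le_trans (le_of_eq (Finset.sum_congr rfl fun i _ => ?_)) (h1.trans h2)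
    rw [integral_kern_mul hG U hs2 (bf i) (mem_eigenSpace.1 (hf i)).2.1,
      avg_eigen (mem_eigenSpace.1 (hf i)).1 (bf i) (hμ i) (mem_eigenSpace.1 (hf i)).2.2 hs]
    ring
  have i1 : ∀ i, Integrable (fun z => (mass s * sel s (μ i)) ^ 2 * (f i z * f i z)) U.ν :=
    fun i => (besselAux_int U (besselAux_mul (bf i) (bf i))).const_mul _
  have h3 := integral_mono (integrable_finsetSum _ fun i _ => i1 i) (integrable_const _) key
  rw [integral_finsetSum _ fun i _ => i1 i, integral_const, smul_eq_mul] at h3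
  simp only [integral_const_mul, ho, if_true, mul_one, mul_pow, ← Finset.mul_sum] at h3
  have h4 : mass s * ∑ i, sel s (μ i) ^ 2 ≤ M * U.ν.real Set.univ := by
    refine le_of_mul_le_mul_left ?_ hm
    nlinarith [h3]
  have hs' : (3 : ℝ) ≤ s := by exact_mod_cast hs
  have hm2 := mass_pos (le_refl 2)
  rw [mass_eq hs2, div_mul_eq_mul_div, div_le_iff₀ (by linarith)] at h4
  rw [div_mul_eq_mul_div, le_div_iff₀ hm2]
  have h5 : 0 ≤ M * U.ν.real Set.univ := mul_nonneg hM0.le measureReal_nonneg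
  nlinarith [h4]

end Pool.Agent.P.MP_7a2702_mp
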