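import Pool.Agent.P.MP_7a2702_mp.CocptG1

set_option autoImplicit false

open scoped MatrixGroups UpperHalfPlane ENNReal ComplexConjugate ContDiff
open MeasureTheory Filter Topology

namespace Pool.Agent.P.MP_7a2702_mp

theorem cocptG0Aux_finite (n : ℕ) [NeZero n] : Finite (Qu (ZMod n)) :=
  Finite.of_equiv _ (QuaternionAlgebra.equivProd (1 : ZMod n) 1 13).symm

theorem cocptG0Aux_red {x y : Qu ℤ} (hx : nrd x = 1) {n : ℕ} (h : red n x = red n y) :
    red n (star x * y) = 1 := by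
  rw [map_mul, ← h, ← map_mul, star_mul_eq, hx, one_smul, map_one]

theorem relIndex_G0_ne_zero : G0.relIndex G1 ≠ 0 := by
  have h7 := cocptG0Aux_finite 7
  have h17 := cocptG0Aux_finite 17
  choose x hx using fun g : G1 => mem_G1.1 g.2
  have : Finite (G1 ⧸ G0.subgroupOf G1) := by
    refine Finite.of_injective (fun c : G1 ⧸ G0.subgroupOf G1 =>
      (red 7 (x c.out), red 17 (x c.out))) fun c d h => ?_
    rw [← c.out_eq, ← d.out_eq]
    refine QuotientGroup.eq.2 (Subgroup.mem_subgroupOf.2 ⟨star (x c.out) * x d.out,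
      ⟨by rw [nrd_mul, nrd_star, (hx _).1, (hx _).1, one_mul], ?_, ?_⟩, ?_⟩)
    · rw [cocptG0Aux_red (hx _).1 (congrArg Prod.fst h)]
      exact H7_one
    · rw [cocptG0Aux_red (hx _).1 (congrArg Prod.snd h)]
      exact H17_one
    · rw [map_mul, coe_inv_of_rho (hx _).1 (hx _).2, (hx _).2]
      rfl
  exact Subgroup.index_ne_zero_of_finite

theorem Cocpt.of_relIndex {G G₁ : Subgroup SL(2, ℝ)} (hG₁ : Cocpt G₁) (hle : G ≤ G₁)
    (h : G.relIndex G₁ ≠ 0) : Cocpt G := by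
  have hfin : Finite (G₁ ⧸ G.subgroupOf G₁) := Subgroup.index_ne_zero_iff_finite.1 h
  refine ⟨DiscreteTopology.of_subset (s := (G₁ : Set SL(2, ℝ))) (t := (G : Set SL(2, ℝ)))
    hG₁.disc hle, ?_⟩
  obtain ⟨R, hR⟩ := hG₁.cov
  obtain ⟨M, hM⟩ := (Set.finite_range fun c : G₁ ⧸ G.subgroupOf G₁ =>
    dist UpperHalfPlane.I (((c.out : G₁) : SL(2, ℝ)) • UpperHalfPlane.I)).bddAbove
  refine ⟨R + M, fun z => ?_⟩
  obtain ⟨g, hg, hz⟩ := hR z
  set c : G₁ ⧸ G.subgroupOf G₁ := QuotientGroup.mk ⟨g, hg⟩ with hc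
  have hmem : ((c.out : G₁) : SL(2, ℝ))⁻¹ * g ∈ G :=
    Subgroup.mem_subgroupOf.1 (QuotientGroup.eq.1 (c.out_eq'.trans hc))
  refine ⟨_, hmem, ?_⟩
  rw [← dist_smul ((c.out : G₁) : SL(2, ℝ)), mul_smul, smul_inv_smul]
  exact (dist_triangle _ UpperHalfPlane.I _).trans (add_le_add hz (hM ⟨c, rfl⟩))

theorem cocpt_G0 : Cocpt G0 := cocpt_G1.of_relIndex G0_le_G1 relIndex_G0_ne_zero

end Pool.Agent.P.MP_7a2702_mp
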