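import Mathlib

/-!
The maximal order `O = ℤ[φ] + ℤ[φ] j` (`φ ^ 2 = φ + 1`, `j ^ 2 = 13`) of the rational quaternion
algebra of discriminant 65, its real embedding, and two binary octahedral groups modulo 7 and 17.
-/

set_option autoImplicit false

open scoped MatrixGroups

namespace Pool.Agent.P.MP_7a2702_mp

/-- The order (for `R = ℤ`) and its reductions. -/
abbrev Qu (R : Type) [CommRing R] : Type := QuaternionAlgebra R 1 1 13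

/-- The reduced norm. -/
def nrd {R : Type} [CommRing R] (x : Qu R) : R :=
  x.re ^ 2 + x.re * x.imI - x.imI ^ 2 - 13 * (x.imJ ^ 2 + x.imJ * x.imK - x.imK ^ 2)

theorem mul_star_eq {R : Type} [CommRing R] (x : Qu R) : x * star x = nrd x • (1 : Qu R) := by
  ext <;> simp [nrd] <;> ring

theorem star_mul_eq {R : Type} [CommRing R] (x : Qu R) : star x * x = nrd x • (1 : Qu R) := by
  ext <;> simp [nrd] <;> ring

theorem nrd_mul {R : Type} [CommRing R] (x y : Qu R) : nrd (x * y) = nrd x * nrd y := by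
  simp [nrd]; ring

theorem nrd_star {R : Type} [CommRing R] (x : Qu R) : nrd (star x) = nrd x := by
  simp [nrd]; ring

theorem nrd_one {R : Type} [CommRing R] : nrd (1 : Qu R) = 1 := by simp [nrd]

theorem nrd_neg {R : Type} [CommRing R] (x : Qu R) : nrd (-x) = nrd x := by simp [nrd]

theorem nrd_smul {R : Type} [CommRing R] (c : R) (x : Qu R) : nrd (c • x) = c ^ 2 * nrd x := by
  simp [nrd]; ring

/-- Change of coefficients. -/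
def Qu.map {R S : Type} [CommRing R] [CommRing S] (f : R →+* S) : Qu R →+* Qu S where
  toFun x := ⟨f x.re, f x.imI, f x.imJ, f x.imK⟩
  map_one' := by ext <;> simp
  map_mul' x y := by ext <;> simp [map_ofNat]
  map_zero' := by ext <;> simp
  map_add' x y := by ext <;> simp

theorem Qu.map_apply {R S : Type} [CommRing R] [CommRing S] (f : R →+* S) (x : Qu R) :
    Qu.map f x = ⟨f x.re, f x.imI, f x.imJ, f x.imK⟩ := rfl

theorem Qu.map_star {R S : Type} [CommRing R] [CommRing S] (f : R →+* S) (x : Qu R) :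
    Qu.map f (star x) = star (Qu.map f x) := by
  ext <;> simp [Qu.map_apply]

theorem nrd_map {R S : Type} [CommRing R] [CommRing S] (f : R →+* S) (x : Qu R) :
    nrd (Qu.map f x) = f (nrd x) := by
  simp [nrd, Qu.map_apply, map_ofNat]

/-- Reduction modulo `n`. -/
def red (n : ℕ) : Qu ℤ →+* Qu (ZMod n) := Qu.map (Int.castRingHom (ZMod n))

theorem red_apply (n : ℕ) (x : Qu ℤ) :
    red n x = ⟨(x.re : ZMod n), (x.imI : ZMod n), (x.imJ : ZMod n), (x.imK : ZMod n)⟩ := rfl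

theorem red_star (n : ℕ) (x : Qu ℤ) : red n (star x) = star (red n x) := Qu.map_star _ x

theorem nrd_red (n : ℕ) (x : Qu ℤ) : nrd (red n x) = (nrd x : ℤ) := nrd_map _ x

theorem red_eq_zero_iff (n : ℕ) (x : Qu ℤ) : red n x = 0 ↔ ∃ y : Qu ℤ, x = (n : ℤ) • y := by
  constructor
  · intro h
    have h1 : ((x.re : ℤ) : ZMod n) = 0 := congrArg QuaternionAlgebra.re h
    have h2 : ((x.imI : ℤ) : ZMod n) = 0 := congrArg QuaternionAlgebra.imI h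
    have h3 : ((x.imJ : ℤ) : ZMod n) = 0 := congrArg QuaternionAlgebra.imJ h
    have h4 : ((x.imK : ℤ) : ZMod n) = 0 := congrArg QuaternionAlgebra.imK h
    rw [ZMod.intCast_zmod_eq_zero_iff_dvd] at h1 h2 h3 h4
    obtain ⟨a, ha⟩ := h1
    obtain ⟨b, hb⟩ := h2
    obtain ⟨c, hc⟩ := h3
    obtain ⟨d, hd⟩ := h4
    exact ⟨⟨a, b, c, d⟩, by ext <;> simpa⟩
  · rintro ⟨y, rfl⟩
    ext <;> simp [red_apply]

/-- The splitting of the algebra over the reals. -/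
noncomputable def rhoR : Qu ℝ →+* Matrix (Fin 2) (Fin 2) ℝ where
  toFun x := !![x.re + x.imI * Real.goldenRatio, 13 * (x.imJ + x.imK * Real.goldenRatio);
    x.imJ + x.imK * Real.goldenConj, x.re + x.imI * Real.goldenConj]
  map_one' := by ext i j; fin_cases i <;> fin_cases j <;> simp
  map_mul' x y := by
    have h1 : Real.goldenConj = 1 - Real.goldenRatio := by
      linarith [Real.goldenRatio_add_goldenConj]
    have h2 := Real.goldenRatio_sq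
    rw [h1]
    generalize Real.goldenRatio = t at h2
    ext i j
    fin_cases i <;> fin_cases j <;> simp [Matrix.mul_apply, Fin.sum_univ_two]
    · linear_combination (13 * x.imK * y.imK - x.imI * y.imI) * h2
    · linear_combination (13 * x.imK * y.imI - 13 * x.imI * y.imK) * h2
    · linear_combination (x.imK * y.imI - x.imI * y.imK) * h2
    · linear_combination (13 * x.imK * y.imK - x.imI * y.imI) * h2
  map_zero' := by ext i j; fin_cases i <;> fin_cases j <;> simp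
  map_add' x y := by ext i j; fin_cases i <;> fin_cases j <;> simp <;> ring

theorem rhoR_apply (x : Qu ℝ) : rhoR x =
    !![x.re + x.imI * Real.goldenRatio, 13 * (x.imJ + x.imK * Real.goldenRatio);
      x.imJ + x.imK * Real.goldenConj, x.re + x.imI * Real.goldenConj] := rfl

theorem det_rhoR (x : Qu ℝ) : (rhoR x).det = nrd x := by
  have h1 : Real.goldenConj = 1 - Real.goldenRatio := by
    linarith [Real.goldenRatio_add_goldenConj]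
  have h2 := Real.goldenRatio_sq
  rw [rhoR_apply, Matrix.det_fin_two_of, nrd, h1]
  linear_combination (13 * x.imK ^ 2 - x.imI ^ 2) * h2

theorem goldenRatio_sub_ne : Real.goldenRatio - Real.goldenConj ≠ 0 := by
  rw [Real.goldenRatio_sub_goldenConj]; positivity

theorem rhoR_injective : Function.Injective rhoR := by
  rw [injective_iff_map_eq_zero]
  intro x hx
  have h00 := congrFun (congrFun hx 0) 0
  have h01 := congrFun (congrFun hx 0) 1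
  have h10 := congrFun (congrFun hx 1) 0
  have h11 := congrFun (congrFun hx 1) 1
  simp [rhoR_apply] at h00 h01 h10 h11
  have hI : x.imI = 0 :=
    (mul_eq_zero.1 (by linear_combination h00 - h11 :
      x.imI * (Real.goldenRatio - Real.goldenConj) = 0)).resolve_right goldenRatio_sub_ne
  have hK : x.imK = 0 :=
    (mul_eq_zero.1 (by linear_combination h01 - h10 :
      x.imK * (Real.goldenRatio - Real.goldenConj) = 0)).resolve_right goldenRatio_sub_ne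
  rw [hI] at h00
  rw [hK] at h10
  ext <;> simp_all

theorem rhoR_smul (c : ℝ) (x : Qu ℝ) : rhoR (c • x) = c • rhoR x := by
  ext i j; fin_cases i <;> fin_cases j <;> simp [rhoR_apply] <;> ring

theorem rhoR_surjective : Function.Surjective rhoR := by
  intro m
  have h := goldenRatio_sub_ne
  refine ⟨⟨m 0 0 - (m 0 0 - m 1 1) / (Real.goldenRatio - Real.goldenConj) * Real.goldenRatio,
    (m 0 0 - m 1 1) / (Real.goldenRatio - Real.goldenConj),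
    m 1 0 - (m 0 1 / 13 - m 1 0) / (Real.goldenRatio - Real.goldenConj) * Real.goldenConj,
    (m 0 1 / 13 - m 1 0) / (Real.goldenRatio - Real.goldenConj)⟩, ?_⟩
  generalize hd : Real.goldenRatio - Real.goldenConj = d at h
  have hd' : Real.goldenConj = Real.goldenRatio - d := by linarith
  ext i j
  fin_cases i <;> fin_cases j <;> simp only [rhoR_apply, hd'] <;> simp <;> field_simp <;> ring

/-- The embedding of the order in the real two by two matrices. -/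
noncomputable def rho : Qu ℤ →+* Matrix (Fin 2) (Fin 2) ℝ :=
  rhoR.comp (Qu.map (Int.castRingHom ℝ))

theorem rho_apply (x : Qu ℤ) : rho x =
    !![(x.re : ℝ) + x.imI * Real.goldenRatio, 13 * ((x.imJ : ℝ) + x.imK * Real.goldenRatio);
      (x.imJ : ℝ) + x.imK * Real.goldenConj, (x.re : ℝ) + x.imI * Real.goldenConj] := rfl

theorem det_rho (x : Qu ℤ) : (rho x).det = (nrd x : ℤ) := by
  rw [rho, RingHom.comp_apply, det_rhoR, nrd_map]; rfl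

theorem rho_injective : Function.Injective rho := by
  refine rhoR_injective.comp fun x y h => ?_
  have h1 : ((x.re : ℤ) : ℝ) = y.re := congrArg QuaternionAlgebra.re h
  have h2 : ((x.imI : ℤ) : ℝ) = y.imI := congrArg QuaternionAlgebra.imI h
  have h3 : ((x.imJ : ℤ) : ℝ) = y.imJ := congrArg QuaternionAlgebra.imJ h
  have h4 : ((x.imK : ℤ) : ℝ) = y.imK := congrArg QuaternionAlgebra.imK h
  ext <;> assumption_mod_cast

theorem rho_smul (c : ℤ) (x : Qu ℤ) : rho (c • x) = (c : ℝ) • rho x := by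
  rw [map_zsmul, Int.cast_smul_eq_zsmul]

/-- The element of `SL(2, ℝ)` proportional to an element of positive norm. -/
noncomputable def toSL (x : Qu ℤ) (h : 0 < nrd x) : SL(2, ℝ) :=
  ⟨(√((nrd x : ℤ) : ℝ))⁻¹ • rho x, by
    have h' : (0 : ℝ) < (nrd x : ℤ) := by exact_mod_cast h
    rw [Matrix.det_smul, det_rho, Fintype.card_fin, inv_pow, Real.sq_sqrt h'.le,
      inv_mul_cancel₀ h'.ne']⟩

theorem coe_toSL (x : Qu ℤ) (h : 0 < nrd x) :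
    (toSL x h : Matrix (Fin 2) (Fin 2) ℝ) = (√((nrd x : ℤ) : ℝ))⁻¹ • rho x := rfl

theorem coe_inv_of_rho {x : Qu ℤ} {g : SL(2, ℝ)} (hx : nrd x = 1)
    (h : rho x = (g : Matrix (Fin 2) (Fin 2) ℝ)) :
    rho (star x) = ((g⁻¹ : SL(2, ℝ)) : Matrix (Fin 2) (Fin 2) ℝ) := by
  have h1 : rho (star x) * (g : Matrix (Fin 2) (Fin 2) ℝ) = 1 := by
    rw [← h, ← map_mul, star_mul_eq, hx]; simp
  have h2 : (g : Matrix (Fin 2) (Fin 2) ℝ) * ((g⁻¹ : SL(2, ℝ)) : Matrix (Fin 2) (Fin 2) ℝ) = 1 := by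
    rw [← Matrix.SpecialLinearGroup.coe_mul, mul_inv_cancel, Matrix.SpecialLinearGroup.coe_one]
  rw [← mul_one (rho (star x)), ← h2, ← mul_assoc, h1, one_mul]

/-- The norm one group of the order. -/
def G1 : Subgroup SL(2, ℝ) where
  carrier := {g | ∃ x : Qu ℤ, nrd x = 1 ∧ rho x = (g : Matrix (Fin 2) (Fin 2) ℝ)}
  one_mem' := ⟨1, nrd_one, by simp⟩
  mul_mem' := by
    rintro g h ⟨x, hx, hg⟩ ⟨y, hy, hh⟩
    exact ⟨x * y, by rw [nrd_mul, hx, hy, one_mul], by rw [map_mul, hg, hh]; rfl⟩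
  inv_mem' := by
    rintro g ⟨x, hx, hg⟩
    exact ⟨star x, by rw [nrd_star, hx], coe_inv_of_rho hx hg⟩

theorem mem_G1 {g : SL(2, ℝ)} :
    g ∈ G1 ↔ ∃ x : Qu ℤ, nrd x = 1 ∧ rho x = (g : Matrix (Fin 2) (Fin 2) ℝ) := Iff.rfl

instance (n : ℕ) : DecidableEq (Qu (ZMod n)) := fun x y =>
  decidable_of_iff (x.re = y.re ∧ x.imI = y.imI ∧ x.imJ = y.imJ ∧ x.imK = y.imK)
    QuaternionAlgebra.ext_iff.symm

/-- A binary octahedral group modulo 7. -/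
def H7 : List (Qu (ZMod 7)) := [
  ⟨0, 0, 2, 6⟩, ⟨0, 0, 5, 1⟩, ⟨0, 1, 3, 3⟩, ⟨0, 3, 0, 5⟩, ⟨0, 3, 2, 4⟩, ⟨0, 4, 0, 2⟩,
  ⟨0, 4, 5, 3⟩, ⟨0, 6, 4, 4⟩, ⟨1, 0, 0, 0⟩, ⟨1, 2, 4, 4⟩, ⟨1, 4, 4, 3⟩, ⟨1, 4, 5, 6⟩,
  ⟨1, 5, 0, 6⟩, ⟨1, 5, 1, 2⟩, ⟨1, 5, 4, 2⟩, ⟨1, 5, 6, 1⟩, ⟨1, 6, 4, 4⟩, ⟨2, 2, 5, 5⟩,
  ⟨2, 4, 4, 3⟩, ⟨2, 4, 5, 6⟩, ⟨3, 1, 2, 2⟩, ⟨3, 1, 3, 1⟩, ⟨3, 1, 5, 0⟩, ⟨3, 1, 5, 5⟩,
  ⟨3, 2, 5, 5⟩, ⟨3, 4, 0, 2⟩, ⟨3, 4, 5, 3⟩, ⟨3, 5, 3, 3⟩, ⟨4, 2, 4, 4⟩, ⟨4, 3, 0, 5⟩,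
  ⟨4, 3, 2, 4⟩, ⟨4, 5, 2, 2⟩, ⟨4, 6, 2, 0⟩, ⟨4, 6, 2, 2⟩, ⟨4, 6, 4, 6⟩, ⟨4, 6, 5, 5⟩,
  ⟨5, 3, 2, 1⟩, ⟨5, 3, 3, 4⟩, ⟨5, 5, 2, 2⟩, ⟨6, 0, 0, 0⟩, ⟨6, 1, 3, 3⟩, ⟨6, 2, 0, 1⟩,
  ⟨6, 2, 1, 6⟩, ⟨6, 2, 3, 5⟩, ⟨6, 2, 6, 5⟩, ⟨6, 3, 2, 1⟩, ⟨6, 3, 3, 4⟩, ⟨6, 5, 3, 3⟩]

/-- A binary octahedral group modulo 17. -/
def H17 : List (Qu (ZMod 17)) := [
  ⟨1, 0, 0, 0⟩, ⟨1, 9, 16, 16⟩, ⟨1, 14, 3, 12⟩, ⟨1, 15, 9, 7⟩, ⟨2, 7, 8, 6⟩, ⟨2, 12, 0, 3⟩,
  ⟨2, 13, 16, 0⟩, ⟨2, 14, 3, 12⟩, ⟨3, 11, 8, 7⟩, ⟨3, 12, 0, 3⟩, ⟨4, 3, 7, 6⟩, ⟨4, 9, 3, 15⟩,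
  ⟨5, 6, 8, 16⟩, ⟨5, 7, 2, 5⟩, ⟨6, 5, 11, 12⟩, ⟨6, 6, 8, 16⟩, ⟨7, 2, 6, 3⟩, ⟨7, 3, 11, 11⟩,
  ⟨7, 9, 16, 16⟩, ⟨7, 14, 10, 11⟩, ⟨8, 1, 8, 2⟩, ⟨8, 1, 10, 12⟩, ⟨8, 2, 6, 3⟩, ⟨8, 7, 8, 6⟩,
  ⟨9, 10, 9, 11⟩, ⟨9, 15, 11, 14⟩, ⟨9, 16, 7, 5⟩, ⟨9, 16, 9, 15⟩, ⟨10, 3, 7, 6⟩, ⟨10, 8, 1, 1⟩,
  ⟨10, 14, 6, 6⟩, ⟨10, 15, 11, 14⟩, ⟨11, 11, 9, 1⟩, ⟨11, 12, 6, 5⟩, ⟨12, 10, 15, 12⟩, ⟨12, 11, 9, 1⟩,
  ⟨13, 8, 14, 2⟩, ⟨13, 14, 10, 11⟩, ⟨14, 5, 0, 14⟩, ⟨14, 6, 9, 10⟩, ⟨15, 3, 14, 5⟩, ⟨15, 4, 1, 0⟩,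
  ⟨15, 5, 0, 14⟩, ⟨15, 10, 9, 11⟩, ⟨16, 0, 0, 0⟩, ⟨16, 2, 8, 10⟩, ⟨16, 3, 14, 5⟩, ⟨16, 8, 1, 1⟩]

theorem H7_mul : ∀ x ∈ H7, ∀ y ∈ H7, x * y ∈ H7 := by decide +kernel
theorem H7_star : ∀ x ∈ H7, star x ∈ H7 := by decide +kernel
theorem H7_one : (1 : Qu (ZMod 7)) ∈ H7 := by decide +kernel
theorem H7_neg_one : (-1 : Qu (ZMod 7)) ∈ H7 := by decide +kernel
theorem H17_mul : ∀ x ∈ H17, ∀ y ∈ H17, x * y ∈ H17 := by decide +kernel
theorem H17_star : ∀ x ∈ H17, star x ∈ H17 := by decide +kernel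
theorem H17_one : (1 : Qu (ZMod 17)) ∈ H17 := by decide +kernel
theorem H17_neg_one : (-1 : Qu (ZMod 17)) ∈ H17 := by decide +kernel

/-- The elements of the order which define the group. -/
def Good (x : Qu ℤ) : Prop := nrd x = 1 ∧ red 7 x ∈ H7 ∧ red 17 x ∈ H17

/-- The group of the counterexample (its preimage in `SL(2, ℝ)`). -/
def G0 : Subgroup SL(2, ℝ) where
  carrier := {g | ∃ x : Qu ℤ, Good x ∧ rho x = (g : Matrix (Fin 2) (Fin 2) ℝ)}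
  one_mem' := ⟨1, ⟨nrd_one, by rw [map_one]; exact H7_one, by rw [map_one]; exact H17_one⟩, by simp⟩
  mul_mem' := by
    rintro g h ⟨x, ⟨hx, hx7, hx17⟩, hg⟩ ⟨y, ⟨hy, hy7, hy17⟩, hh⟩
    exact ⟨x * y, ⟨by rw [nrd_mul, hx, hy, one_mul], by rw [map_mul]; exact H7_mul _ hx7 _ hy7,
      by rw [map_mul]; exact H17_mul _ hx17 _ hy17⟩, by rw [map_mul, hg, hh]; rfl⟩
  inv_mem' := by
    rintro g ⟨x, ⟨hx, hx7, hx17⟩, hg⟩
    exact ⟨star x, ⟨by rw [nrd_star, hx], by rw [red_star]; exact H7_star _ hx7,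
      by rw [red_star]; exact H17_star _ hx17⟩, coe_inv_of_rho hx hg⟩

theorem mem_G0 {g : SL(2, ℝ)} :
    g ∈ G0 ↔ ∃ x : Qu ℤ, Good x ∧ rho x = (g : Matrix (Fin 2) (Fin 2) ℝ) := Iff.rfl

theorem G0_le_G1 : G0 ≤ G1 := fun _ ⟨x, hx, hg⟩ => ⟨x, hx.1, hg⟩

theorem neg_one_mem_G0 : (-1 : SL(2, ℝ)) ∈ G0 :=
  ⟨-1, ⟨by rw [nrd_neg, nrd_one], by rw [map_neg, map_one]; exact H7_neg_one,
    by rw [map_neg, map_one]; exact H17_neg_one⟩, by simp⟩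

theorem neg_one_mem_G1 : (-1 : SL(2, ℝ)) ∈ G1 := G0_le_G1 neg_one_mem_G0

end Pool.Agent.P.MP_7a2702_mp
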