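import Pool.Agent.P.MP_7a2702_mp.Basic
import Pool.Agent.P.MP_7a2702_mp.Order

set_option autoImplicit false

open scoped MatrixGroups UpperHalfPlane ENNReal ComplexConjugate ContDiff
open MeasureTheory Filter Topology

namespace Pool.Agent.P.MP_7a2702_mp

theorem cocptG1Aux_mod : ∀ a b : ZMod 13, a ^ 2 + a * b - b ^ 2 = 0 → a = 0 ∧ b = 0 := by
  decide +kernel

theorem cocptG1Aux_dvd {a b : ℤ} (h : (13 : ℤ) ∣ a ^ 2 + a * b - b ^ 2) :
    (13 : ℤ) ∣ a ∧ (13 : ℤ) ∣ b := by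
  have h1 : ((a ^ 2 + a * b - b ^ 2 : ℤ) : ZMod 13) = 0 :=
    (ZMod.intCast_zmod_eq_zero_iff_dvd _ 13).2 (by exact_mod_cast h)
  push_cast at h1
  obtain ⟨h2, h3⟩ := cocptG1Aux_mod _ _ h1
  exact ⟨by exact_mod_cast (ZMod.intCast_zmod_eq_zero_iff_dvd a 13).1 h2,
    by exact_mod_cast (ZMod.intCast_zmod_eq_zero_iff_dvd b 13).1 h3⟩

theorem cocptG1Aux_descent (n : ℕ) : ∀ a b c d : ℤ,
    a.natAbs + b.natAbs + c.natAbs + d.natAbs ≤ n →
    a ^ 2 + a * b - b ^ 2 = 13 * (c ^ 2 + c * d - d ^ 2) → a = 0 ∧ b = 0 ∧ c = 0 ∧ d = 0 := by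
  induction n with
  | zero => intro a b c d h _; omega
  | succ n ih =>
    intro a b c d h he
    obtain ⟨⟨a', rfl⟩, ⟨b', rfl⟩⟩ := cocptG1Aux_dvd (a := a) (b := b) ⟨_, he⟩
    have h2 : c ^ 2 + c * d - d ^ 2 = 13 * (a' ^ 2 + a' * b' - b' ^ 2) := by linarith
    obtain ⟨⟨c', rfl⟩, ⟨d', rfl⟩⟩ := cocptG1Aux_dvd (a := c) (b := d) ⟨_, h2⟩
    have h3 : a' ^ 2 + a' * b' - b' ^ 2 = 13 * (c' ^ 2 + c' * d' - d' ^ 2) := by linarith
    have := ih a' b' c' d' (by omega) h3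
    omega

theorem nrd_ne_zero {x : Qu ℤ} (hx : x ≠ 0) : nrd x ≠ 0 := by
  intro h
  obtain ⟨h1, h2, h3, h4⟩ := cocptG1Aux_descent _ x.re x.imI x.imJ x.imK le_rfl
    (by unfold nrd at h; linarith)
  exact hx (by ext <;> simpa)

theorem cocptG1Aux_cont (i j : Fin 2) :
    Continuous fun g : SL(2, ℝ) => (g : Matrix (Fin 2) (Fin 2) ℝ) i j :=
  Matrix.SpecialLinearGroup.isClosedEmbedding_val.continuous.matrix_elem i j

theorem cocptG1Aux_small {b : ℤ} (h : |(b : ℝ) * (Real.goldenRatio - Real.goldenConj)| < 1) :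
    b = 0 := by
  rw [Real.goldenRatio_sub_goldenConj, abs_mul, abs_of_nonneg (Real.sqrt_nonneg _)] at h
  have h5 : (1 : ℝ) ≤ √5 := Real.one_le_sqrt.2 (by norm_num)
  have h1 : |(b : ℝ)| < 1 := by nlinarith [abs_nonneg (b : ℝ)]
  have h2 : |b| < 1 := by exact_mod_cast h1
  exact Int.abs_lt_one_iff.1 h2

theorem discrete_G1 : DiscreteTopology G1 := by
  refine discreteTopology_of_isOpen_singleton_one ?_
  have hc : ∀ i j, Continuous fun g : G1 => ((g : SL(2, ℝ)) : Matrix (Fin 2) (Fin 2) ℝ) i j :=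
    fun i j => (cocptG1Aux_cont i j).comp continuous_subtype_val
  have ho : IsOpen {g : G1 | |((g : SL(2, ℝ)) : Matrix (Fin 2) (Fin 2) ℝ) 0 0 - 1| < 1 / 2 ∧
      |((g : SL(2, ℝ)) : Matrix (Fin 2) (Fin 2) ℝ) 1 1 - 1| < 1 / 2 ∧
      |((g : SL(2, ℝ)) : Matrix (Fin 2) (Fin 2) ℝ) 0 1| < 1 / 2 ∧
      |((g : SL(2, ℝ)) : Matrix (Fin 2) (Fin 2) ℝ) 1 0| < 1 / 2} :=
    (isOpen_lt ((hc 0 0).sub continuous_const).abs continuous_const).inter
      ((isOpen_lt ((hc 1 1).sub continuous_const).abs continuous_const).inter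
        ((isOpen_lt (hc 0 1).abs continuous_const).inter
          (isOpen_lt (hc 1 0).abs continuous_const)))
  convert ho using 1
  ext g
  simp only [Set.mem_singleton_iff, Set.mem_ofPred_eq]
  constructor
  · rintro rfl
    simp
  · obtain ⟨g, x, hx, hg⟩ := g
    simp only [← hg, rho_apply, Matrix.of_apply, Matrix.cons_val', Matrix.cons_val_zero,
      Matrix.cons_val_one, Matrix.cons_val_fin_one]
    rintro ⟨h1, h2, h3, h4⟩
    rw [abs_lt] at h1 h2 h3 h4
    have hb : x.imI = 0 := cocptG1Aux_small (by rw [abs_lt]; constructor <;> linarith)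
    have hd : x.imK = 0 := cocptG1Aux_small (by rw [abs_lt]; constructor <;> linarith)
    rw [hb] at h1
    rw [hd] at h4
    simp only [Int.cast_zero, zero_mul, add_zero] at h1 h4
    have ha : x.re = 1 := by
      have a1 : (0 : ℝ) < x.re := by linarith
      have a2 : (x.re : ℝ) < 2 := by linarith
      have a3 : 0 < x.re := by exact_mod_cast a1
      have a4 : x.re < 2 := by exact_mod_cast a2
      omega
    have hc' : x.imJ = 0 := by
      have a1 : (-1 : ℝ) < x.imJ := by linarith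
      have a2 : (x.imJ : ℝ) < 1 := by linarith
      have a3 : -1 < x.imJ := by exact_mod_cast a1
      have a4 : x.imJ < 1 := by exact_mod_cast a2
      omega
    have hx1 : x = 1 := by ext <;> simpa
    refine Subtype.ext (Subtype.ext ?_)
    change (g : Matrix (Fin 2) (Fin 2) ℝ) = 1
    rw [← hg, hx1, map_one]

/-- The matrix of `v ↦ h * rhoR v` in coordinates. -/
def cocptG1Mat (p q r s t u : ℝ) : Matrix (Fin 4) (Fin 4) ℝ :=
  !![p, p * t, q, q * u; q, q * u, 13 * p, 13 * p * t; r, r * t, s, s * u;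
    s, s * u, 13 * r, 13 * r * t]

theorem cocptG1Aux_det (p q r s t u : ℝ) :
    (cocptG1Mat p q r s t u).det = 13 * (t - u) ^ 2 * (p * s - q * r) ^ 2 := by
  simp [cocptG1Mat, Matrix.det_succ_row_zero, Fin.sum_univ_succ, Fin.succAbove]
  ring

theorem cocptG1Aux_mink (h : SL(2, ℝ)) : ∃ x : Qu ℤ, x ≠ 0 ∧
    ∀ i j, |((h : Matrix (Fin 2) (Fin 2) ℝ) * rho x) i j| ≤ 3 := by
  have hdet : h 0 0 * h 1 1 - h 0 1 * h 1 0 = 1 := by
    have := h.det_coe
    rwa [Matrix.det_fin_two] at this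
  set T : (Fin 4 → ℝ) →ₗ[ℝ] (Fin 4 → ℝ) :=
    Matrix.toLin' (cocptG1Mat (h 0 0) (h 0 1) (h 1 0) (h 1 1) Real.goldenRatio Real.goldenConj)
    with hT
  have hTdet : LinearMap.det T = 65 := by
    rw [hT, LinearMap.det_toLin', cocptG1Aux_det, hdet, Real.goldenRatio_sub_goldenConj,
      Real.sq_sqrt (by norm_num)]
    norm_num
  set box : Set (Fin 4 → ℝ) := Set.pi Set.univ fun _ => Set.Icc (-3 : ℝ) 3 with hbox
  have hconv : Convex ℝ (T ⁻¹' box) :=
    (convex_pi fun _ _ => convex_Icc _ _).linear_preimage T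
  have hsymm : ∀ v ∈ T ⁻¹' box, -v ∈ T ⁻¹' box := by
    intro v hv i _
    have := hv i (Set.mem_univ _)
    rw [map_neg, Pi.neg_apply]
    exact ⟨by linarith [this.2], by linarith [this.1]⟩
  have hvol : volume (ZSpan.fundamentalDomain (Pi.basisFun ℝ (Fin 4))) *
      2 ^ Module.finrank ℝ (Fin 4 → ℝ) < volume (T ⁻¹' box) := by
    rw [Measure.addHaar_preimage_linearMap volume (by rw [hTdet]; norm_num), hTdet,
      ZSpan.fundamentalDomain_pi_basisFun, hbox, volume_pi_pi, volume_pi_pi]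
    simp only [Real.volume_Ico, Real.volume_Icc, Finset.prod_const, Finset.card_univ,
      Fintype.card_fin, Module.finrank_fin_fun]
    rw [← ENNReal.ofReal_pow (by norm_num), ← ENNReal.ofReal_pow (by norm_num),
      ← ENNReal.ofReal_mul (abs_nonneg _), ← ENNReal.ofReal_ofNat 2,
      ← ENNReal.ofReal_pow (by norm_num), ← ENNReal.ofReal_mul (by norm_num),
      ENNReal.ofReal_lt_ofReal_iff (by norm_num)]
    norm_num
  have : Countable (Submodule.span ℤ (Set.range (Pi.basisFun ℝ (Fin 4)))).toAddSubgroup :=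
    inferInstanceAs (Countable (Submodule.span ℤ (Set.range (Pi.basisFun ℝ (Fin 4)))))
  obtain ⟨v, hv0, hv⟩ := exists_ne_zero_mem_lattice_of_measure_mul_two_pow_lt_measure
    (ZSpan.isAddFundamentalDomain' (Pi.basisFun ℝ (Fin 4)) volume) hsymm hconv hvol
  have hint := ((Pi.basisFun ℝ (Fin 4)).mem_span_iff_repr_mem ℤ (v : Fin 4 → ℝ)).1 v.2
  simp only [Pi.basisFun_repr, Set.mem_range, eq_intCast] at hint
  choose n hn using hint
  refine ⟨⟨n 0, n 1, n 2, n 3⟩, fun h0 => hv0 (Subtype.ext (funext fun i => ?_)), ?_⟩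
  · have h1 : n 0 = 0 := congrArg QuaternionAlgebra.re h0
    have h2 : n 1 = 0 := congrArg QuaternionAlgebra.imI h0
    have h3 : n 2 = 0 := congrArg QuaternionAlgebra.imJ h0
    have h4 : n 3 = 0 := congrArg QuaternionAlgebra.imK h0
    rw [← hn i]
    fin_cases i <;> simp [h1, h2, h3, h4]
  · have hb : ∀ k, |T v k| ≤ 3 := fun k => abs_le.2 (hv k (Set.mem_univ _))
    have b0 := hb 0
    have b1 := hb 1
    have b2 := hb 2
    have b3 := hb 3
    simp only [hT, Matrix.toLin'_apply, cocptG1Mat, Matrix.mulVec, dotProduct, Fin.sum_univ_four,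
      ← hn] at b0 b1 b2 b3
    simp at b0 b1 b2 b3
    intro i j
    fin_cases i <;> fin_cases j <;> simp [Matrix.mul_apply, Fin.sum_univ_two, rho_apply]
    · convert b0 using 2; ring
    · convert b1 using 2; ring
    · convert b2 using 2; ring
    · convert b3 using 2; ring

theorem cocptG1Aux_pos (h : SL(2, ℝ)) : ∃ x : Qu ℤ, 0 < nrd x ∧ nrd x ≤ 18 ∧
    ∀ i j, |((h : Matrix (Fin 2) (Fin 2) ℝ) * rho x) i j| ≤ 6 := by
  obtain ⟨x, hx0, hx⟩ := cocptG1Aux_mink h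
  have hn := nrd_ne_zero hx0
  have hdet : ((h : Matrix (Fin 2) (Fin 2) ℝ) * rho x).det = (nrd x : ℤ) := by
    rw [Matrix.det_mul, h.det_coe, one_mul, det_rho]
  have habs : |nrd x| ≤ 18 := by
    have h1 : |((nrd x : ℤ) : ℝ)| ≤ 18 := by
      rw [← hdet, Matrix.det_fin_two]
      refine (abs_sub _ _).trans ?_
      rw [abs_mul, abs_mul]
      have a1 := mul_le_mul (hx 0 0) (hx 1 1) (abs_nonneg _) (by norm_num)
      have a2 := mul_le_mul (hx 0 1) (hx 1 0) (abs_nonneg _) (by norm_num)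
      linarith
    exact_mod_cast h1
  rw [abs_le] at habs
  rcases lt_or_gt_of_ne hn with hneg | hpos
  · have hφ : nrd (⟨0, 1, 0, 0⟩ : Qu ℤ) = -1 := by simp [nrd]
    refine ⟨x * ⟨0, 1, 0, 0⟩, by rw [nrd_mul, hφ]; omega, by rw [nrd_mul, hφ]; omega, ?_⟩
    have g1 : |Real.goldenRatio| ≤ 2 := by
      rw [abs_of_pos Real.goldenRatio_pos]; exact Real.goldenRatio_lt_two.le
    have g2 : |Real.goldenConj| ≤ 2 := by
      rw [abs_le]; constructor <;> linarith [Real.goldenConj_neg, Real.neg_one_lt_goldenConj]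
    intro i j
    rw [map_mul, ← mul_assoc]
    generalize (h : Matrix (Fin 2) (Fin 2) ℝ) * rho x = m at hx
    have e0 : (m * rho (⟨0, 1, 0, 0⟩ : Qu ℤ)) i 0 = m i 0 * Real.goldenRatio := by
      simp [Matrix.mul_apply, Fin.sum_univ_two, rho_apply]
    have e1 : (m * rho (⟨0, 1, 0, 0⟩ : Qu ℤ)) i 1 = m i 1 * Real.goldenConj := by
      simp [Matrix.mul_apply, Fin.sum_univ_two, rho_apply]
    fin_cases j
    · refine (congrArg abs e0).trans_le ?_
      rw [abs_mul]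
      linarith [mul_le_mul (hx i 0) g1 (abs_nonneg _) (by norm_num)]
    · refine (congrArg abs e1).trans_le ?_
      rw [abs_mul]
      linarith [mul_le_mul (hx i 1) g2 (abs_nonneg _) (by norm_num)]
  · exact ⟨x, hpos, habs.2, fun i j => (hx i j).trans (by norm_num)⟩

theorem cocptG1Aux_bdd : ∃ R : ℝ, ∀ k : SL(2, ℝ),
    (∀ i j, |(k : Matrix (Fin 2) (Fin 2) ℝ) i j| ≤ 6) →
      dist (k • UpperHalfPlane.I) UpperHalfPlane.I ≤ R := by
  have hK : IsCompact ((fun k : SL(2, ℝ) => (k : Matrix (Fin 2) (Fin 2) ℝ)) ⁻¹'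
      (Set.Icc (-6 : ℝ) 6).matrix) :=
    Matrix.SpecialLinearGroup.isClosedEmbedding_val.isCompact_preimage isCompact_Icc.matrix
  have hc : Continuous fun k : SL(2, ℝ) => dist (k • UpperHalfPlane.I) UpperHalfPlane.I := by
    fun_prop
  obtain ⟨R, hR⟩ := hK.bddAbove_image hc.continuousOn
  exact ⟨R, fun k hk => hR ⟨k, fun i j => abs_le.1 (hk i j), rfl⟩⟩

theorem cocptG1Aux_finite (n : ℕ) [NeZero n] : Finite (Qu (ZMod n)) :=
  Finite.of_equiv _ (QuaternionAlgebra.equivProd (1 : ZMod n) 1 13).symm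

theorem cocpt_G1 : Cocpt G1 := by
  classical
  refine ⟨discrete_G1, ?_⟩
  obtain ⟨R₁, hR₁⟩ := cocptG1Aux_bdd
  have : NeZero (Nat.factorial 18) := ⟨Nat.factorial_ne_zero _⟩
  have := cocptG1Aux_finite (Nat.factorial 18)
  set cl : Qu ℤ → ℤ × Qu (ZMod (Nat.factorial 18)) := fun x => (nrd x, red _ x) with hcl
  set D : Qu ℤ → ℝ := fun x =>
    if h : 0 < nrd x then dist (toSL x h • UpperHalfPlane.I) UpperHalfPlane.I else 0 with hD
  have hfin : ((fun c => D (Function.invFun cl c)) '' (Set.Icc 1 18 ×ˢ Set.univ)).Finite :=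
    ((Set.finite_Icc _ _).prod Set.finite_univ).image _
  obtain ⟨R₂, hR₂⟩ := hfin.bddAbove
  refine ⟨R₁ + R₂, fun z => ?_⟩
  obtain ⟨x, hpos, hle, hx⟩ := cocptG1Aux_pos z.toSL2R⁻¹
  set x' := Function.invFun cl (cl x) with hx'
  have hcl' : cl x' = cl x := Function.invFun_eq ⟨x, rfl⟩
  have hn : nrd x' = nrd x := congrArg Prod.fst hcl'
  have hr : red (Nat.factorial 18) x' = red (Nat.factorial 18) x := congrArg Prod.snd hcl'
  have hpos' : 0 < nrd x' := hn ▸ hpos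
  have hD' : dist (toSL x' hpos' • UpperHalfPlane.I) UpperHalfPlane.I ≤ R₂ := by
    have h1 : D x' ≤ R₂ := hR₂ ⟨cl x, ⟨⟨hpos, hle⟩, Set.mem_univ _⟩, rfl⟩
    simpa only [hD, dif_pos hpos'] using h1
  obtain ⟨y, hy⟩ := (red_eq_zero_iff (Nat.factorial 18) (x - x')).1 (by rw [map_sub, hr, sub_self])
  obtain ⟨m, hm⟩ : nrd x ∣ ((Nat.factorial 18 : ℕ) : ℤ) := by
    have h1 : (nrd x).toNat ∣ Nat.factorial 18 := Nat.dvd_factorial (by omega) (by omega)
    have h2 := Int.natCast_dvd_natCast.2 h1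
    rwa [Int.toNat_of_nonneg hpos.le] at h2
  set u : Qu ℤ := 1 + m • (y * star x') with hu
  have hux : u * x' = x := by
    rw [hu, add_mul, one_mul, smul_mul_assoc, mul_assoc, star_mul_eq, hn, mul_smul_comm, mul_one,
      smul_smul, mul_comm m, ← hm, ← hy, add_sub_cancel]
  have hu1 : nrd u = 1 := by
    have h1 := congrArg nrd hux
    rw [nrd_mul, hn] at h1
    exact mul_right_cancel₀ hpos.ne' (by rw [h1, one_mul])
  set γ : SL(2, ℝ) := ⟨rho u, by rw [det_rho, hu1]; simp⟩ with hγ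
  have hγ1 : γ ∈ G1 := ⟨u, hu1, rfl⟩
  have hprod : γ * toSL x' hpos' = toSL x hpos := by
    refine Subtype.ext ?_
    rw [Matrix.SpecialLinearGroup.coe_mul, coe_toSL, coe_toSL, hn, Matrix.mul_smul, ← hux,
      map_mul]
  refine ⟨γ⁻¹, G1.inv_mem hγ1, ?_⟩
  set k : SL(2, ℝ) := z.toSL2R⁻¹ * toSL x hpos with hk
  have hkb : dist (k • UpperHalfPlane.I) UpperHalfPlane.I ≤ R₁ := by
    refine hR₁ k fun i j => ?_
    rw [hk, Matrix.SpecialLinearGroup.coe_mul, coe_toSL, Matrix.mul_smul, Matrix.smul_apply,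
      smul_eq_mul, abs_mul]
    have h1 : (1 : ℝ) ≤ √((nrd x : ℤ) : ℝ) := Real.one_le_sqrt.2 (by exact_mod_cast hpos)
    have h2 : |(√((nrd x : ℤ) : ℝ))⁻¹| ≤ 1 := by
      rw [abs_of_nonneg (by positivity)]
      exact inv_le_one_of_one_le₀ h1
    linarith [mul_le_mul h2 (hx i j) (abs_nonneg _) zero_le_one]
  have he : γ⁻¹ • z = toSL x' hpos' • k⁻¹ • UpperHalfPlane.I := by
    rw [← mul_smul, hk, ← hprod]
    conv_lhs => rw [← z.toSL2R_smul_I, ← mul_smul]
    congr 1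
    group
  rw [he]
  refine (dist_triangle _ (toSL x' hpos' • UpperHalfPlane.I) _).trans (add_le_add ?_ hD')
  rw [dist_smul, ← dist_smul k, smul_inv_smul, dist_comm]
  exact hkb

end Pool.Agent.P.MP_7a2702_mp
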