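import Pool.Agent.P.MP_7a2702_mp.Basic

set_option autoImplicit false

open scoped MatrixGroups UpperHalfPlane ENNReal ComplexConjugate ContDiff
open MeasureTheory Filter Topology

namespace Pool.Agent.P.MP_7a2702_mp

theorem apply_eq_zero_of_orth {H : Type} [NormedAddCommGroup H] [InnerProductSpace ℝ H]
    [CompleteSpace H] (T T' : H →L[ℝ] H) (hT : IsCompactOperator T)
    (hs : (T : H →ₗ[ℝ] H).IsSymmetric) (hs' : (T' : H →ₗ[ℝ] H).IsSymmetric)
    (hc : ∀ (u : H) (κ : ℝ), κ ≠ 0 → T u = κ • u → T (T' u) = κ • T' u) (w : H)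
    (hw : ∀ (u : H) (κ κ' : ℝ), κ ≠ 0 → T u = κ • u → T' u = κ' • u → inner ℝ u w = 0) :
    T w = 0 := by
  have h1 : ∀ κ : ℝ, κ ≠ 0 → w ∈ (Module.End.eigenspace (T : H →ₗ[ℝ] H) κ)ᗮ := by
    intro κ hκ
    set V := Module.End.eigenspace (T : H →ₗ[ℝ] H) κ with hV
    haveI : FiniteDimensional ℝ V := ContinuousLinearMap.finite_dimensional_eigenspace hT κ hκ
    have hmem : ∀ u : H, u ∈ V ↔ T u = κ • u := fun u => Module.End.mem_eigenspace_iff
    have hinv : ∀ u ∈ V, (T' : H →ₗ[ℝ] H) u ∈ V := fun u hu =>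
      (hmem _).2 (hc u κ hκ ((hmem u).1 hu))
    have hS := hs'.restrict_invariant hinv
    have h2 := hS.orthogonalComplement_iSup_eigenspaces_eq_bot
    have h3 : V.orthogonalProjectionOnto w ∈
        (⨆ μ, Module.End.eigenspace ((T' : H →ₗ[ℝ] H).restrict hinv) μ)ᗮ := by
      rw [← Submodule.iInf_orthogonal, Submodule.mem_iInf]
      intro μ u hu
      have h4 : T' (u : H) = μ • (u : H) :=
        congrArg Subtype.val (Module.End.mem_eigenspace_iff.1 hu)
      have h5 := hw u κ μ hκ ((hmem u).1 u.2) h4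
      have h6 := V.starProjection_inner_eq_zero w u u.2
      rw [inner_sub_left, real_inner_comm, h5, zero_sub, neg_eq_zero, real_inner_comm] at h6
      exact h6
    rw [h2, Submodule.mem_bot] at h3
    exact Submodule.orthogonalProjectionOnto_eq_zero_iff.1 h3
  have h2 := ContinuousLinearMap.orthogonalComplement_iSup_eigenspaces_eq_bot hT hs
  rw [← Submodule.mem_bot ℝ, ← h2, ← Submodule.iInf_orthogonal, Submodule.mem_iInf]
  intro μ u hu
  have h3 : T u = μ • u := Module.End.mem_eigenspace_iff.1 hu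
  have h4 : inner ℝ (T u) w = inner ℝ u (T w) := hs u w
  rw [← h4, h3, real_inner_smul_left]
  by_cases hμ : μ = 0
  · rw [hμ, zero_mul]
  · rw [h1 μ hμ u hu, mul_zero]

theorem hasSum_sq_inner {H : Type} [NormedAddCommGroup H] [InnerProductSpace ℝ H]
    [CompleteSpace H] {ι : Type} (e : ι → H) (he : Orthonormal ℝ e) (v : H)
    (hv : ∀ w : H, (∀ i, inner ℝ (e i) w = 0) → inner ℝ v w = 0) :
    HasSum (fun i => inner ℝ (e i) v ^ 2) (‖v‖ ^ 2) := by
  classical
  have h1 : Summable fun i => (inner ℝ (e i) v : ℝ) • e i := by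
    have := (he.orthogonalFamily.summable_iff_norm_sq_summable
      fun i => (inner ℝ (e i) v : ℝ)).2 (he.inner_products_summable v)
    simpa only [LinearIsometry.toSpanSingleton_apply] using this
  obtain ⟨s, hs⟩ := h1
  have h2 : ∀ x : H, HasSum (fun i => (inner ℝ (e i) v : ℝ) * inner ℝ x (e i)) (inner ℝ x s) := by
    intro x
    have := hs.mapL (innerSL ℝ x)
    simpa only [innerSL_apply_apply, real_inner_smul_right] using this
  have h3 : ∀ j, inner ℝ (e j) s = (inner ℝ (e j) v : ℝ) := by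
    intro j
    refine (h2 (e j)).unique ?_
    have h4 := hasSum_single (f := fun i => (inner ℝ (e i) v : ℝ) * inner ℝ (e j) (e i)) j
      (fun i hi => by rw [he.2 (Ne.symm hi), mul_zero])
    rwa [real_inner_self_eq_norm_sq, he.1 j, one_pow, mul_one] at h4
  have h4 := hv (v - s) fun i => by rw [inner_sub_right, h3, sub_self]
  rw [inner_sub_right, real_inner_self_eq_norm_sq, sub_eq_zero] at h4
  rw [h4]
  convert h2 v using 2 with i
  rw [sq, real_inner_comm]

/-- Integral operators with a continuous `L^2`-valued kernel are compact. -/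
theorem exists_compact_operator (ν : Measure ℍ) [IsFiniteMeasure ν] {K : Set ℍ} (hK : IsCompact K)
    (hν : ν Kᶜ = 0) (k : ℍ → Lp ℝ 2 ν) (hk : Continuous k) :
    ∃ T : Lp ℝ 2 ν →L[ℝ] Lp ℝ 2 ν, IsCompactOperator T ∧
      ∀ u : Lp ℝ 2 ν, (T u : ℍ → ℝ) =ᵐ[ν] fun z => inner ℝ (k z) u := by
  have hae : ∀ᵐ z ∂ν, z ∈ K := hν
  obtain ⟨M₀, hM₀⟩ := hK.exists_bound_of_continuousOn hk.continuousOn
  set M := max M₀ 0 with hM
  have hb : ∀ u : Lp ℝ 2 ν, ∀ᵐ z ∂ν, ‖(inner ℝ (k z) u : ℝ)‖ ≤ M * ‖u‖ := fun u => by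
    filter_upwards [hae] with z hz
    refine (norm_inner_le_norm _ _).trans ?_
    gcongr
    exact (hM₀ z hz).trans (le_max_left _ _)
  have hmem : ∀ u : Lp ℝ 2 ν, MemLp (fun z => (inner ℝ (k z) u : ℝ)) 2 ν := fun u =>
    MemLp.of_bound (hk.inner continuous_const).aestronglyMeasurable _ (hb u)
  set c : ℝ := (measureUnivNNReal ν : ℝ) ^ (2 : ℝ≥0∞).toReal⁻¹ with hc
  have hc0 : 0 ≤ c := by positivity
  let L : Lp ℝ 2 ν →ₗ[ℝ] Lp ℝ 2 ν :=
    { toFun := fun u => (hmem u).toLp _
      map_add' := fun u v => by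
        rw [← MemLp.toLp_add]
        exact MemLp.toLp_congr _ _ (Eventually.of_forall fun z => inner_add_right _ _ _)
      map_smul' := fun a u => by
        rw [RingHom.id_apply, ← MemLp.toLp_const_smul]
        exact MemLp.toLp_congr _ _ (Eventually.of_forall fun z => real_inner_smul_right _ _ _) }
  have hL : ∀ u : Lp ℝ 2 ν, (L u : ℍ → ℝ) =ᵐ[ν] fun z => inner ℝ (k z) u := fun u =>
    (hmem u).coeFn_toLp
  have hn : ∀ (u : Lp ℝ 2 ν) (C : ℝ), 0 ≤ C → (∀ᵐ z ∂ν, ‖(inner ℝ (k z) u : ℝ)‖ ≤ C) →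
      ‖L u‖ ≤ c * C := fun u C hC h => by
    refine Lp.norm_le_of_ae_bound hC ?_
    filter_upwards [h, hL u] with z h1 h2
    rwa [h2]
  let T : Lp ℝ 2 ν →L[ℝ] Lp ℝ 2 ν := L.mkContinuous (c * M) fun u => by
    rw [mul_assoc]
    exact hn u _ (by positivity) (hb u)
  refine ⟨T, ?_, hL⟩
  refine isClosed_setOfPred_isCompactOperator.closure_subset
    (Metric.mem_closure_iff.2 fun ε hε => ?_)
  have hδ : 0 < ε / (c + 1) := by positivity
  obtain ⟨t, -, ht, hcov⟩ := (hK.image hk).finite_cover_balls hδ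
  set W := Submodule.span ℝ t with hW
  haveI : FiniteDimensional ℝ W := FiniteDimensional.span_of_finite ℝ ht
  refine ⟨(T ∘L W.subtypeL) ∘L W.orthogonalProjectionOnto, ?_, ?_⟩
  · exact (isCompactOperator_of_locallyCompactSpace_dom W.orthogonalProjectionOnto).clm_comp
      (T ∘L W.subtypeL)
  · rw [dist_eq_norm]
    refine lt_of_le_of_lt (ContinuousLinearMap.opNorm_le_bound _ (M := c * (ε / (c + 1)))
      (by positivity) fun u => ?_) ?_
    · have e1 : (T - (T ∘L W.subtypeL) ∘L W.orthogonalProjectionOnto) u =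
          L (u - W.starProjection u) := by
        rw [map_sub]
        rfl
      rw [e1, mul_assoc]
      refine hn _ _ (by positivity) ?_
      filter_upwards [hae] with z hz
      obtain ⟨h, hh, hz'⟩ := Set.mem_iUnion₂.1 (hcov ⟨z, hz, rfl⟩)
      have e2 : inner ℝ (k z) (u - W.starProjection u) =
          (inner ℝ (k z - h) (u - W.starProjection u) : ℝ) := by
        rw [inner_sub_left, W.sub_starProjection_mem_orthogonal u h (Submodule.subset_span hh),
          sub_zero]
      rw [e2]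
      refine (norm_inner_le_norm _ _).trans (mul_le_mul ?_ ?_ (norm_nonneg _) hδ.le)
      · rw [← dist_eq_norm]
        exact (Metric.mem_ball.1 hz').le
      · rw [← Submodule.starProjection_orthogonal_val]
        exact Wᗮ.norm_starProjection_apply_le u
    · rw [← mul_div_assoc, div_lt_iff₀ (by positivity)]
      nlinarith

end Pool.Agent.P.MP_7a2702_mp
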