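import Pool.Agent.P.MP_7a2702_mp.Kern
import Pool.Agent.P.MP_7a2702_mp.Approx
import Pool.Agent.P.MP_7a2702_mp.Hilbert

set_option autoImplicit false

open scoped MatrixGroups UpperHalfPlane ENNReal ComplexConjugate ContDiff
open MeasureTheory Filter Topology

namespace Pool.Agent.P.MP_7a2702_mp

section Aux

variable {G : Subgroup SL(2, ℝ)}

theorem completeAux_memLp (U : Unf G) {f : ℍ → ℝ} (hf : BC f) : MemLp f 2 U.ν := by
  obtain ⟨hc, M, hM⟩ := hf
  exact MemLp.of_bound hc.aestronglyMeasurable M (Eventually.of_forall fun z => hM z)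

/-- The kernel as an element of `L ^ 2`. -/
noncomputable def completeAuxK (hG : Cocpt G) (U : Unf G) {s : ℕ} (hs : 2 ≤ s) (z : ℍ) :
    Lp ℝ 2 U.ν :=
  (completeAux_memLp U (bc_kern hG U hs z)).toLp (kern G s z)

theorem completeAux_coe (hG : Cocpt G) (U : Unf G) {s : ℕ} (hs : 2 ≤ s) (z : ℍ) :
    (completeAuxK hG U hs z : ℍ → ℝ) =ᵐ[U.ν] kern G s z :=
  MemLp.coeFn_toLp _

theorem completeAux_inner_eq (U : Unf G) (u v : Lp ℝ 2 U.ν) :
    inner ℝ u v = ∫ z, u z * v z ∂U.ν := by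
  rw [L2.inner_def]
  refine integral_congr_ae (Eventually.of_forall fun z => ?_)
  simp [mul_comm]

theorem completeAux_inner (hG : Cocpt G) (U : Unf G) {s : ℕ} (hs : 2 ≤ s) (z : ℍ)
    (u : Lp ℝ 2 U.ν) : inner ℝ (completeAuxK hG U hs z) u = ∫ v, kern G s z v * u v ∂U.ν := by
  rw [completeAux_inner_eq]
  refine integral_congr_ae ?_
  filter_upwards [completeAux_coe hG U hs z] with v hv
  rw [hv]

theorem completeAux_continuous (hG : Cocpt G) (U : Unf G) {s : ℕ} (hs : 2 ≤ s) :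
    Continuous (completeAuxK hG U hs) := by
  obtain ⟨M, hM0, hM⟩ := exists_kern_le hG U
  refine continuous_iff_continuousAt.2 fun z₀ => ?_
  rw [ContinuousAt, tendsto_iff_norm_sub_tendsto_zero]
  set c : ℝ := (measureUnivNNReal U.ν : ℝ) ^ ((2 : ℝ≥0∞).toReal)⁻¹ with hc
  have hb : ∀ z, ‖completeAuxK hG U hs z - completeAuxK hG U hs z₀‖ ≤
      c * ((Real.exp (s * dist z z₀) - 1) * (2 * M)) := by
    intro z
    have h1 : 0 ≤ Real.exp (s * dist z z₀) - 1 := by
      have : 0 ≤ (s : ℝ) * dist z z₀ := by positivity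
      linarith [Real.one_le_exp this]
    refine Lp.norm_le_of_ae_bound (by positivity) ?_
    filter_upwards [Lp.coeFn_sub (completeAuxK hG U hs z) (completeAuxK hG U hs z₀),
      completeAux_coe hG U hs z, completeAux_coe hG U hs z₀] with v h h' h''
    rw [h, Pi.sub_apply, h', h'', Real.norm_eq_abs]
    refine (abs_kern_sub_le hG U hs z z₀ v).trans (mul_le_mul_of_nonneg_left ?_ h1)
    linarith [hM s hs z v, hM s hs z₀ v]
  have ht : Tendsto (fun z => c * ((Real.exp (s * dist z z₀) - 1) * (2 * M))) (𝓝 z₀) (𝓝 0) := by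
    have hcont : Continuous fun z : ℍ => c * ((Real.exp (s * dist z z₀) - 1) * (2 * M)) := by
      fun_prop
    have := hcont.tendsto z₀
    simpa using this
  exact squeeze_zero (fun _ => norm_nonneg _) hb ht

theorem completeAux_inv (hG : Cocpt G) (U : Unf G) {s : ℕ} (hs : 2 ≤ s) (u : Lp ℝ 2 U.ν) :
    Inv G fun z => inner ℝ (completeAuxK hG U hs z) u := by
  intro g hg z
  simp only [completeAux_inner]
  refine integral_congr_ae (Eventually.of_forall fun v => ?_)
  simp only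
  rw [kern_symm s (g • z) v, kern_inv s v g hg z, kern_symm s v z]

theorem completeAux_bc (hG : Cocpt G) (U : Unf G) {s : ℕ} (hs : 2 ≤ s) (u : Lp ℝ 2 U.ν) :
    BC fun z => inner ℝ (completeAuxK hG U hs z) u :=
  hG.bc ((completeAux_continuous hG U hs).inner continuous_const) (completeAux_inv hG U hs u)

theorem completeAux_symm (hG : Cocpt G) (U : Unf G) {s : ℕ} (hs : 2 ≤ s)
    (T : Lp ℝ 2 U.ν →L[ℝ] Lp ℝ 2 U.ν)
    (hT : ∀ u : Lp ℝ 2 U.ν,
      (T u : ℍ → ℝ) =ᵐ[U.ν] fun z => inner ℝ (completeAuxK hG U hs z) u) :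
    (T : Lp ℝ 2 U.ν →ₗ[ℝ] Lp ℝ 2 U.ν).IsSymmetric := by
  obtain ⟨M, hM0, hM⟩ := exists_kern_le hG U
  intro u v
  have hu : Integrable u U.ν := (Lp.memLp u).integrable one_le_two
  have hv : Integrable v U.ν := (Lp.memLp v).integrable one_le_two
  have hint : Integrable (fun p : ℍ × ℍ => kern G s p.1 p.2 * (v p.1 * u p.2)) (U.ν.prod U.ν) := by
    refine (hv.mul_prod hu).bdd_mul (c := M) (continuous_kern hG U hs).aestronglyMeasurable
      (Eventually.of_forall fun p => ?_)
    rw [Real.norm_eq_abs, abs_of_nonneg (kern_nonneg s _ _)]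
    exact hM s hs _ _
  have e1 : inner ℝ (T u) v = ∫ z, ∫ w, kern G s z w * (v z * u w) ∂U.ν ∂U.ν := by
    rw [completeAux_inner_eq]
    refine integral_congr_ae ?_
    filter_upwards [hT u] with z hz
    rw [hz, completeAux_inner, ← integral_mul_const]
    refine integral_congr_ae (Eventually.of_forall fun w => ?_)
    simp only
    ring
  have e2 : inner ℝ u (T v) = ∫ w, ∫ z, kern G s z w * (v z * u w) ∂U.ν ∂U.ν := by
    rw [completeAux_inner_eq]
    refine integral_congr_ae ?_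
    filter_upwards [hT v] with w hw
    rw [hw, completeAux_inner, ← integral_const_mul]
    refine integral_congr_ae (Eventually.of_forall fun z => ?_)
    simp only
    rw [kern_symm s w z]
    ring
  change inner ℝ (T u) v = inner ℝ u (T v)
  rw [e1, e2]
  exact integral_integral_swap hint

theorem completeAux_avg (hG : Cocpt G) (U : Unf G) {s : ℕ} (hs : 2 ≤ s) {f : ℍ → ℝ} (hf : BC f)
    (hi : Inv G f) {u : Lp ℝ 2 U.ν} (hu : (u : ℍ → ℝ) =ᵐ[U.ν] f) (z : ℍ) :
    inner ℝ (completeAuxK hG U hs z) u = avg s f z := by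
  rw [completeAux_inner, ← integral_kern_mul hG U hs hf hi]
  refine integral_congr_ae ?_
  filter_upwards [hu] with v hv
  rw [hv]

theorem completeAux_eq_zero (hG : Cocpt G) (U : Unf G) {g : ℍ → ℝ} (hg : BC g) (hi : Inv G g)
    (h : g =ᵐ[U.ν] 0) (z : ℍ) : g z = 0 := by
  have h1 : ∀ t : ℕ, 2 ≤ t → avg t g z / mass t = 0 := by
    intro t ht
    rw [← integral_kern_mul hG U ht hg hi]
    have : ∫ w, kern G t z w * g w ∂U.ν = ∫ _w, (0 : ℝ) ∂U.ν := by
      refine integral_congr_ae ?_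
      filter_upwards [h] with v hv
      rw [hv]
      simp
    rw [this]
    simp
  have h2 : Tendsto (fun t : ℕ => avg t g z / mass t) atTop (𝓝 0) :=
    tendsto_const_nhds.congr' (eventually_atTop.2 ⟨2, fun t ht => (h1 t ht).symm⟩)
  exact tendsto_nhds_unique (tendsto_avg hg z) h2

theorem completeAux_bc_mul {f : ℍ → ℝ} (hf : BC f) (c : ℝ) : BC fun z => c * f z := by
  obtain ⟨hc, M, hM⟩ := hf
  refine ⟨continuous_const.mul hc, |c| * M, fun z => ?_⟩
  rw [abs_mul]
  exact mul_le_mul_of_nonneg_left (hM z) (abs_nonneg c)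

theorem completeAux_bc_sub {f g : ℍ → ℝ} (hf : BC f) (hg : BC g) : BC fun z => f z - g z := by
  obtain ⟨hc, M, hM⟩ := hf
  obtain ⟨hc', M', hM'⟩ := hg
  refine ⟨hc.sub hc', M + M', fun z => ?_⟩
  exact (abs_sub _ _).trans (add_le_add (hM z) (hM' z))

theorem completeAux_avg_mul (s : ℕ) (c : ℝ) (f : ℍ → ℝ) (z : ℍ) :
    avg s (fun w => c * f w) z = c * avg s f z := by
  rw [avg, avg, ← integral_const_mul]
  refine integral_congr_ae (Eventually.of_forall fun w => ?_)
  simp only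
  ring

/-- An eigenvector with nonzero eigenvalue is represented by a continuous invariant function. -/
theorem completeAux_rep (hG : Cocpt G) (U : Unf G) {s : ℕ} (hs : 2 ≤ s)
    (T : Lp ℝ 2 U.ν →L[ℝ] Lp ℝ 2 U.ν)
    (hT : ∀ u : Lp ℝ 2 U.ν,
      (T u : ℍ → ℝ) =ᵐ[U.ν] fun z => inner ℝ (completeAuxK hG U hs z) u)
    {u : Lp ℝ 2 U.ν} {κ : ℝ} (hκ : κ ≠ 0) (hu : T u = κ • u) :
    ∃ f : ℍ → ℝ, BC f ∧ Inv G f ∧ (u : ℍ → ℝ) =ᵐ[U.ν] f ∧ ∀ z, avg s f z = κ * f z := by
  have hb : BC fun z => κ⁻¹ * inner ℝ (completeAuxK hG U hs z) u :=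
    completeAux_bc_mul (completeAux_bc hG U hs u) _
  have hi : Inv G fun z => κ⁻¹ * inner ℝ (completeAuxK hG U hs z) u := by
    intro g hg z
    have := completeAux_inv hG U hs u g hg z
    simp only at this ⊢
    rw [this]
  have hae : (u : ℍ → ℝ) =ᵐ[U.ν] fun z => κ⁻¹ * inner ℝ (completeAuxK hG U hs z) u := by
    have h1 := hT u
    rw [hu] at h1
    filter_upwards [h1, Lp.coeFn_smul κ u] with z hz hz'
    rw [← hz, hz', Pi.smul_apply, smul_eq_mul, ← mul_assoc, inv_mul_cancel₀ hκ, one_mul]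
  refine ⟨_, hb, hi, hae, fun z => ?_⟩
  rw [← completeAux_avg hG U hs hb hi hae z, ← mul_assoc, mul_inv_cancel₀ hκ, one_mul]

end Aux

/-- Completeness of the eigenfunctions. -/
theorem complete {G : Subgroup SL(2, ℝ)} (hG : Cocpt G) (U : Unf G) {s : ℕ} (hs : 3 ≤ s)
    (w : Lp ℝ 2 U.ν) (hw : ∀ μ : ℝ, ∀ f ∈ eigenSpace ℝ G μ, ∫ z, f z * w z ∂U.ν = 0) (z : ℍ) :
    ∫ v, kern G s z v * w v ∂U.ν = 0 := by
  have hs2 : 2 ≤ s := by omega
  have hs2' : 2 ≤ s + 1 := by omega
  obtain ⟨T, hTc, hT⟩ := exists_compact_operator U.ν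
    (isCompact_closedBall UpperHalfPlane.I U.R) U.supp _ (completeAux_continuous hG U hs2)
  obtain ⟨T', -, hT'⟩ := exists_compact_operator U.ν
    (isCompact_closedBall UpperHalfPlane.I U.R) U.supp _ (completeAux_continuous hG U hs2')
  have key : T w = 0 := by
    refine apply_eq_zero_of_orth T T' hTc (completeAux_symm hG U hs2 T hT)
      (completeAux_symm hG U hs2' T' hT') ?_ w ?_
    · intro u κ hκ hu
      obtain ⟨f, hb, hi, hae, hf⟩ := completeAux_rep hG U hs2 T hT hκ hu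
      have h1 : (T' u : ℍ → ℝ) =ᵐ[U.ν] avg (s + 1) f := by
        filter_upwards [hT' u] with v hv
        rw [hv, completeAux_avg hG U hs2' hb hi hae]
      refine Lp.ext ?_
      filter_upwards [hT (T' u), h1, Lp.coeFn_smul κ (T' u)] with v hv hv' hv''
      rw [hv, hv'', Pi.smul_apply, hv', smul_eq_mul,
        completeAux_avg hG U hs2 (hb.avg hs2') (hi.avg _) h1, avg_comm hb hs,
        ← completeAux_avg_mul]
      congr 1
      exact funext hf
    · intro u κ κ' hκ hu hu'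
      obtain ⟨f, hb, hi, hae, hf⟩ := completeAux_rep hG U hs2 T hT hκ hu
      have h1 : (fun v => avg (s + 1) f v - κ' * f v) =ᵐ[U.ν] 0 := by
        have h2 := hT' u
        rw [hu'] at h2
        filter_upwards [h2, Lp.coeFn_smul κ' u, hae] with v hv hv' hv''
        rw [← completeAux_avg hG U hs2' hb hi hae v, ← hv, hv', Pi.smul_apply, hv'', smul_eq_mul,
          sub_self, Pi.zero_apply]
      have h3 : ∀ v, avg (s + 1) f v = κ' * f v := by
        intro v
        refine sub_eq_zero.1 (completeAux_eq_zero hG U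
          (completeAux_bc_sub (hb.avg hs2') (completeAux_bc_mul hb κ')) ?_ h1 v)
        intro g hg y
        simp only
        rw [hi.avg (s + 1) g hg y, hi g hg y]
      have hmem : avg s f ∈ eigenSpace ℝ G ((s : ℝ) ^ 2 * κ' / κ - (s : ℝ) * ((s : ℝ) - 1)) := by
        refine mem_eigenSpace.2 ⟨smooth_avg hb hs2, hi.avg s, fun v => ?_⟩
        rw [lap_avg hb hs2, h3, hf]
        field_simp
        ring
      have h4 := hw _ _ hmem
      have h5 : ∫ v, avg s f v * w v ∂U.ν = κ * inner ℝ u w := by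
        rw [completeAux_inner_eq, ← integral_const_mul]
        refine integral_congr_ae ?_
        filter_upwards [hae] with v hv
        rw [hv, hf, mul_assoc]
      rw [h5] at h4
      exact (mul_eq_zero.1 h4).resolve_left hκ
  rw [← completeAux_inner hG U hs2]
  refine completeAux_eq_zero hG U (completeAux_bc hG U hs2 w) (completeAux_inv hG U hs2 w) ?_ z
  have h := hT w
  rw [key] at h
  filter_upwards [h, Lp.coeFn_zero ℝ 2 U.ν] with v hv hv'
  rw [← hv, hv']

end Pool.Agent.P.MP_7a2702_mp
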