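import Pool.Agent.P.MP_7a2702_mp.Basic

set_option autoImplicit false

open scoped MatrixGroups UpperHalfPlane ENNReal ComplexConjugate ContDiff
open MeasureTheory Filter Topology

namespace Pool.Agent.P.MP_7a2702_mp

/-- An infinite linear order with finite initial segments is order isomorphic to `ℕ`. -/
theorem countAux_orderIso {T : Type} [LinearOrder T] [Infinite T]
    (h : ∀ p : T, (Set.Iic p).Finite) : Nonempty (T ≃o ℕ) := by
  classical
  let : LocallyFiniteOrder T :=
    LocallyFiniteOrder.ofFiniteIcc fun a b => (h b).subset Set.Icc_subset_Iic_self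
  let := LinearLocallyFiniteOrder.succOrder T
  let := LinearLocallyFiniteOrder.predOrder T
  have : NoMaxOrder T := ⟨fun a => by
    by_contra hc
    push Not at hc
    exact Set.infinite_univ ((h a).subset fun b _ => hc b)⟩
  obtain ⟨p⟩ : Nonempty T := inferInstance
  obtain ⟨b, hb, hmin⟩ := Set.exists_min_image (Set.Iic p) id (h p) ⟨p, le_refl p⟩
  let : OrderBot T :=
    { bot := b
      bot_le := fun a => by
        rcases le_total a p with h1 | h1
        · exact hmin a h1
        · exact le_trans hb h1 }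
  exact ⟨orderIsoNatOfLinearSuccPredArch⟩

/-- A locally finite infinite multiset of nonnegative reals can be listed in increasing order. -/
theorem exists_listing (m : ℝ → ℕ) (hfin : ∀ L : ℝ, {t : ℝ | 0 ≤ t ∧ t ≤ L ∧ m t ≠ 0}.Finite)
    (hinf : {t : ℝ | 0 ≤ t ∧ m t ≠ 0}.Infinite) :
    ∃ l : ℕ → ℝ, Monotone l ∧ (∀ k, 0 ≤ l k) ∧ Tendsto l atTop atTop ∧
      ∀ t : ℝ, 0 ≤ t → {k | l k = t}.ncard = m t := by
  classical
  let T : Type := {p : Lex (ℝ × ℕ) // 0 ≤ (ofLex p).1 ∧ (ofLex p).2 < m (ofLex p).1}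
  have hle : ∀ L : ℝ, {p : T | (ofLex p.1).1 ≤ L}.Finite := by
    intro L
    have h1 : (⋃ t ∈ {t : ℝ | 0 ≤ t ∧ t ≤ L ∧ m t ≠ 0},
        (fun j : ℕ => toLex (t, j)) '' Set.Iio (m t)).Finite :=
      (hfin L).biUnion fun t _ => (Set.finite_Iio _).image _
    refine Set.Finite.of_finite_image (f := Subtype.val) (h1.subset ?_)
      Subtype.val_injective.injOn
    rintro _ ⟨p, hp, rfl⟩
    simp only [Set.mem_iUnion]
    exact ⟨(ofLex p.1).1, ⟨p.2.1, hp, by have := p.2.2; omega⟩, (ofLex p.1).2, p.2.2, rfl⟩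
  have hmono : Monotone fun p : T => (ofLex p.1).1 := fun p q hpq =>
    Prod.Lex.monotone_fst p.1 q.1 hpq
  have : Infinite T := by
    have := hinf.to_subtype
    refine Infinite.of_injective
      (fun t : {t : ℝ | 0 ≤ t ∧ m t ≠ 0} =>
        (⟨toLex (t.1, 0), t.2.1, Nat.pos_of_ne_zero t.2.2⟩ : T)) ?_
    intro a b hab
    exact Subtype.ext (congrArg (fun p : T => (ofLex p.1).1) hab)
  obtain ⟨e⟩ := countAux_orderIso (T := T) fun p => (hle (ofLex p.1).1).subset fun q hq => hmono hq
  refine ⟨fun k => (ofLex (e.symm k).1).1, hmono.comp e.symm.monotone, fun k => (e.symm k).2.1,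
    ?_, fun t ht => ?_⟩
  · rw [← Nat.cofinite_eq_atTop, tendsto_atTop]
    intro L
    rw [eventually_cofinite]
    refine ((hle L).image e).subset fun k hk => ⟨e.symm k, ?_, e.apply_symm_apply k⟩
    exact le_of_lt (not_le.1 hk)
  · have h1 : {k | (ofLex (e.symm k).1).1 = t} =
        Set.range fun j : Fin (m t) => e (⟨toLex (t, j.1), ht, j.2⟩ : T) := by
      ext k
      constructor
      · intro hk
        have hk' : (ofLex (e.symm k).1).1 = t := hk
        refine ⟨⟨(ofLex (e.symm k).1).2, hk' ▸ (e.symm k).2.2⟩, ?_⟩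
        rw [← e.eq_symm_apply]
        apply Subtype.ext
        subst hk'
        rfl
      · rintro ⟨j, rfl⟩
        simp
    rw [h1, Set.ncard_range_of_injective, Nat.card_eq_fintype_card, Fintype.card_fin]
    intro a b hab
    have h2 := congrArg (fun p : T => (ofLex p.1).2) (e.injective hab)
    exact Fin.ext h2

end Pool.Agent.P.MP_7a2702_mp
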