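import Pool.Agent.P.MP_7a2702_mp.Basic

set_option autoImplicit false

open scoped MatrixGroups UpperHalfPlane ENNReal ComplexConjugate ContDiff
open MeasureTheory Filter Topology

namespace Pool.Agent.P.MP_7a2702_mp

theorem countB_abel (u v : ℕ → ℝ) {D : ℝ} (hu : ∀ N, ∑ k ∈ Finset.range N, u k ≤ D)
    (hv : Antitone v) (hv0 : ∀ k, 0 ≤ v k) (hv1 : v 0 ≤ 1) (K : ℕ) :
    ∑ k ∈ Finset.range K, u k * v k ≤ D := by
  have hD : 0 ≤ D := by simpa using hu 0
  have key : ∀ K, ∑ k ∈ Finset.range K, u k * v k ≤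
      D * (v 0 - v K) + (∑ k ∈ Finset.range K, u k) * v K := by
    intro K
    induction K with
    | zero => simp
    | succ K ih =>
      have h1 := hu (K + 1)
      have h2 : v (K + 1) ≤ v K := hv (Nat.le_succ K)
      rw [Finset.sum_range_succ] at h1
      rw [Finset.sum_range_succ, Finset.sum_range_succ]
      nlinarith [mul_nonneg (sub_nonneg.2 h1) (sub_nonneg.2 h2)]
  have h1 := key K
  have h2 := mul_le_mul_of_nonneg_right (hu K) (hv0 K)
  have h3 := mul_le_mul_of_nonneg_left hv1 hD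
  nlinarith

open scoped Classical in
theorem countB_card (l : ℕ → ℝ) (hl : Monotone l) (A : ℝ) {ε : ℝ} (hε : 0 ≤ ε) {N : ℕ}
    (hN : 0 < N) :
    (((Finset.range N).filter fun k => ∃ j, j ≠ k ∧ l j = l k).card : ℝ) ≤
      N * pairCorr A l (-ε) ε N + 1 := by
  set S : Set (ℕ × ℕ) := {p : ℕ × ℕ | p.1 < N ∧ p.2 < N ∧ p.1 ≠ p.2 ∧
    -ε ≤ level A l p.1 - level A l p.2 ∧ level A l p.1 - level A l p.2 ≤ ε} with hS
  have hfin : S.Finite :=
    (Set.toFinite ((Finset.range N ×ˢ Finset.range N : Finset (ℕ × ℕ)) : Set (ℕ × ℕ))).subset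
      fun p hp => by simpa using ⟨hp.1, hp.2.1⟩
  have hmem : ∀ j k, j < N → k < N → j ≠ k → l j = l k → (j, k) ∈ S := by
    intro j k hj hk hne he
    refine ⟨hj, hk, hne, ?_, ?_⟩ <;> simp [level, he, hε]
  have hsub : ((Finset.range N).filter fun k => ∃ j, j ≠ k ∧ l j = l k) ⊆
      insert (N - 1) (hfin.toFinset.image Prod.snd) := by
    intro k hk
    obtain ⟨hk, j, hne, he⟩ := Finset.mem_filter.1 hk
    rw [Finset.mem_range] at hk
    rw [Finset.mem_insert, Finset.mem_image]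
    by_cases hj : j < N
    · exact Or.inr ⟨(j, k), hfin.mem_toFinset.2 (hmem j k hj hk hne he), rfl⟩
    · by_cases hk' : k + 1 < N
      · refine Or.inr ⟨(k + 1, k), hfin.mem_toFinset.2 (hmem _ k hk' hk (by omega) ?_), rfl⟩
        exact le_antisymm (he ▸ hl (by omega)) (hl (Nat.le_succ k))
      · left; omega
  have h1 := (Finset.card_le_card hsub).trans
    ((Finset.card_insert_le _ _).trans (Nat.add_le_add_right Finset.card_image_le 1))
  rw [← Set.ncard_eq_toFinset_card S hfin] at h1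
  have hN' : (N : ℝ) ≠ 0 := by exact_mod_cast hN.ne'
  have h2 : (N : ℝ) * pairCorr A l (-ε) ε N = S.ncard := by
    rw [pairCorr, mul_div_cancel₀ _ hN']
  rw [h2]
  exact_mod_cast h1

/-- Abel summation: multiple levels have positive upper density, so the pair correlation is not
Poissonian. -/
theorem not_poisson (l : ℕ → ℝ) (hl : Monotone l) (hl0 : ∀ k, 0 ≤ l k)
    (hlt : Tendsto l atTop atTop) (w : ℕ → ℝ → ℝ)
    (hw0 : ∀ s, 3 ≤ s → ∀ t, 0 ≤ t → 0 ≤ w s t ∧ w s t ≤ 1)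
    (hwa : ∀ s, 3 ≤ s → AntitoneOn (w s) (Set.Ici 0)) {C c : ℝ} (hc : 0 < c)
    (hU : ∀ s : ℕ, 3 ≤ s → ∀ N : ℕ, ∑ k ∈ Finset.range N, w s (l k) ≤ C * s)
    (hL : ∀ᶠ s : ℕ in atTop, ∃ F : Finset ℕ, (∀ k ∈ F, ∃ j, j ≠ k ∧ l j = l k) ∧
      c * s ≤ ∑ k ∈ F, w s (l k)) :
    ∃ a b : ℝ, a < b ∧ ∀ A : ℝ, ¬ Tendsto (pairCorr A l a b) atTop (𝓝 (b - a)) := by
  classical
  have _ := hlt
  set ε : ℝ := c / (8 * (|C| + 1)) with hεdef
  have hε : 0 < ε := by positivity
  refine ⟨-ε, ε, by linarith, fun A hA => ?_⟩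
  have h1 : ∀ᶠ N : ℕ in atTop, pairCorr A l (-ε) ε N < 3 * ε :=
    hA.eventually (gt_mem_nhds (by linarith))
  have h2 : ∀ᶠ N : ℕ in atTop, 1 / ε ≤ (N : ℝ) :=
    tendsto_natCast_atTop_atTop.eventually_ge_atTop _
  obtain ⟨N₀, hN₀⟩ := eventually_atTop.1 (h1.and (h2.and (eventually_gt_atTop 0)))
  set u : ℕ → ℝ := fun k => (if ∃ j, j ≠ k ∧ l j = l k then 1 else 0) - 4 * ε with hu
  have hsum : ∀ N, ∑ k ∈ Finset.range N, u k ≤ N₀ := by
    intro N
    have e : ∑ k ∈ Finset.range N, u k =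
        (((Finset.range N).filter fun k => ∃ j, j ≠ k ∧ l j = l k).card : ℝ) - 4 * ε * N := by
      simp only [hu, Finset.sum_sub_distrib, Finset.sum_const, Finset.card_range, nsmul_eq_mul,
        Finset.sum_boole]
      ring
    rw [e]
    have hN0 : (0 : ℝ) ≤ N := Nat.cast_nonneg N
    have hN00 : (0 : ℝ) ≤ N₀ := Nat.cast_nonneg N₀
    by_cases hN : N₀ ≤ N
    · obtain ⟨h3, h4, h5⟩ := hN₀ N hN
      have h6 := countB_card l hl A hε.le h5
      have h7 : 1 ≤ ε * N := by rwa [div_le_iff₀' hε] at h4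
      nlinarith [mul_le_mul_of_nonneg_left h3.le hN0]
    · have h3 : (((Finset.range N).filter fun k => ∃ j, j ≠ k ∧ l j = l k).card : ℝ) ≤ N₀ := by
        have := (Finset.card_filter_le (Finset.range N) fun k => ∃ j, j ≠ k ∧ l j = l k)
        rw [Finset.card_range] at this
        exact_mod_cast this.trans (by omega)
      nlinarith [mul_nonneg hε.le hN0]
  have h3 : ∀ᶠ s : ℕ in atTop, 2 * (N₀ : ℝ) / c < (s : ℝ) :=
    tendsto_natCast_atTop_atTop.eventually_gt_atTop _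
  obtain ⟨s, ⟨F, hF, hcs⟩, hs, hs3⟩ := (hL.and (h3.and (eventually_ge_atTop 3))).exists
  set K := F.sup id + 1 with hK
  have hFK : F ⊆ Finset.range K := fun k hk =>
    Finset.mem_range.2 (Nat.lt_succ_of_le (Finset.le_sup (f := id) hk))
  have hv0 : ∀ k, 0 ≤ w s (l k) := fun k => (hw0 s hs3 _ (hl0 k)).1
  have h4 := countB_abel u (fun k => w s (l k)) hsum
    (fun j k hjk => hwa s hs3 (hl0 j) (hl0 k) (hl hjk)) hv0 (hw0 s hs3 _ (hl0 0)).2 K
  have h5 : ∑ k ∈ F, w s (l k) ≤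
      ∑ k ∈ Finset.range K, u k * w s (l k) + 4 * ε * ∑ k ∈ Finset.range K, w s (l k) := by
    rw [Finset.mul_sum, ← Finset.sum_add_distrib]
    calc ∑ k ∈ F, w s (l k) = ∑ k ∈ F, (u k * w s (l k) + 4 * ε * w s (l k)) := by
          refine Finset.sum_congr rfl fun k hk => ?_
          simp only [hu, if_pos (hF k hk)]
          ring
      _ ≤ _ := by
          refine Finset.sum_le_sum_of_subset_of_nonneg hFK fun k _ _ => ?_
          have := hv0 k
          simp only [hu]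
          split_ifs <;> nlinarith
  have h6 := mul_le_mul_of_nonneg_left (hU s hs3 K) (by positivity : 0 ≤ 4 * ε)
  have hs0 : (0 : ℝ) ≤ s := Nat.cast_nonneg s
  have h7 : 4 * ε * C ≤ c / 2 := by
    have h8 : ε * (8 * (|C| + 1)) = c := by rw [hεdef]; field_simp
    nlinarith [le_abs_self C]
  rw [div_lt_iff₀ hc] at hs
  nlinarith [mul_le_mul_of_nonneg_right h7 hs0]

end Pool.Agent.P.MP_7a2702_mp
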