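import Mathlib

/-!
Definitions used in the statement: cocompact arithmetic Fuchsian groups, the eigenspaces of the
hyperbolic Laplacian, the spectrum listed with multiplicity, and the pair correlation function.
-/

set_option autoImplicit false

open scoped MatrixGroups UpperHalfPlane ContDiff

namespace Pool.Agent.P.MP_7a2702_mp

/-- The full preimage in `SL(2, ℝ)` of a subgroup of `PSL(2, ℝ)`; it acts on the upper half-plane
through Moebius transformations. -/
def cover (Γ : Subgroup PSL(2, ℝ)) : Subgroup SL(2, ℝ) :=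
  Γ.comap (QuotientGroup.mk' (Subgroup.center SL(2, ℝ)))

/-- `Γ` is discrete and the quotient of the upper half-plane by `Γ` is compact. -/
def IsCocompactFuchsian (Γ : Subgroup PSL(2, ℝ)) : Prop :=
  DiscreteTopology (cover Γ) ∧
    ∃ K : Set ℍ, IsCompact K ∧ ∀ z : ℍ, ∃ g ∈ cover Γ, g • z ∈ K

/-- `O` is an order of the quaternion algebra `(a, b)` over the number field `K`: a subring that
contains the integers of `K`, is finitely generated as an abelian group and spans the algebra. -/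
def IsOrder {K : Type} [Field K] {a b : K} (O : Subring (QuaternionAlgebra K a 0 b)) : Prop :=
  (∀ x : K, IsIntegral ℤ x → algebraMap K (QuaternionAlgebra K a 0 b) x ∈ O) ∧
    O.toAddSubgroup.FG ∧ Submodule.span K (O : Set (QuaternionAlgebra K a 0 b)) = ⊤

/-- The ring homomorphism `ρ` from the quaternion algebra `(a, b)` to the real `2 × 2` matrices
extends the real place `φ`; it exhibits the algebra as split at `φ`. -/
def Extends {K : Type} [Field K] {a b : K}
    (ρ : QuaternionAlgebra K a 0 b →+* Matrix (Fin 2) (Fin 2) ℝ) (φ : K →+* ℝ) : Prop :=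
  ∀ x : K, ρ (algebraMap K (QuaternionAlgebra K a 0 b) x) = Matrix.scalar (Fin 2) (φ x)

/-- `G` is the image under `ρ` of the group of norm one elements of `O`. -/
def IsNormOneImage {K : Type} [Field K] {a b : K}
    (ρ : QuaternionAlgebra K a 0 b →+* Matrix (Fin 2) (Fin 2) ℝ)
    (O : Subring (QuaternionAlgebra K a 0 b)) (G : Subgroup SL(2, ℝ)) : Prop :=
  ∀ g : SL(2, ℝ), g ∈ G ↔ ∃ x ∈ O, x * star x = 1 ∧ ρ x = (g : Matrix (Fin 2) (Fin 2) ℝ)

/-- `Γ` is commensurable with the image in `PSL(2, ℝ)` of the group of norm one units of an order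
`O` in a quaternion algebra `(a, b)` over a totally real number field `K` which is split at the
real place `φ` (through `ρ`) and ramified at all other real places. -/
def IsArithmetic (Γ : Subgroup PSL(2, ℝ)) : Prop :=
  ∃ (K : Type) (_ : Field K) (_ : NumberField K) (_ : NumberField.IsTotallyReal K) (a b : K)
    (φ : K →+* ℝ) (ρ : QuaternionAlgebra K a 0 b →+* Matrix (Fin 2) (Fin 2) ℝ)
    (O : Subring (QuaternionAlgebra K a 0 b)) (Λ : Subgroup PSL(2, ℝ)),
    a ≠ 0 ∧ b ≠ 0 ∧ Extends ρ φ ∧ (∀ ψ : K →+* ℝ, ψ ≠ φ → ψ a < 0 ∧ ψ b < 0) ∧ IsOrder O ∧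
    IsNormOneImage ρ O (cover Λ) ∧ Subgroup.Commensurable Γ Λ

/-- The identity is the only element of finite order of `Γ`. -/
def NoTorsion (Γ : Subgroup PSL(2, ℝ)) : Prop :=
  ∀ g ∈ Γ, IsOfFinOrder g → g = 1

/-- `Γ` is its own normaliser in `PSL(2, ℝ)`. -/
def SelfNormalising (Γ : Subgroup PSL(2, ℝ)) : Prop :=
  Subgroup.normalizer (Γ : Set PSL(2, ℝ)) = Γ

/-- `f` is a smooth function on the upper half-plane. -/
def Smooth {E : Type} [NormedAddCommGroup E] [NormedSpace ℝ E] (f : ℍ → E) : Prop :=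
  ContDiffOn ℝ ∞ (f ∘ UpperHalfPlane.ofComplex) {w : ℂ | 0 < w.im}

/-- The Laplace-Beltrami operator `y ^ 2 (d^2/dx^2 + d^2/dy^2)` of the hyperbolic plane. -/
noncomputable def hypLaplacian {E : Type} [NormedAddCommGroup E] [NormedSpace ℝ E] (f : ℍ → E)
    (z : ℍ) : E :=
  (z.im ^ 2 : ℝ) • Laplacian.laplacian (f ∘ UpperHalfPlane.ofComplex : ℂ → E) (z : ℂ)

theorem Smooth.contDiffAt {E : Type} [NormedAddCommGroup E] [NormedSpace ℝ E] {f : ℍ → E}
    (hf : Smooth f) (z : ℍ) : ContDiffAt ℝ 2 (f ∘ UpperHalfPlane.ofComplex) (z : ℂ) :=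
  (ContDiffOn.contDiffAt hf
    ((isOpen_lt continuous_const Complex.continuous_im).mem_nhds z.im_pos)).of_le
      (WithTop.coe_le_coe.2 le_top : ((2 : ℕ∞) : WithTop ℕ∞) ≤ ∞)

/-- The eigenspace of `-Δ` for the eigenvalue `μ` on the quotient of the upper half-plane by `G`:
smooth `G`-invariant functions `f` with values in `𝕜` and `-Δ f = μ f`. -/
def eigenSpace (𝕜 : Type) [RCLike 𝕜] (G : Subgroup SL(2, ℝ)) (μ : ℝ) : Submodule 𝕜 (ℍ → 𝕜) where
  carrier := {f | Smooth f ∧ (∀ g ∈ G, ∀ z : ℍ, f (g • z) = f z) ∧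
    ∀ z : ℍ, -hypLaplacian f z = (μ : 𝕜) * f z}
  zero_mem' := by
    refine ⟨contDiffOn_const (c := (0 : 𝕜)), fun _ _ _ => rfl, fun z => ?_⟩
    have h : ((0 : ℍ → 𝕜) ∘ UpperHalfPlane.ofComplex : ℂ → 𝕜) = fun _ => 0 := rfl
    simp [hypLaplacian, h]
  add_mem' := by
    rintro f g ⟨hf, hf', hf''⟩ ⟨hg, hg', hg''⟩
    refine ⟨ContDiffOn.add hf hg, fun γ hγ z => by simp [hf' γ hγ, hg' γ hγ], fun z => ?_⟩
    have h := (hf.contDiffAt z).laplacian_add (hg.contDiffAt z)
    have h' : hypLaplacian (f + g) z = hypLaplacian f z + hypLaplacian g z := by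
      rw [hypLaplacian, hypLaplacian, hypLaplacian, ← smul_add, ← h]
      rfl
    rw [h', neg_add, hf'', hg'', Pi.add_apply, mul_add]
  smul_mem' := by
    rintro c f ⟨hf, hf', hf''⟩
    refine ⟨ContDiffOn.const_smul c hf, fun γ hγ z => by simp [hf' γ hγ], fun z => ?_⟩
    have h := InnerProductSpace.laplacian_smul c (hf.contDiffAt z)
    have h' : hypLaplacian (c • f) z = c • hypLaplacian f z := by
      rw [hypLaplacian, hypLaplacian, smul_comm, ← h]
      rfl
    rw [h', ← smul_neg, hf'', Pi.smul_apply, smul_eq_mul, smul_eq_mul]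
    ring

/-- `l 0 ≤ l 1 ≤ ... → ∞` lists the spectrum of `P = sqrt (-Δ)` on the quotient of the upper
half-plane by `Γ` with multiplicity. -/
def IsSpectrum (Γ : Subgroup PSL(2, ℝ)) (l : ℕ → ℝ) : Prop :=
  Monotone l ∧ (∀ k, 0 ≤ l k) ∧ Filter.Tendsto l Filter.atTop Filter.atTop ∧
    ∀ t : ℝ, 0 ≤ t → FiniteDimensional ℂ (eigenSpace ℂ (cover Γ) (t ^ 2)) ∧
      {k | l k = t}.ncard = Module.finrank ℂ (eigenSpace ℂ (cover Γ) (t ^ 2))

/-- The unfolded level `x k = A * l k ^ 2 / (4 π)`, where `A` stands for the area. -/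
noncomputable def level (A : ℝ) (l : ℕ → ℝ) (k : ℕ) : ℝ := A * l k ^ 2 / (4 * Real.pi)

/-- `R_2(N; [a, b])`: the number of pairs `j ≠ k` below `N` with `a ≤ x j - x k ≤ b`, divided
by `N`. -/
noncomputable def pairCorr (A : ℝ) (l : ℕ → ℝ) (a b : ℝ) (N : ℕ) : ℝ :=
  ({p : ℕ × ℕ | p.1 < N ∧ p.2 < N ∧ p.1 ≠ p.2 ∧ a ≤ level A l p.1 - level A l p.2 ∧
    level A l p.1 - level A l p.2 ≤ b}.ncard : ℝ) / N

end Pool.Agent.P.MP_7a2702_mp
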