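import Pool.Agent.P.MP_7a2702_mp.Order

set_option autoImplicit false

open scoped MatrixGroups

namespace Pool.Agent.P.MP_7a2702_mp

/-- The norm form with natural coefficients. -/
def fin7N (a b c d : ℕ) : ℕ := (1 * a * a + 1 * a * b + 6 * b * b + 1 * c * c + 1 * c * d + 6 * d * d) % 7

theorem fin7N_cast (a b c d : ℕ) :
    ((fin7N a b c d : ℕ) : ZMod 7) = nrd (⟨a, b, c, d⟩ : Qu (ZMod 7)) := by
  have h : (7 : ZMod 7) = 0 := rfl
  simp only [fin7N, ZMod.natCast_mod, nrd]
  push_cast
  linear_combination (1 * b * b + 2 * c * c + 2 * c * d + (-1) * d * d) * h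

/-- A coordinate of the conjugate. -/
def fin7P10 (a b c d : ℕ) : ℕ := 1 * a * a + 1 * a * b + 4 * a * c + 4 * a * d + 6 * b * b + 3 * b * d + 5 * c * c + 5 * c * d + 2 * d * d

/-- A coordinate of the conjugate. -/
def fin7P11 (a b c d : ℕ) : ℕ := 4 * a * a + 4 * a * b + 6 * a * c + 6 * a * d + 3 * b * b + 1 * b * d + 3 * c * c + 3 * c * d + 4 * d * d

/-- A coordinate of the conjugate. -/
def fin7P12 (a b c d : ℕ) : ℕ := 4 * a * a + 6 * a * b + 4 * a * c + 6 * a * d + 6 * b * c + 3 * b * d + 1 * c * d + 4 * d * d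

/-- A coordinate of the conjugate. -/
def fin7P13 (a b c d : ℕ) : ℕ := 3 * a * a + 6 * a * c + 3 * a * d + 3 * b * b + 3 * b * c + 2 * b * d + 4 * c * c + 1 * c * d + 1 * d * d

theorem fin7P1_cast (a b c d : ℕ) :
    (⟨a, b, c, d⟩ : Qu (ZMod 7)) * red 7 ⟨8, 18, -24, -39⟩ * star ⟨a, b, c, d⟩ =
      ⟨(fin7P10 a b c d : ℕ), (fin7P11 a b c d : ℕ), (fin7P12 a b c d : ℕ), (fin7P13 a b c d : ℕ)⟩ := by
  have h : (7 : ZMod 7) = 0 := rfl
  ext <;> simp only [fin7P10, fin7P11, fin7P12, fin7P13, red_apply, QuaternionAlgebra.mk_mul_mk,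
    QuaternionAlgebra.star_mk] <;> push_cast
  · linear_combination (1 * a * a + 1 * a * b + (-73) * a * c + 44 * a * d + (-2) * b * b + (-117) * b * c + 72 * b * d + (-49) * c * c + (-49) * c * d + 48 * d * d) * h
  · linear_combination (2 * a * a + 2 * a * b + 144 * a * c + (-90) * a * d + (-3) * b * b + 234 * b * c + (-145) * b * d + 33 * c * c + 33 * c * d + (-34) * d * d) * h
  · linear_combination ((-4) * a * a + (-12) * a * b + 2 * a * c + (-6) * a * d + (-9) * b * b + (-6) * b * c + (-3) * b * d + 117 * c * c + (-145) * c * d + 44 * d * d) * h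
  · linear_combination ((-6) * a * a + (-18) * a * b + (-6) * a * c + (-3) * a * d + (-15) * b * b + (-3) * b * c + (-8) * b * d + (-73) * c * c + 89 * c * d + (-28) * d * d) * h

/-- A coordinate of the conjugate. -/
def fin7P20 (a b c d : ℕ) : ℕ := 4 * a * a + 4 * a * b + 2 * a * d + 3 * b * b + 5 * b * c + 3 * c * c + 3 * c * d + 4 * d * d

/-- A coordinate of the conjugate. -/
def fin7P21 (a b c d : ℕ) : ℕ := 6 * a * a + 6 * a * b + 3 * a * d + 1 * b * b + 4 * b * c + 1 * c * c + 1 * c * d + 6 * d * d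

/-- A coordinate of the conjugate. -/
def fin7P22 (a b c d : ℕ) : ℕ := 2 * a * a + 6 * a * c + 2 * a * d + 2 * b * b + 2 * b * c + 1 * b * d + 2 * c * c + 2 * d * d

/-- A coordinate of the conjugate. -/
def fin7P23 (a b c d : ℕ) : ℕ := 4 * a * b + 2 * a * c + 1 * a * d + 2 * b * b + 1 * b * c + 3 * b * d + 4 * c * d + 2 * d * d

theorem fin7P2_cast (a b c d : ℕ) :
    (⟨a, b, c, d⟩ : Qu (ZMod 7)) * red 7 ⟨53, 13, 16, 0⟩ * star ⟨a, b, c, d⟩ =
      ⟨(fin7P20 a b c d : ℕ), (fin7P21 a b c d : ℕ), (fin7P22 a b c d : ℕ), (fin7P23 a b c d : ℕ)⟩ := by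
  have h : (7 : ZMod 7) = 0 := rfl
  ext <;> simp only [fin7P20, fin7P21, fin7P22, fin7P23, red_apply, QuaternionAlgebra.mk_mul_mk,
    QuaternionAlgebra.star_mk] <;> push_cast
  · linear_combination (7 * a * a + 7 * a * b + (-30) * a * d + (-8) * b * b + 29 * b * c + (-123) * c * c + (-123) * c * d + 122 * d * d) * h
  · linear_combination (1 * a * a + 1 * a * b + 59 * a * d + (-2) * b * b + (-60) * b * c + 24 * c * c + 24 * c * d + (-25) * d * d) * h
  · linear_combination (2 * a * a + 1 * a * c + (-4) * a * d + 2 * b * b + (-4) * b * c + (-2) * b * d + (-30) * c * c + (-30) * d * d) * h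
  · linear_combination (4 * a * b + (-4) * a * c + (-2) * a * d + 2 * b * b + (-2) * b * c + (-6) * b * d + (-60) * c * d + (-30) * d * d) * h

/-- The set of codes of the group. -/
def fin7Mask : ℕ := 0x3000000010000000000000000000000000000000000010000000800000004000000000000000200000400000030400000000000000000000040000000000000000000000000000000000110000000000000000000000000000000c0000048000000006000000000000880000000000000000000000000000000000000000000002400000000000c0000000024000002080000000000000000000000000000000000000000000000000000000000000000040000000000000000000004180000004000008000000000000240000000002000000000000000000001000000000000000000000100000001800000000000000000000000008000000000000000000000000008000000000000000000000000001000000000000000000000000000000000042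

/-- The code of a quadruple. -/
def fin7Code (a b c d : ℕ) : ℕ := a % 7 + 7 * (b % 7 + 7 * (c % 7 + 7 * (d % 7)))

theorem fin7Mask_of_mem : ∀ h ∈ H7,
    fin7Mask.testBit (fin7Code h.re.val h.imI.val h.imJ.val h.imK.val) = true := by
  decide +kernel

theorem fin7Mask_of_eq (i : ℕ) {n : ZMod 7} (hi : (i : ZMod 7) * n = 1) {a b c d : ℕ}
    (h : ∃ h ∈ H7, (⟨a, b, c, d⟩ : Qu (ZMod 7)) = n • h) :
    fin7Mask.testBit (fin7Code (i * a) (i * b) (i * c) (i * d)) = true := by
  obtain ⟨h, hh, he⟩ := h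
  have key : ∀ (x : ℕ) (y : ZMod 7), (x : ZMod 7) = n * y → y.val = i * x % 7 := by
    intro x y hxy
    rw [← ZMod.val_natCast, Nat.cast_mul, hxy, ← mul_assoc, hi, one_mul]
  have h1 := fin7Mask_of_mem h hh
  rw [key a h.re (congrArg QuaternionAlgebra.re he), key b h.imI (congrArg QuaternionAlgebra.imI he),
    key c h.imJ (congrArg QuaternionAlgebra.imJ he), key d h.imK (congrArg QuaternionAlgebra.imK he)]
    at h1
  simpa only [fin7Code, Nat.mod_mod] using h1

/-- The test with a given inverse `i` of the norm. -/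
def fin7Pass (i a b c d : ℕ) : Bool :=
  fin7Mask.testBit (fin7Code (i * fin7P10 a b c d) (i * fin7P11 a b c d) (i * fin7P12 a b c d)
    (i * fin7P13 a b c d)) &&
  fin7Mask.testBit (fin7Code (i * fin7P20 a b c d) (i * fin7P21 a b c d) (i * fin7P22 a b c d)
    (i * fin7P23 a b c d))

/-- The check for one element. -/
def fin7Ok (a b c d : ℕ) : Bool :=
  if fin7N a b c d = 1 then
    !fin7Pass 1 a b c d || decide ((⟨a, b, c, d⟩ : Qu (ZMod 7)) ∈ H7)
  else if fin7N a b c d = 5 then !fin7Pass 3 a b c d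
  else if fin7N a b c d = 6 then !fin7Pass 6 a b c d
  else true

theorem fin7All : (List.range 7).all (fun a => (List.range 7).all fun b =>
    (List.range 7).all fun c => (List.range 7).all fun d => fin7Ok a b c d) = true := by
  decide +kernel

theorem check7 (b : Qu (ZMod 7)) (n : ZMod 7) (hn : nrd b = n)
    (hn' : n = 1 ∨ n = 5 ∨ n = 13 ∨ n = 65)
    (h1 : ∃ h ∈ H7, b * red 7 ⟨8, 18, -24, -39⟩ * star b = n • h)
    (h2 : ∃ h ∈ H7, b * red 7 ⟨53, 13, 16, 0⟩ * star b = n • h) :
    n ≠ 5 ∧ n ≠ 13 ∧ (n = 1 → b ∈ H7) := by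
  obtain ⟨b1, b2, b3, b4⟩ := b
  have hall := fin7All
  simp only [List.all_eq_true, List.mem_range] at hall
  have hok := hall b1.val (ZMod.val_lt _) b2.val (ZMod.val_lt _) b3.val (ZMod.val_lt _) b4.val
    (ZMod.val_lt _)
  have hb : (⟨b1, b2, b3, b4⟩ : Qu (ZMod 7)) =
      ⟨(b1.val : ℕ), (b2.val : ℕ), (b3.val : ℕ), (b4.val : ℕ)⟩ := by simp
  rw [hb] at hn h1 h2 ⊢
  generalize b1.val = a at *
  generalize b2.val = b at *
  generalize b3.val = c at *
  generalize b4.val = d at *
  rw [fin7P1_cast] at h1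
  rw [fin7P2_cast] at h2
  have hN : fin7N a b c d = n.val := by
    rw [← hn, ← fin7N_cast, ZMod.val_natCast, fin7N, Nat.mod_mod]
  have hp : ∀ i : ℕ, (i : ZMod 7) * n = 1 → fin7Pass i a b c d = true := fun i hi => by
    rw [fin7Pass, fin7Mask_of_eq i hi h1, fin7Mask_of_eq i hi h2, Bool.and_self]
  rw [fin7Ok, hN] at hok
  refine ⟨?_, ?_, ?_⟩
  · rintro rfl
    rw [if_neg (by decide), if_pos (by decide), hp 3 (by decide)] at hok
    exact absurd hok (by decide)
  · rintro rfl
    rw [if_neg (by decide), if_neg (by decide), if_pos (by decide), hp 6 (by decide)] at hok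
    exact absurd hok (by decide)
  · rintro rfl
    rw [if_pos (by decide), hp 1 (by decide)] at hok
    simpa using hok

end Pool.Agent.P.MP_7a2702_mp
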