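import Pool.Agent.P.MP_7a2702_mp.Basic

set_option autoImplicit false

open scoped MatrixGroups UpperHalfPlane ENNReal ComplexConjugate ContDiff
open MeasureTheory Filter Topology

namespace Pool.Agent.P.MP_7a2702_mp

theorem greenA_integrableOn {U K : Set ℂ} (hU : IsOpen U) (hK : IsCompact K) (hKU : K ⊆ U)
    {g : ℂ → ℝ} (hg : ContinuousOn g U) (h0 : ∀ w ∈ U, w ∉ K → g w = 0) : IntegrableOn g U :=
  ((hg.mono hKU).integrableOn_compact hK).of_forall_sdiff_eq_zero hU.measurableSet
    fun w hw => h0 w hw.1 hw.2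

theorem greenA_fderiv_zero {U K : Set ℂ} (hU : IsOpen U) (hK : IsCompact K) {a : ℂ → ℝ}
    (h0 : ∀ w ∈ U, w ∉ K → a w = 0) (v : ℂ) : ∀ w ∈ U, w ∉ K → fderiv ℝ a w v = 0 := by
  intro w hw hwK
  have h : a =ᶠ[𝓝 w] fun _ => 0 := by
    filter_upwards [hU.mem_nhds hw, hK.isClosed.isOpen_compl.mem_nhds hwK] with x h1 h2
      using h0 x h1 h2
  simp [h.fderiv_eq]

theorem greenA_contDiffOn {U : Set ℂ} (hU : IsOpen U) {a : ℂ → ℝ} {n : ℕ}
    (ha : ContDiffOn ℝ (n + 1 : ℕ) a U) (v : ℂ) : ContDiffOn ℝ n (fun w => fderiv ℝ a w v) U :=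
  (ha.fderiv_of_isOpen hU (by push_cast; exact le_rfl)).clm_apply contDiffOn_const

/-- Integration by parts on an open set. -/
theorem greenA_parts {U K : Set ℂ} (hU : IsOpen U) (hK : IsCompact K) (hKU : K ⊆ U)
    {a b : ℂ → ℝ} (ha : ContDiffOn ℝ 1 a U) (hb : ContDiffOn ℝ 1 b U)
    (h0 : ∀ w ∈ U, w ∉ K → a w = 0) (v : ℂ) :
    ∫ w in U, a w * fderiv ℝ b w v = -∫ w in U, fderiv ℝ a w v * b w := by
  have ha' : ContinuousOn (fun w => fderiv ℝ a w v) U :=
    (greenA_contDiffOn hU (n := 0) (by simpa using ha) v).continuousOn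
  have hb' : ContinuousOn (fun w => fderiv ℝ b w v) U :=
    (greenA_contDiffOn hU (n := 0) (by simpa using hb) v).continuousOn
  have hin : ∀ w ∈ U, U.indicator a =ᶠ[𝓝 w] a := fun w hw => by
    filter_upwards [hU.mem_nhds hw] with x hx using Set.indicator_of_mem hx a
  have hz : ∀ w, w ∉ K → U.indicator a w = 0 := fun w hw => by
    by_cases h : w ∈ U
    · rw [Set.indicator_of_mem h, h0 w h hw]
    · exact Set.indicator_of_notMem h a
  have hout : ∀ w, w ∉ U → U.indicator a =ᶠ[𝓝 w] fun _ => 0 := fun w hw => by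
    filter_upwards [hK.isClosed.isOpen_compl.mem_nhds fun h => hw (hKU h)] with x hx
      using hz x hx
  have hsupp : tsupport (U.indicator a) ⊆ K :=
    closure_minimal (fun w hw => by_contra fun h => hw (hz w h)) hK.isClosed
  have e1 : ∀ c : ℂ → ℝ, (fun w => U.indicator a w * c w) = U.indicator fun w => a w * c w :=
    fun c => funext fun w => (Set.indicator_mul_left U a c).symm
  have e2 : (fun w => fderiv ℝ (U.indicator a) w v * b w) =
      U.indicator fun w => fderiv ℝ a w v * b w := by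
    funext w
    by_cases h : w ∈ U
    · rw [Set.indicator_of_mem h, (hin w h).fderiv_eq]
    · rw [Set.indicator_of_notMem h, (hout w h).fderiv_eq]
      simp
  have key := integral_mul_fderiv_eq_neg_fderiv_mul_of_integrable (μ := (volume : Measure ℂ))
    (f := U.indicator a) (g := b) (v := v)
    (by
      rw [e2, integrable_indicator_iff hU.measurableSet]
      exact greenA_integrableOn hU hK hKU (ha'.mul hb.continuousOn) fun w h1 h2 => by
        rw [greenA_fderiv_zero hU hK h0 v w h1 h2, zero_mul])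
    (by
      rw [e1, integrable_indicator_iff hU.measurableSet]
      exact greenA_integrableOn hU hK hKU (ha.continuousOn.mul hb') fun w h1 h2 => by
        rw [h0 w h1 h2, zero_mul])
    (by
      rw [e1, integrable_indicator_iff hU.measurableSet]
      exact greenA_integrableOn hU hK hKU (ha.continuousOn.mul hb.continuousOn) fun w h1 h2 => by
        rw [h0 w h1 h2, zero_mul])
    (fun w _ => by
      by_cases h : w ∈ U
      · exact ((ha.contDiffAt (hU.mem_nhds h)).differentiableAt one_ne_zero).congr_of_eventuallyEq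
          (hin w h)
      · exact (differentiableAt_const (0 : ℝ)).congr_of_eventuallyEq (hout w h))
    (fun w hw => (hb.contDiffAt (hU.mem_nhds (hKU (hsupp hw)))).differentiableAt one_ne_zero)
  rw [e1, e2, integral_indicator hU.measurableSet, integral_indicator hU.measurableSet] at key
  exact key

theorem greenA_laplacian {U : Set ℂ} (hU : IsOpen U) {f : ℂ → ℝ} (hf : ContDiffOn ℝ 2 f U)
    {w : ℂ} (hw : w ∈ U) : Laplacian.laplacian f w =
      fderiv ℝ (fun x => fderiv ℝ f x 1) w 1 +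
        fderiv ℝ (fun x => fderiv ℝ f x Complex.I) w Complex.I := by
  have hd : DifferentiableAt ℝ (fderiv ℝ f) w :=
    ((hf.contDiffAt (hU.mem_nhds hw)).fderiv_right (m := 1) le_rfl).differentiableAt one_ne_zero
  have h : ∀ v : ℂ, fderiv ℝ (fun x => fderiv ℝ f x v) w v = fderiv ℝ (fderiv ℝ f) w v v := by
    intro v
    rw [fderiv_clm_apply hd (differentiableAt_const v)]
    simp
  rw [InnerProductSpace.laplacian_eq_iteratedFDeriv_complexPlane, h, h]
  simp [iteratedFDeriv_two_apply]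

/-- Green identity for a compactly supported test function. -/
theorem green_compact {φ f : ℂ → ℝ} (hφ : ContDiffOn ℝ 2 φ {w : ℂ | 0 < w.im})
    (hf : ContDiffOn ℝ 2 f {w : ℂ | 0 < w.im}) {K : Set ℂ} (hK : IsCompact K)
    (hKU : K ⊆ {w : ℂ | 0 < w.im}) (hφK : ∀ w : ℂ, 0 < w.im → w ∉ K → φ w = 0) :
    ∫ w in {w : ℂ | 0 < w.im}, φ w * Laplacian.laplacian f w =
      ∫ w in {w : ℂ | 0 < w.im}, f w * Laplacian.laplacian φ w := by
  have hU : IsOpen {w : ℂ | 0 < w.im} := isOpen_lt continuous_const Complex.continuous_im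
  replace hφK : ∀ w ∈ {w : ℂ | 0 < w.im}, w ∉ K → φ w = 0 := hφK
  generalize {w : ℂ | 0 < w.im} = U at *
  have d1 : ∀ {a : ℂ → ℝ}, ContDiffOn ℝ 2 a U → ∀ v : ℂ,
      ContDiffOn ℝ 1 (fun w => fderiv ℝ a w v) U := fun ha v => by
    simpa using greenA_contDiffOn hU (n := 1) (by simpa using ha) v
  have d2 : ∀ {a : ℂ → ℝ}, ContDiffOn ℝ 2 a U → ∀ v : ℂ,
      ContinuousOn (fun w => fderiv ℝ (fun x => fderiv ℝ a x v) w v) U := fun ha v =>
    (greenA_contDiffOn hU (n := 0) (by simpa using d1 ha v) v).continuousOn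
  have z1 := greenA_fderiv_zero hU hK hφK
  have i1 : ∀ v : ℂ, IntegrableOn (fun w => φ w * fderiv ℝ (fun x => fderiv ℝ f x v) w v) U :=
    fun v => greenA_integrableOn hU hK hKU (hφ.continuousOn.mul (d2 hf v)) fun w h1 h2 => by
      rw [hφK w h1 h2, zero_mul]
  have i2 : ∀ v : ℂ, IntegrableOn (fun w => f w * fderiv ℝ (fun x => fderiv ℝ φ x v) w v) U :=
    fun v => greenA_integrableOn hU hK hKU (hf.continuousOn.mul (d2 hφ v)) fun w h1 h2 => by
      rw [greenA_fderiv_zero hU hK (z1 v) v w h1 h2, mul_zero]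
  have key : ∀ v : ℂ, ∫ w in U, φ w * fderiv ℝ (fun x => fderiv ℝ f x v) w v =
      ∫ w in U, f w * fderiv ℝ (fun x => fderiv ℝ φ x v) w v := by
    intro v
    rw [greenA_parts hU hK hKU (hφ.of_le one_le_two) (d1 hf v) hφK v,
      greenA_parts hU hK hKU (d1 hφ v) (hf.of_le one_le_two) (z1 v) v, neg_neg]
    simp only [mul_comm]
  have sp : ∀ {a b : ℂ → ℝ}, ContDiffOn ℝ 2 b U →
      (∀ v : ℂ, IntegrableOn (fun w => a w * fderiv ℝ (fun x => fderiv ℝ b x v) w v) U) →
      ∫ w in U, a w * Laplacian.laplacian b w =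
        (∫ w in U, a w * fderiv ℝ (fun x => fderiv ℝ b x 1) w 1) +
          ∫ w in U, a w * fderiv ℝ (fun x => fderiv ℝ b x Complex.I) w Complex.I := by
    intro a b hb hi
    rw [← integral_add (hi _) (hi _)]
    refine setIntegral_congr_fun hU.measurableSet fun w hw => ?_
    simp only [greenA_laplacian hU hb hw, mul_add]
  rw [sp hf i1, sp hφ i2, key, key]

end Pool.Agent.P.MP_7a2702_mp
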