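import Pool.Agent.P.MP_7a2702_mp.Order

set_option autoImplicit false

open scoped MatrixGroups UpperHalfPlane ENNReal ComplexConjugate ContDiff
open MeasureTheory Filter Topology

namespace Pool.Agent.P.MP_7a2702_mp

/-- Six elements of norm 17. -/
def heckeAl : Fin 6 → Qu ℤ :=
  ![⟨-2, -2, -3, 2⟩, ⟨2, 0, 0, -1⟩, ⟨4, -2, -1, -2⟩, ⟨4, -2, -3, -5⟩, ⟨-4, -6, -8, 5⟩, ⟨4, 6, -8, 5⟩]

theorem heckeAl_nrd : ∀ i, nrd (heckeAl i) = 17 := by decide +kernel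

theorem heckeAl_pos (i : Fin 6) : 0 < nrd (heckeAl i) := by rw [heckeAl_nrd]; norm_num

theorem heckeAux_ex : ∀ h ∈ H17, ∀ i, ∃ j,
    red 17 (heckeAl i) * h * star (red 17 (heckeAl j)) = 0 := by decide +kernel

theorem heckeAux_ne : ∀ i j, red 17 (heckeAl i) * star (red 17 (heckeAl j)) = 0 → i = j := by
  decide +kernel

theorem heckeAux_beta : ∀ i,
    red 17 (heckeAl 0 * star (heckeAl i * (⟨1, 1, 0, 0⟩ : Qu ℤ))) ≠ 0 := by decide +kernel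

theorem heckeAux_inv (x : Qu ℤ) (h : 0 < nrd x) :
    (((toSL x h)⁻¹ : SL(2, ℝ)) : Matrix (Fin 2) (Fin 2) ℝ) =
      (√((nrd x : ℤ) : ℝ))⁻¹ • rho (star x) := by
  have h' : (0 : ℝ) < (nrd x : ℤ) := by exact_mod_cast h
  have h1 : ((√((nrd x : ℤ) : ℝ))⁻¹ • rho (star x)) * (toSL x h : Matrix (Fin 2) (Fin 2) ℝ) = 1 := by
    rw [coe_toSL, smul_mul_smul_comm, ← map_mul, star_mul_eq, rho_smul, map_one, smul_smul,
      ← mul_inv, Real.mul_self_sqrt h'.le, inv_mul_cancel₀ h'.ne', one_smul]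
  have h2 : (toSL x h : Matrix (Fin 2) (Fin 2) ℝ) *
      (((toSL x h)⁻¹ : SL(2, ℝ)) : Matrix (Fin 2) (Fin 2) ℝ) = 1 := by
    rw [← Matrix.SpecialLinearGroup.coe_mul, mul_inv_cancel, Matrix.SpecialLinearGroup.coe_one]
  rw [← mul_one ((√((nrd x : ℤ) : ℝ))⁻¹ • rho (star x)), ← h2, ← mul_assoc, h1, one_mul]

theorem heckeAux_coe (i j : Fin 6) {x : Qu ℤ} {γ : SL(2, ℝ)}
    (hx : rho x = (γ : Matrix (Fin 2) (Fin 2) ℝ)) :
    ((toSL _ (heckeAl_pos i) * γ * (toSL _ (heckeAl_pos j))⁻¹ : SL(2, ℝ)) :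
      Matrix (Fin 2) (Fin 2) ℝ) = (17 : ℝ)⁻¹ • rho (heckeAl i * x * star (heckeAl j)) := by
  rw [Matrix.SpecialLinearGroup.coe_mul, Matrix.SpecialLinearGroup.coe_mul, heckeAux_inv, coe_toSL,
    ← hx, smul_mul_assoc, smul_mul_smul_comm, heckeAl_nrd, heckeAl_nrd, ← mul_inv,
    Real.mul_self_sqrt (by norm_num), map_mul, map_mul]
  norm_num

theorem heckeAux_iff (i j : Fin 6) {x : Qu ℤ} {γ : SL(2, ℝ)} (hn : nrd x = 1)
    (hx : rho x = (γ : Matrix (Fin 2) (Fin 2) ℝ)) :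
    toSL _ (heckeAl_pos i) * γ * (toSL _ (heckeAl_pos j))⁻¹ ∈ G1 ↔
      red 17 (heckeAl i * x * star (heckeAl j)) = 0 := by
  rw [mem_G1, red_eq_zero_iff, heckeAux_coe i j hx]
  constructor
  · rintro ⟨y, -, hy⟩
    refine ⟨y, rho_injective ?_⟩
    rw [rho_smul, hy, smul_smul]
    norm_num
  · rintro ⟨y, hy⟩
    refine ⟨y, ?_, ?_⟩
    · have := congrArg nrd hy
      rw [nrd_mul, nrd_mul, nrd_star, heckeAl_nrd, heckeAl_nrd, hn, nrd_smul] at this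
      push_cast at this
      linarith
    · rw [hy, rho_smul, smul_smul]
      norm_num

theorem exists_hecke : ∃ (a : Fin 6 → SL(2, ℝ)) (β : SL(2, ℝ)), β ∈ G1 ∧
    (∀ γ ∈ G0, ∃ π : Equiv.Perm (Fin 6), ∀ i, a i * γ * (a (π i))⁻¹ ∈ G1) ∧
    ∀ i, a 0 * (a i * β)⁻¹ ∉ G1 := by
  have hb : nrd (⟨1, 1, 0, 0⟩ : Qu ℤ) = 1 := by decide +kernel
  let β : SL(2, ℝ) := ⟨rho ⟨1, 1, 0, 0⟩, by rw [det_rho, hb, Int.cast_one]⟩
  have hβ : rho ⟨1, 1, 0, 0⟩ = (β : Matrix (Fin 2) (Fin 2) ℝ) := rfl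
  refine ⟨fun i => toSL _ (heckeAl_pos i), β, ⟨_, hb, hβ⟩, ?_, fun i hi => ?_⟩
  · rintro γ ⟨x, ⟨hn, -, h17⟩, hx⟩
    choose p hp using heckeAux_ex _ h17
    have hp' : ∀ i, toSL _ (heckeAl_pos i) * γ * (toSL _ (heckeAl_pos (p i)))⁻¹ ∈ G1 := fun i => by
      rw [heckeAux_iff i (p i) hn hx, map_mul, map_mul, red_star]
      exact hp i
    have hinj : Function.Injective p := by
      intro i i' h
      have h1 := G1.mul_mem (hp' i) (G1.inv_mem (hp' i'))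
      rw [h] at h1
      have h2 : toSL _ (heckeAl_pos i) * 1 * (toSL _ (heckeAl_pos i'))⁻¹ ∈ G1 := by
        have h3 : ∀ a b c d : SL(2, ℝ), a * c * d⁻¹ * (b * c * d⁻¹)⁻¹ = a * 1 * b⁻¹ := by
          intro a b c d; group
        rwa [h3] at h1
      rw [heckeAux_iff i i' nrd_one (by simp), mul_one, map_mul, red_star] at h2
      exact heckeAux_ne i i' h2
    exact ⟨Equiv.ofBijective p (Finite.injective_iff_bijective.1 hinj), hp'⟩
  · rw [mul_inv_rev, ← mul_assoc,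
      heckeAux_iff 0 i (by rw [nrd_star, hb]) (coe_inv_of_rho hb hβ)] at hi
    refine heckeAux_beta i ?_
    rwa [star_mul, ← mul_assoc]

end Pool.Agent.P.MP_7a2702_mp
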