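import Pool.Agent.P.MP_7a2702_mp.Basic

set_option autoImplicit false

open scoped MatrixGroups UpperHalfPlane ENNReal ComplexConjugate ContDiff
open MeasureTheory Filter Topology

namespace Pool.Agent.P.MP_7a2702_mp

variable {G : Subgroup SL(2, ℝ)}

theorem kernAux_reindex {E : Type} [AddCommMonoid E] [TopologicalSpace E] (F : ℍ → E)
    {g : SL(2, ℝ)} (hg : g ∈ G) (w : ℍ) :
    ∑' γ : G, F ((γ : SL(2, ℝ)) • g • w) = ∑' γ : G, F ((γ : SL(2, ℝ)) • w) := by
  rw [← (Equiv.mulRight (⟨g, hg⟩ : G)).tsum_eq fun γ : G => F ((γ : SL(2, ℝ)) • w)]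
  simp only [Equiv.coe_mulRight, Subgroup.coe_mul, mul_smul]

theorem kernAux_bound (hG : Cocpt G) (U : Unf G) : ∃ M : ℝ≥0∞, M ≠ ⊤ ∧ ∀ s : ℕ, 2 ≤ s →
    ∀ z w : ℍ, ∑' γ : G, ENNReal.ofReal (q z ((γ : SL(2, ℝ)) • w) ^ s) ≤ M := by
  obtain ⟨R, hR⟩ := hG.cov
  have h0 : U.ν Set.univ ≠ 0 := fun h => by
    have h1 := U.unfold (fun _ => 1) measurable_const
    rw [Measure.measure_univ_eq_zero.1 h, lintegral_zero_measure, lintegral_one] at h1
    exact volume_univ_ne_zero h1
  set c : ℝ≥0∞ := ENNReal.ofReal (Real.exp (R + U.R) ^ 2)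
  refine ⟨c * ENNReal.ofReal (mass 2) / U.ν Set.univ, ENNReal.div_ne_top
    (ENNReal.mul_ne_top ENNReal.ofReal_ne_top ENNReal.ofReal_ne_top) h0, fun s hs z w => ?_⟩
  obtain ⟨g, hg, hw⟩ := hR w
  rw [← kernAux_reindex (fun v => ENNReal.ofReal (q z v ^ s)) hg w,
    ENNReal.le_div_iff_mul_le (Or.inl h0) (Or.inl (measure_ne_top _ _)), ← lintegral_const,
    ← integral_q_pow 2 z, ofReal_integral_eq_lintegral_ofReal (integrable_q_pow le_rfl z)
      (Eventually.of_forall fun v => pow_nonneg (q_pos z v).le 2),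
    U.unfold (fun v => ENNReal.ofReal (q z v ^ 2))
      ((continuous_q_right z).pow 2).measurable.ennreal_ofReal,
    ← lintegral_const_mul' _ _ ENNReal.ofReal_ne_top]
  refine lintegral_mono_ae ?_
  filter_upwards [mem_ae_iff.2 U.supp] with v hv
  rw [← ENNReal.tsum_mul_left]
  refine ENNReal.tsum_le_tsum fun γ => ?_
  rw [← ENNReal.ofReal_mul (by positivity), ← mul_pow]
  refine ENNReal.ofReal_le_ofReal ((q_pow_le _ _ hs).trans
    (pow_le_pow_left₀ (q_pos _ _).le ((q_le_exp_mul z _ ((γ : SL(2, ℝ)) • v)).trans ?_) 2))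
  refine mul_le_mul_of_nonneg_right (Real.exp_le_exp.2 ?_) (q_pos _ _).le
  rw [dist_smul]
  exact (dist_triangle_right _ _ UpperHalfPlane.I).trans (add_le_add hw hv)

theorem summable_kern (hG : Cocpt G) (U : Unf G) {s : ℕ} (hs : 2 ≤ s) (z w : ℍ) :
    Summable fun γ : G => q z ((γ : SL(2, ℝ)) • w) ^ s := by
  obtain ⟨M, hM, h⟩ := kernAux_bound hG U
  refine (ENNReal.summable_toReal (ne_top_of_le_ne_top hM (h s hs z w))).congr fun γ => ?_
  exact ENNReal.toReal_ofReal (pow_nonneg (q_pos _ _).le _)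

theorem exists_kern_le (hG : Cocpt G) (U : Unf G) :
    ∃ M : ℝ, 0 < M ∧ ∀ s : ℕ, 2 ≤ s → ∀ z w : ℍ, kern G s z w ≤ M := by
  obtain ⟨M, hM, h⟩ := kernAux_bound hG U
  refine ⟨M.toReal + 1, by positivity, fun s hs z w => ?_⟩
  have h1 := h s hs z w
  rw [← ENNReal.ofReal_tsum_of_nonneg (fun γ => pow_nonneg (q_pos _ _).le _)
    (summable_kern hG U hs z w), ENNReal.ofReal_le_iff_le_toReal hM] at h1
  exact h1.trans (le_add_of_nonneg_right zero_le_one)

theorem kern_nonneg (s : ℕ) (z w : ℍ) : 0 ≤ kern G s z w :=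
  tsum_nonneg fun _ => pow_nonneg (q_pos _ _).le _

theorem kern_symm (s : ℕ) (z w : ℍ) : kern G s z w = kern G s w z := by
  rw [kern, kern, ← (Equiv.inv G).tsum_eq]
  refine tsum_congr fun γ => ?_
  rw [q_symm w, q_smul_left]
  simp

theorem kern_inv (s : ℕ) (z : ℍ) : Inv G (kern G s z) := fun _ hg w =>
  kernAux_reindex (fun v => q z v ^ s) hg w

theorem q_pow_le_kern (hG : Cocpt G) (U : Unf G) {s : ℕ} (hs : 2 ≤ s) (z w : ℍ) :
    q z w ^ s ≤ kern G s z w := by
  have := (summable_kern hG U hs z w).le_tsum 1 fun _ _ => pow_nonneg (q_pos _ _).le _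
  simpa [kern] using this

theorem kernAux_le (hG : Cocpt G) (U : Unf G) {s : ℕ} (hs : 2 ≤ s) (z z' w : ℍ) :
    kern G s z w ≤ Real.exp (s * dist z z') * kern G s z' w := by
  rw [kern, kern, ← tsum_mul_left]
  refine (summable_kern hG U hs z w).tsum_le_tsum (fun γ => ?_)
    ((summable_kern hG U hs z' w).mul_left _)
  rw [Real.exp_nat_mul, ← mul_pow, q_symm z, q_symm z']
  exact pow_le_pow_left₀ (q_pos _ _).le (q_le_exp_mul _ _ _) _

theorem abs_kern_sub_le (hG : Cocpt G) (U : Unf G) {s : ℕ} (hs : 2 ≤ s) (z z' w : ℍ) :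
    |kern G s z w - kern G s z' w| ≤
      (Real.exp (s * dist z z') - 1) * (kern G s z w + kern G s z' w) := by
  have h1 := kernAux_le hG U hs z z' w
  have h2 := kernAux_le hG U hs z' z w
  rw [dist_comm] at h2
  have h3 : 0 ≤ Real.exp (s * dist z z') - 1 :=
    sub_nonneg.2 (Real.one_le_exp (by positivity))
  have h4 := mul_nonneg h3 (kern_nonneg (G := G) s z w)
  have h5 := mul_nonneg h3 (kern_nonneg (G := G) s z' w)
  rw [abs_le]
  constructor <;> linarith

theorem continuous_kern (hG : Cocpt G) (U : Unf G) {s : ℕ} (hs : 2 ≤ s) :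
    Continuous fun p : ℍ × ℍ => kern G s p.1 p.2 := by
  obtain ⟨M, -, hM⟩ := exists_kern_le hG U
  have key : ∀ z z' w : ℍ, |kern G s z w - kern G s z' w| ≤
      (Real.exp (s * dist z z') - 1) * (2 * M) := fun z z' w =>
    (abs_kern_sub_le hG U hs z z' w).trans (mul_le_mul_of_nonneg_left
      (by linarith [hM s hs z w, hM s hs z' w]) (sub_nonneg.2 (Real.one_le_exp (by positivity))))
  refine continuous_iff_continuousAt.2 fun p => tendsto_iff_dist_tendsto_zero.2 ?_
  have hc : Continuous fun r : ℍ × ℍ => (Real.exp (s * dist r.1 p.1) - 1) * (2 * M) +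
      (Real.exp (s * dist r.2 p.2) - 1) * (2 * M) := by fun_prop
  have ht := hc.tendsto p
  simp only [dist_self, mul_zero, Real.exp_zero, sub_self, zero_mul, add_zero] at ht
  refine squeeze_zero (fun _ => dist_nonneg) (fun r => ?_) ht
  refine (dist_triangle _ (kern G s p.1 r.2) _).trans (add_le_add (key _ _ _) ?_)
  have h := key r.2 p.2 p.1
  rwa [kern_symm s r.2, kern_symm s p.2] at h

theorem bc_kern (hG : Cocpt G) (U : Unf G) {s : ℕ} (hs : 2 ≤ s) (z : ℍ) : BC (kern G s z) := by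
  obtain ⟨M, -, hM⟩ := exists_kern_le hG U
  have h : Continuous ((fun p : ℍ × ℍ => kern G s p.1 p.2) ∘ fun w => (z, w)) :=
    (continuous_kern hG U hs).comp (Continuous.prodMk_right z)
  refine ⟨h.congr fun _ => rfl, M, fun w => ?_⟩
  rw [abs_of_nonneg (kern_nonneg s z w)]
  exact hM s hs z w

theorem kernAux_nonneg (hG : Cocpt G) (U : Unf G) {s : ℕ} (hs : 2 ≤ s) {f : ℍ → ℝ}
    (hf : Continuous f) (h0 : ∀ w, 0 ≤ f w) (hi : Inv G f) (z : ℍ) :
    ∫ w, kern G s z w * f w ∂U.ν = avg s f z := by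
  have hc : Continuous fun w => q z w ^ s * f w := ((continuous_q_right z).pow s).mul hf
  rw [avg, integral_eq_lintegral_of_nonneg_ae
      (Eventually.of_forall fun w => mul_nonneg (kern_nonneg s z w) (h0 w))
      ((bc_kern hG U hs z).1.mul hf).aestronglyMeasurable,
    integral_eq_lintegral_of_nonneg_ae
      (Eventually.of_forall fun w => mul_nonneg (pow_nonneg (q_pos z w).le s) (h0 w))
      hc.aestronglyMeasurable,
    U.unfold (fun w => ENNReal.ofReal (q z w ^ s * f w)) hc.measurable.ennreal_ofReal]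
  congr 1
  refine lintegral_congr fun w => ?_
  rw [kern, ← tsum_mul_right, ENNReal.ofReal_tsum_of_nonneg
    (fun γ => mul_nonneg (pow_nonneg (q_pos _ _).le s) (h0 w))
    ((summable_kern hG U hs z w).mul_right _)]
  exact tsum_congr fun γ => by rw [hi γ γ.2]

/-- Unfolding. -/
theorem integral_kern_mul (hG : Cocpt G) (U : Unf G) {s : ℕ} (hs : 2 ≤ s) {f : ℍ → ℝ} (hf : BC f)
    (hi : Inv G f) (z : ℍ) : ∫ w, kern G s z w * f w ∂U.ν = avg s f z := by
  obtain ⟨hc, M, hM⟩ := hf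
  obtain ⟨hk, K, hK⟩ := bc_kern hG U hs z
  have hM0 : 0 ≤ M := (abs_nonneg _).trans (hM z)
  have h1 := kernAux_nonneg hG U hs (f := fun w => f w + M) (hc.add continuous_const)
    (fun w => by linarith [neg_abs_le (f w), hM w]) (fun g hg w => by simp only [hi g hg w]) z
  have h2 := kernAux_nonneg hG U hs (f := fun _ => M) continuous_const (fun _ => hM0)
    (fun _ _ _ => rfl) z
  have hI : Integrable (kern G s z) U.ν :=
    .of_bound hk.aestronglyMeasurable K (Eventually.of_forall hK)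
  simp only [avg, mul_add] at h1 h2 ⊢
  rw [integral_add (hI.mul_bdd hc.aestronglyMeasurable (Eventually.of_forall hM)) (hI.mul_const M),
    integral_add (BC.integrable_avg ⟨hc, M, hM⟩ hs z) ((integrable_q_pow hs z).mul_const M),
    h2] at h1
  exact add_right_cancel h1

end Pool.Agent.P.MP_7a2702_mp
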