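import Pool.Agent.P.MP_7a2702_mp.Basic

/-!
Invariance of smoothness and of the hyperbolic Laplacian under the action of `SL(2, ℝ)`.
-/

set_option autoImplicit false

open scoped MatrixGroups UpperHalfPlane ENNReal ComplexConjugate ContDiff
open MeasureTheory Filter Topology

namespace Pool.Agent.P.MP_7a2702_mp

/-- Second derivative of the composition with a holomorphic map. -/
theorem lapInv_second {F : ℂ → ℝ} {m : ℂ → ℂ} {z : ℂ} (hF : ContDiffAt ℝ 2 F (m z))
    (hm : AnalyticAt ℂ m z) (h : ℂ) :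
    fderiv ℝ (fderiv ℝ (F ∘ m)) z h h =
      fderiv ℝ (fderiv ℝ F) (m z) (deriv m z * h) (deriv m z * h) +
        fderiv ℝ F (m z) (deriv (deriv m) z * h * h) := by
  have hmr : ContDiffAt ℝ 2 m z := (hm.contDiffAt (n := 2)).restrict_scalars ℝ
  have hc : ContDiffAt ℝ 2 (F ∘ m) z := hF.comp z hmr
  have hc1 : DifferentiableAt ℝ (fderiv ℝ (F ∘ m)) z :=
    (hc.fderiv_right (m := 1) (by norm_num)).differentiableAt (by norm_num)
  have hF1 : DifferentiableAt ℝ (fderiv ℝ F) (m z) :=
    (hF.fderiv_right (m := 1) (by norm_num)).differentiableAt (by norm_num)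
  have hev : (fun w => fderiv ℝ (F ∘ m) w h) =ᶠ[𝓝 z]
      fun w => fderiv ℝ F (m w) (deriv m w * h) := by
    have h1 : ∀ᶠ w in 𝓝 z, AnalyticAt ℂ m w := hm.eventually_analyticAt
    have h2 : ∀ᶠ u in 𝓝 (m z), ContDiffAt ℝ 2 F u := hF.eventually (by simp)
    have h3 : ∀ᶠ w in 𝓝 z, ContDiffAt ℝ 2 F (m w) := hm.continuousAt.tendsto.eventually h2
    filter_upwards [h1, h3] with w hw hw'
    have hd : HasFDerivAt m _ w := (hw.differentiableAt.hasDerivAt.hasFDerivAt).restrictScalars ℝ
    have := ((hw'.differentiableAt (by norm_num)).hasFDerivAt.comp w hd).fderiv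
    rw [this]
    simp [mul_comm]
  have hl : fderiv ℝ (fun w => fderiv ℝ (F ∘ m) w h) z h =
      fderiv ℝ (fderiv ℝ (F ∘ m)) z h h := by
    have := (hc1.hasFDerivAt.clm_apply (hasFDerivAt_const h z)).fderiv
    rw [this]
    simp
  have hd : HasFDerivAt m _ z := (hm.differentiableAt.hasDerivAt.hasFDerivAt).restrictScalars ℝ
  have hd' : HasFDerivAt (fun w => deriv m w * h) _ z :=
    ((hm.deriv.differentiableAt.hasDerivAt.mul_const h).hasFDerivAt).restrictScalars ℝ
  have hr := ((hF1.hasFDerivAt.comp z hd).clm_apply hd').fderiv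
  rw [← hl, hev.fderiv_eq]
  have hr' : (fun w => fderiv ℝ F (m w) (deriv m w * h)) =
      fun w => (fderiv ℝ F ∘ m) w (deriv m w * h) := rfl
  rw [hr', hr]
  simp [mul_comm, add_comm]

/-- A conformal change of the basis multiplies the trace of a bilinear form by the square of the
modulus. -/
theorem lapInv_bilin (B : ℂ →L[ℝ] ℂ →L[ℝ] ℝ) (a : ℂ) :
    B (a * 1) (a * 1) + B (a * Complex.I) (a * Complex.I) =
      Complex.normSq a * (B 1 1 + B Complex.I Complex.I) := by
  have h1 : a * 1 = a.re • (1 : ℂ) + a.im • Complex.I := by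
    apply Complex.ext <;> simp
  have h2 : a * Complex.I = (-a.im) • (1 : ℂ) + a.re • Complex.I := by
    apply Complex.ext <;> simp
  rw [h1, h2]
  simp only [map_add, map_smul, add_apply, smul_apply, smul_eq_mul,
    Complex.normSq_apply]
  ring

/-- The Laplacian of the composition with a holomorphic map. -/
theorem lapInv_laplacian {F : ℂ → ℝ} {m : ℂ → ℂ} {z : ℂ} (hF : ContDiffAt ℝ 2 F (m z))
    (hm : AnalyticAt ℂ m z) :
    Laplacian.laplacian (F ∘ m) z = Complex.normSq (deriv m z) * Laplacian.laplacian F (m z) := by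
  simp only [InnerProductSpace.laplacian_eq_iteratedFDeriv_complexPlane, iteratedFDeriv_two_apply,
    Matrix.cons_val_zero, Matrix.cons_val_one]
  rw [lapInv_second hF hm, lapInv_second hF hm, ← lapInv_bilin]
  have h : deriv (deriv m) z * Complex.I * Complex.I = -(deriv (deriv m) z * 1 * 1) := by
    rw [mul_assoc, Complex.I_mul_I]; ring
  rw [h, map_neg]
  ring

theorem lapInv_comp (f : ℍ → ℝ) (g : SL(2, ℝ)) :
    ((fun z : ℍ => f (g • z)) ∘ UpperHalfPlane.ofComplex : ℂ → ℝ) =
      (f ∘ UpperHalfPlane.ofComplex) ∘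
        fun w : ℂ => ((g • (UpperHalfPlane.ofComplex w : ℍ) : ℍ) : ℂ) := by
  funext w
  simp

theorem lapInv_analyticAt (g : SL(2, ℝ)) (z : ℍ) :
    AnalyticAt ℂ (fun w : ℂ => ((g • (UpperHalfPlane.ofComplex w : ℍ) : ℍ) : ℂ)) z :=
  UpperHalfPlane.analyticAt_smul (g := Matrix.SpecialLinearGroup.mapGL ℝ g) (by simp) z

theorem Smooth.comp_smul {f : ℍ → ℝ} (hf : Smooth f) (g : SL(2, ℝ)) :
    Smooth fun z : ℍ => f (g • z) := by
  unfold Smooth
  rw [lapInv_comp]
  refine ContDiffOn.comp hf (fun w hw => ?_) fun w _ => (g • (UpperHalfPlane.ofComplex w : ℍ)).im_pos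
  exact (((lapInv_analyticAt g ⟨w, hw⟩).contDiffAt (n := ∞)).restrict_scalars ℝ).contDiffWithinAt

theorem hypLaplacian_comp_smul {f : ℍ → ℝ} (hf : Smooth f) (g : SL(2, ℝ)) (z : ℍ) :
    hypLaplacian (fun z : ℍ => f (g • z)) z = hypLaplacian f (g • z) := by
  unfold hypLaplacian
  rw [lapInv_comp, lapInv_laplacian (by simpa using hf.contDiffAt (g • z)) (lapInv_analyticAt g z)]
  have hd : deriv (fun w : ℂ => ((g • (UpperHalfPlane.ofComplex w : ℍ) : ℍ) : ℂ)) z =
      1 / UpperHalfPlane.denom (Matrix.SpecialLinearGroup.mapGL ℝ g) z ^ 2 := by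
    have := UpperHalfPlane.deriv_smul (g := Matrix.SpecialLinearGroup.mapGL ℝ g) (by simp) z
    refine Eq.trans this ?_
    simp
  have hi : (g • z).im =
      z.im / Complex.normSq (UpperHalfPlane.denom (Matrix.SpecialLinearGroup.mapGL ℝ g) z) := by
    have := UpperHalfPlane.im_smul_eq_div_normSq (Matrix.SpecialLinearGroup.mapGL ℝ g) z
    refine Eq.trans this ?_
    simp
  rw [hd, hi]
  simp only [UpperHalfPlane.ofComplex_apply, smul_eq_mul, map_div₀, map_one, map_pow]
  ring

end Pool.Agent.P.MP_7a2702_mp
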