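import Pool.Agent.P.MP_7a2702_mp.LapInv
import Pool.Agent.P.MP_7a2702_mp.Basis

set_option autoImplicit false

open scoped MatrixGroups UpperHalfPlane ENNReal ComplexConjugate ContDiff
open MeasureTheory Filter Topology

namespace Pool.Agent.P.MP_7a2702_mp

theorem multTwo_le {G G₁ : Subgroup SL(2, ℝ)} (hle : G ≤ G₁) (μ : ℝ) :
    eigenSpace ℝ G₁ μ ≤ eigenSpace ℝ G μ := fun _ hf =>
  mem_eigenSpace.2 ⟨(mem_eigenSpace.1 hf).1, fun g hg => (mem_eigenSpace.1 hf).2.1 g (hle hg),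
    (mem_eigenSpace.1 hf).2.2⟩

theorem multTwo_translate {G : Subgroup SL(2, ℝ)} {μ : ℝ} {f : ℍ → ℝ}
    (hf : f ∈ eigenSpace ℝ G μ) (g : SL(2, ℝ)) :
    (fun z : ℍ => f (g • z)) ∈ eigenSpace ℝ ⊥ μ := by
  obtain ⟨h1, -, h3⟩ := mem_eigenSpace.1 hf
  refine mem_eigenSpace.2 ⟨h1.comp_smul g, fun γ hγ z => ?_, fun z => ?_⟩
  · rw [Subgroup.mem_bot.1 hγ, one_smul]
  · rw [hypLaplacian_comp_smul h1, h3]

/-- Old forms: an eigenfunction of the big group whose Hecke translate is not invariant under the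
big group produces a multiple eigenvalue of the small group. -/
theorem two_le_mult {G G₁ : Subgroup SL(2, ℝ)} (hG : Cocpt G) (U : Unf G) (hle : G ≤ G₁) {m : ℕ}
    (a : Fin m → SL(2, ℝ)) {β : SL(2, ℝ)} (hβ : β ∈ G₁)
    (h1 : ∀ γ ∈ G, ∃ π : Equiv.Perm (Fin m), ∀ i, a i * γ * (a (π i))⁻¹ ∈ G₁)
    {μ : ℝ} {f : ℍ → ℝ} (hf : f ∈ eigenSpace ℝ G₁ μ) {z : ℍ}
    (hz : ∑ i, f (a i • z) ≠ ∑ i, f (a i • β • z)) : 2 ≤ mult G μ := by
  have hinv : Inv G₁ f := (mem_eigenSpace.1 hf).2.1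
  set T : ℍ → ℝ := ∑ i, fun z : ℍ => f (a i • z) with hT
  have hTz : ∀ z, T z = ∑ i, f (a i • z) := fun z => by rw [hT, Finset.sum_apply]
  have hT0 : T ∈ eigenSpace ℝ ⊥ μ :=
    Submodule.sum_mem _ fun i _ => multTwo_translate hf (a i)
  have hTG : T ∈ eigenSpace ℝ G μ := by
    refine mem_eigenSpace.2 ⟨(mem_eigenSpace.1 hT0).1, fun γ hγ w => ?_,
      (mem_eigenSpace.1 hT0).2.2⟩
    obtain ⟨π, hπ⟩ := h1 γ hγ
    rw [hTz, hTz, ← Equiv.sum_comp π fun i => f (a i • w)]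
    refine Finset.sum_congr rfl fun i _ => ?_
    rw [← hinv _ (hπ i) (a (π i) • w), mul_smul, inv_smul_smul, mul_smul]
  have hfin := finiteDimensional_eigenSpace hG U μ
  have hli : LinearIndependent ℝ
      ![(⟨f, multTwo_le hle μ hf⟩ : eigenSpace ℝ G μ), ⟨T, hTG⟩] := by
    rw [LinearIndependent.pair_iff]
    intro s t hst
    have h : ∀ w, s * f w + t * T w = 0 := fun w => by
      simpa using congrFun (congrArg Subtype.val hst) w
    have ht : t = 0 := by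
      have e1 := h z
      have e2 := h (β • z)
      rw [hinv β hβ z] at e2
      rw [hTz] at e1 e2
      have : t * (∑ i, f (a i • z) - ∑ i, f (a i • β • z)) = 0 := by linarith
      exact (mul_eq_zero.1 this).resolve_right (sub_ne_zero.2 hz)
    refine ⟨?_, ht⟩
    by_contra hs
    apply hz
    have hf0 : ∀ w, f w = 0 := fun w => by
      have := h w
      rw [ht, zero_mul, add_zero] at this
      exact (mul_eq_zero.1 this).resolve_left hs
    simp [hf0]
  simpa [mult] using hli.fintype_card_le_finrank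

theorem mult_mono {G G₁ : Subgroup SL(2, ℝ)} (hG : Cocpt G) (U : Unf G) (hle : G ≤ G₁) (μ : ℝ) :
    mult G₁ μ ≤ mult G μ := by
  have hfin := finiteDimensional_eigenSpace hG U μ
  exact Submodule.finrank_mono (multTwo_le hle μ)

end Pool.Agent.P.MP_7a2702_mp
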