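import Pool.Agent.P.MP_7a2702_mp.OffDiag
import Pool.Agent.P.MP_7a2702_mp.Approx

set_option autoImplicit false

open scoped MatrixGroups UpperHalfPlane ENNReal ComplexConjugate ContDiff
open MeasureTheory Filter Topology

namespace Pool.Agent.P.MP_7a2702_mp

theorem normLow_mul {f g : ℍ → ℝ} (hf : BC f) (hg : BC g) : BC fun w => f w * g w := by
  obtain ⟨c1, M, hM⟩ := hf
  obtain ⟨c2, N, hN⟩ := hg
  refine ⟨c1.mul c2, M * N, fun z => ?_⟩
  rw [abs_mul]
  exact mul_le_mul (hM z) (hN z) (abs_nonneg _) ((abs_nonneg _).trans (hM z))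

theorem normLow_int {G : Subgroup SL(2, ℝ)} (U : Unf G) {f : ℍ → ℝ} (hf : BC f) :
    Integrable f U.ν := by
  obtain ⟨c1, M, hM⟩ := hf
  exact Integrable.of_bound c1.aestronglyMeasurable M (Eventually.of_forall hM)

theorem normLow_sum {ι : Type} (t : Finset ι) {f : ι → ℍ → ℝ} (hf : ∀ i, BC (f i)) :
    BC fun w => ∑ i ∈ t, f i w := by
  choose M hM using fun i => (hf i).2
  exact ⟨continuous_finsetSum _ fun i _ => (hf i).1, ∑ i ∈ t, M i, fun z =>
    (Finset.abs_sum_le_sum_abs _ _).trans (Finset.sum_le_sum fun i _ => hM i z)⟩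

theorem normLow_sub {f g : ℍ → ℝ} (hf : BC f) (hg : BC g) : BC fun w => f w - g w := by
  obtain ⟨c1, M, hM⟩ := hf
  obtain ⟨c2, N, hN⟩ := hg
  exact ⟨c1.sub c2, M + N, fun z => (abs_sub _ _).trans (add_le_add (hM z) (hN z))⟩

theorem normLow_small {θ ε : ℝ} (h0 : 0 < θ) (h1 : θ < 1) (hε : 0 < ε) :
    ∀ᶠ s : ℕ in atTop, (s : ℝ) * θ ^ (s - 2) ≤ ε := by
  have h := (tendsto_self_mul_const_pow_of_lt_one h0.le h1).eventually
    (ge_mem_nhds (show 0 < ε * θ ^ 2 by positivity))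
  filter_upwards [h, eventually_ge_atTop 2] with s hs h2
  have e : θ ^ s = θ ^ (s - 2) * θ ^ 2 := by rw [← pow_add, Nat.sub_add_cancel h2]
  rw [e, ← mul_assoc] at hs
  exact le_of_mul_le_mul_right hs (by positivity)

/-- Lower bound for the norm of a signed combination of kernels. -/
theorem norm_low {G : Subgroup SL(2, ℝ)} (hG : Cocpt G) (U : Unf G) {m : ℕ} {δ : ℝ} (hδ : 0 < δ) :
    ∃ c : ℝ, 0 < c ∧ ∀ᶠ s : ℕ in atTop, ∀ (p p' : Fin (m + 1) → ℍ),
      (∀ i, ∀ γ ∈ G, 2 * δ ≤ dist (p 0) (γ • p' i)) →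
        c * s * mass s ^ 2 ≤
          ∫ w, (∑ i, kern G s (p i) w - ∑ i, kern G s (p' i) w) ^ 2 ∂U.ν := by
  obtain ⟨M, hM0, hM⟩ := exists_kern_le hG U
  obtain ⟨C, hC⟩ := integral_kern_kern_le hG U
  have ha : 0 < mass 2 := mass_pos le_rfl
  have hθ := theta_pos δ
  refine ⟨1 / (32 * M * mass 2), by positivity, ?_⟩
  filter_upwards [normLow_small hθ (theta_lt_one hδ)
    (show 0 < mass 2 / (12 * ((m + 1) * (|C| + 1))) by positivity), eventually_ge_atTop 2]
    with s hs h2 p p' hp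
  have h2r : (2 : ℝ) ≤ s := by exact_mod_cast h2
  have hI : 0 < mass s := mass_pos h2
  have hIe : mass s * ((s : ℝ) - 1) = mass 2 := by
    rw [mass_eq h2]; field_simp [show (s : ℝ) - 1 ≠ 0 by linarith]
  have hI2 : mass s / 3 ≤ mass (2 * s) := by
    rw [mass_eq (show 2 ≤ 2 * s by omega), ← hIe]
    push_cast
    rw [div_le_div_iff₀ (by norm_num) (by linarith)]
    nlinarith
  have hb := fun z => bc_kern hG U h2 z
  set K : ℍ → ℝ := kern G s (p 0) with hK
  set V : ℍ → ℝ := fun w => ∑ i, kern G s (p i) w - ∑ i, kern G s (p' i) w with hV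
  have bV : BC V := normLow_sub (normLow_sum _ fun i => hb (p i)) (normLow_sum _ fun i => hb (p' i))
  have hKK : ∫ w, K w * K w ∂U.ν = avg s K (p 0) := integral_kern_mul hG U h2 (hb _) (kern_inv s _) _
  have k1 : mass (2 * s) ≤ ∫ w, K w * K w ∂U.ν := by
    rw [hKK, ← integral_q_pow (2 * s) (p 0), avg]
    refine integral_mono (integrable_q_pow (by omega) _) ((hb _).integrable_avg h2 _) fun w => ?_
    simp only
    rw [two_mul, pow_add]
    exact mul_le_mul_of_nonneg_left (q_pow_le_kern hG U h2 _ _) (pow_nonneg (q_pos _ _).le _)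
  have k2 : ∫ w, K w * K w ∂U.ν ≤ M * mass s := by
    rw [hKK]
    refine (le_abs_self _).trans (abs_avg_le (fun z => ?_) h2 _)
    rw [abs_of_nonneg (kern_nonneg _ _ _)]
    exact hM s h2 _ _
  have k3 : ∑ i, ∫ w, K w * kern G s (p' i) w ∂U.ν ≤ mass s / 12 := by
    have h1 : ∀ i, ∫ w, K w * kern G s (p' i) w ∂U.ν ≤ (|C| + 1) * theta δ ^ (s - 2) := fun i =>
      (hC s h2 δ hδ.le _ _ (hp i)).trans
        (mul_le_mul_of_nonneg_right (by linarith [le_abs_self C]) (by positivity))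
    refine (Finset.sum_le_sum fun i _ => h1 i).trans ?_
    rw [Finset.sum_const, Finset.card_univ, Fintype.card_fin, nsmul_eq_mul]
    push_cast
    rw [le_div_iff₀ (by positivity)] at hs
    have h3 : (s : ℝ) * (((m : ℝ) + 1) * ((|C| + 1) * theta δ ^ (s - 2))) ≤ s * (mass s / 12) := by
      nlinarith
    exact le_of_mul_le_mul_left h3 (by linarith)
  have k4 : ∫ w, K w * K w ∂U.ν ≤ ∑ i, ∫ w, K w * kern G s (p i) w ∂U.ν :=
    Finset.single_le_sum (f := fun i => ∫ w, K w * kern G s (p i) w ∂U.ν)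
      (fun i _ => integral_nonneg fun w => mul_nonneg (kern_nonneg _ _ _) (kern_nonneg _ _ _))
      (Finset.mem_univ 0)
  have hint := fun z => normLow_int U (normLow_mul (hb (p 0)) (hb z))
  have k5 : ∫ w, K w * V w ∂U.ν =
      ∑ i, ∫ w, K w * kern G s (p i) w ∂U.ν - ∑ i, ∫ w, K w * kern G s (p' i) w ∂U.ν := by
    simp only [hV, mul_sub, Finset.mul_sum]
    rw [integral_sub (integrable_finsetSum _ fun i _ => hint _)
      (integrable_finsetSum _ fun i _ => hint _), integral_finsetSum _ fun i _ => hint _,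
      integral_finsetSum _ fun i _ => hint _]
  have k6 : mass s / 4 ≤ ∫ w, K w * V w ∂U.ν := by rw [k5]; linarith
  set t : ℝ := 1 / (4 * M) with ht
  have t0 : 0 < t := by positivity
  have k7 : 2 * t * ∫ w, K w * V w ∂U.ν - t ^ 2 * ∫ w, K w * K w ∂U.ν ≤ ∫ w, V w ^ 2 ∂U.ν := by
    have i1 := (normLow_int U (normLow_mul (hb (p 0)) bV)).const_mul (2 * t)
    have i2 := (hint (p 0)).const_mul (t ^ 2)
    rw [← integral_const_mul, ← integral_const_mul, ← integral_sub i1 i2]
    refine integral_mono (i1.sub i2) ?_ fun w => ?_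
    · simpa only [sq] using normLow_int U (normLow_mul bV bV)
    · simp only
      nlinarith [sq_nonneg (V w - t * K w)]
  have k8 : 2 * t * (mass s / 4) - t ^ 2 * (M * mass s) = mass s / (16 * M) := by
    rw [ht]; field_simp; ring
  have k9 : 1 / (32 * M * mass 2) * s * mass s ^ 2 ≤ mass s / (16 * M) := by
    have h1 : (s : ℝ) * mass s ≤ 2 * mass 2 := by nlinarith
    calc 1 / (32 * M * mass 2) * s * mass s ^ 2 = (s * mass s) * mass s / (32 * M * mass 2) := by
          ring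
      _ ≤ (2 * mass 2) * mass s / (32 * M * mass 2) := by gcongr
      _ = _ := by field_simp; ring
  have k10 := mul_le_mul_of_nonneg_left k6 (show 0 ≤ 2 * t by positivity)
  have k11 := mul_le_mul_of_nonneg_left k2 (sq_nonneg t)
  change _ ≤ ∫ w, V w ^ 2 ∂U.ν
  linarith

/-- Local `L^2` bound for translates of invariant functions. -/
theorem setIntegral_sq_le {G : Subgroup SL(2, ℝ)} (hG : Cocpt G) (U : Unf G) (z₀ : ℍ) (δ : ℝ) :
    ∃ C : ℝ, ∀ f : ℍ → ℝ, BC f → Inv G f → ∀ g : SL(2, ℝ),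
      ∫ z in Metric.closedBall z₀ δ, f (g • z) ^ 2 ≤ C * ∫ z, f z * f z ∂U.ν := by
  obtain ⟨M, hM0, hM⟩ := exists_kern_le hG U
  have hθ := theta_pos δ
  refine ⟨(theta δ ^ 2)⁻¹ * M, fun f hf hi g => ?_⟩
  have hF : BC fun w => f w * f w := normLow_mul hf hf
  have hFi : Inv G fun w => f w * f w := fun γ hγ z => by simp only [hi γ hγ z]
  have hFg : BC fun w => f (g • w) * f (g • w) := by
    obtain ⟨c1, N, hN⟩ := hF
    exact ⟨c1.comp (continuous_const_smul g), N, fun z => hN _⟩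
  have i1 := (hFg.integrable_avg le_rfl z₀).const_mul (theta δ ^ 2)⁻¹
  calc ∫ z in Metric.closedBall z₀ δ, f (g • z) ^ 2
      ≤ ∫ z in Metric.closedBall z₀ δ,
          (theta δ ^ 2)⁻¹ * (q z₀ z ^ 2 * (f (g • z) * f (g • z))) := by
        refine setIntegral_mono_of_nonneg (fun z _ => sq_nonneg _) (fun z hz => ?_) i1.integrableOn
        have h1 : theta δ ^ 2 ≤ q z₀ z ^ 2 :=
          pow_le_pow_left₀ hθ.le (theta_le_q (by rwa [dist_comm])) 2
        rw [← mul_assoc, sq]
        exact le_mul_of_one_le_left (mul_self_nonneg _) ((one_le_inv_mul₀ (by positivity)).2 h1)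
    _ ≤ ∫ z, (theta δ ^ 2)⁻¹ * (q z₀ z ^ 2 * (f (g • z) * f (g • z))) :=
        setIntegral_le_integral i1 (Eventually.of_forall fun z =>
          mul_nonneg (by positivity) (mul_nonneg (sq_nonneg _) (mul_self_nonneg _)))
    _ = (theta δ ^ 2)⁻¹ * ∫ w, kern G 2 (g • z₀) w * (f w * f w) ∂U.ν := by
        rw [integral_const_mul, integral_kern_mul hG U le_rfl hF hFi, ← avg_smul, avg]
    _ ≤ (theta δ ^ 2)⁻¹ * ∫ w, M * (f w * f w) ∂U.ν := by
        refine mul_le_mul_of_nonneg_left (integral_mono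
          (normLow_int U (normLow_mul (bc_kern hG U le_rfl _) hF))
          ((normLow_int U hF).const_mul M) fun w => ?_) (by positivity)
        exact mul_le_mul_of_nonneg_right (hM 2 le_rfl _ _) (mul_self_nonneg _)
    _ = _ := by rw [integral_const_mul, mul_assoc]

end Pool.Agent.P.MP_7a2702_mp
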