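import Pool.Agent.P.MP_7a2702_mp.Basic

set_option autoImplicit false

open scoped MatrixGroups UpperHalfPlane ENNReal ComplexConjugate ContDiff
open MeasureTheory Filter Topology

namespace Pool.Agent.P.MP_7a2702_mp

theorem separate_fixed_eq {g : SL(2, ℝ)} {z : ℍ} (hz : g • z = z) :
    2 * g 1 0 * z.re = g 0 0 - g 1 1 ∧
      g 1 0 * (z.re ^ 2 - z.im ^ 2) + (g 1 1 - g 0 0) * z.re - g 0 1 = 0 := by
  have h1 := congrArg (fun w : ℍ => (w : ℂ)) hz
  simp only [UpperHalfPlane.coe_specialLinearGroup_apply, Algebra.algebraMap_self,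
    RingHom.id_apply] at h1
  have hd : ((g 1 0 : ℝ) : ℂ) * (z : ℂ) + ((g 1 1 : ℝ) : ℂ) ≠ 0 := by
    intro h0
    rw [h0, div_zero] at h1
    exact z.ne_zero h1.symm
  rw [div_eq_iff hd] at h1
  have hre := congrArg Complex.re h1
  have him := congrArg Complex.im h1
  simp only [Complex.add_re, Complex.mul_re, Complex.ofReal_re, Complex.ofReal_im, zero_mul,
    sub_zero, Complex.add_im, Complex.mul_im, add_zero, UpperHalfPlane.coe_re,
    UpperHalfPlane.coe_im] at hre him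
  have hy := z.im_pos
  constructor
  · apply mul_right_cancel₀ hy.ne'
    linarith
  · linarith

theorem separate_subsingleton {g : SL(2, ℝ)} (h1 : g ≠ 1) (h2 : g ≠ -1) :
    {z : ℍ | g • z = z}.Subsingleton := by
  intro z hz w hw
  obtain ⟨a1, a2⟩ := separate_fixed_eq hz
  obtain ⟨b1, b2⟩ := separate_fixed_eq hw
  have hdet : g 0 0 * g 1 1 - g 0 1 * g 1 0 = 1 := by
    have := g.det_coe
    rwa [Matrix.det_fin_two] at this
  by_cases hc : g 1 0 = 0
  · exfalso
    rw [hc] at a1 a2 hdet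
    have had : g 1 1 = g 0 0 := by linarith
    have hb : g 0 1 = 0 := by rw [had] at a2; linarith
    have : (g 0 0 - 1) * (g 0 0 + 1) = 0 := by rw [had] at hdet; linarith
    rcases mul_eq_zero.1 this with h | h
    · apply h1
      have h' : g 0 0 = 1 := by linarith
      ext i j
      fin_cases i <;> fin_cases j <;> simp [hc, hb, had, h']
    · apply h2
      have h' : g 0 0 = -1 := by linarith
      ext i j
      fin_cases i <;> fin_cases j <;> simp [hc, hb, had, h']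
  · have hre : z.re = w.re := by
      apply mul_left_cancel₀ (mul_ne_zero two_ne_zero hc)
      linarith
    have him : z.im ^ 2 = w.im ^ 2 := by
      apply mul_left_cancel₀ hc
      rw [hre] at a2
      linarith
    exact UpperHalfPlane.ext_re_im hre ((pow_left_inj₀ z.im_pos.le w.im_pos.le two_ne_zero).1 him)

theorem separate_uncountable : Uncountable ℍ := by
  refine Function.Injective.uncountable
    (f := fun x : ℝ => (⟨⟨x, 1⟩, one_pos⟩ : ℍ)) fun x y hxy => ?_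
  exact congrArg UpperHalfPlane.re hxy

theorem exists_separated {G : Subgroup SL(2, ℝ)} (hG : Cocpt G) (hneg : (-1 : SL(2, ℝ)) ∈ G)
    {ι : Type} [Finite ι] (a : SL(2, ℝ)) (b : ι → SL(2, ℝ)) (h : ∀ i, a * (b i)⁻¹ ∉ G) :
    ∃ (z₀ : ℍ) (δ : ℝ), 0 < δ ∧ ∀ z : ℍ, dist z z₀ ≤ δ → ∀ i, ∀ γ ∈ G,
      2 * δ ≤ dist (a • z) (γ • b i • z) := by
  have := hG.countable
  have := separate_uncountable
  have hc : (⋃ p : ι × G, {z : ℍ | (a⁻¹ * (p.2 : SL(2, ℝ)) * b p.1) • z = z}).Countable := by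
    refine Set.countable_iUnion fun p => (separate_subsingleton ?_ ?_).countable
    · intro h1
      apply h p.1
      have : a * (b p.1)⁻¹ = p.2 := by
        calc a * (b p.1)⁻¹ = a * (a⁻¹ * (p.2 : SL(2, ℝ)) * b p.1) * (b p.1)⁻¹ := by
              rw [h1, mul_one]
          _ = p.2 := by group
      rw [this]; exact p.2.2
    · intro h1
      apply h p.1
      have : a * (b p.1)⁻¹ = -1 * p.2 := by
        have e : (p.2 : SL(2, ℝ)) = -(a * (b p.1)⁻¹) := by
          calc (p.2 : SL(2, ℝ)) = a * (a⁻¹ * (p.2 : SL(2, ℝ)) * b p.1) * (b p.1)⁻¹ := by group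
            _ = _ := by rw [h1]; simp
        rw [e]; simp
      rw [this]; exact G.mul_mem hneg p.2.2
  obtain ⟨z₀, hz₀⟩ : ∃ z₀ : ℍ,
      z₀ ∉ ⋃ p : ι × G, {z : ℍ | (a⁻¹ * (p.2 : SL(2, ℝ)) * b p.1) • z = z} := by
    by_contra hcon
    push Not at hcon
    exact Set.not_countable_univ (hc.mono fun z _ => hcon z)
  have hpos : ∀ p : ι × G, 0 < dist (a • z₀) ((p.2 : SL(2, ℝ)) • b p.1 • z₀) := by
    intro p
    refine dist_pos.2 fun he => hz₀ (Set.mem_iUnion.2 ⟨p, ?_⟩)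
    show (a⁻¹ * (p.2 : SL(2, ℝ)) * b p.1) • z₀ = z₀
    rw [mul_smul, mul_smul, ← he, inv_smul_smul]
  have hfin : {p : ι × G | dist (a • z₀) ((p.2 : SL(2, ℝ)) • b p.1 • z₀) ≤ 1}.Finite := by
    refine (Set.finite_iUnion fun i : ι =>
      (hG.finite_ball (b i • z₀) (a • z₀) 1).image fun γ => (i, γ)).subset ?_
    rintro ⟨i, γ⟩ hp
    refine Set.mem_iUnion.2 ⟨i, γ, ?_, rfl⟩
    show dist _ _ ≤ _
    rw [dist_comm]; exact hp
  obtain ⟨η, hη, hη'⟩ : ∃ η : ℝ, 0 < η ∧
      ∀ p : ι × G, η ≤ dist (a • z₀) ((p.2 : SL(2, ℝ)) • b p.1 • z₀) := by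
    rcases Set.eq_empty_or_nonempty
      {p : ι × G | dist (a • z₀) ((p.2 : SL(2, ℝ)) • b p.1 • z₀) ≤ 1} with h0 | h0
    · refine ⟨1, one_pos, fun p => ?_⟩
      by_contra hp
      have : p ∈ {p : ι × G | dist (a • z₀) ((p.2 : SL(2, ℝ)) • b p.1 • z₀) ≤ 1} :=
        (lt_of_not_ge hp).le
      rw [h0] at this
      exact this
    · obtain ⟨p₀, hp₀, hmin⟩ := Set.exists_min_image _
        (fun p : ι × G => dist (a • z₀) ((p.2 : SL(2, ℝ)) • b p.1 • z₀)) hfin h0
      refine ⟨_, hpos p₀, fun p => ?_⟩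
      by_cases hp : dist (a • z₀) ((p.2 : SL(2, ℝ)) • b p.1 • z₀) ≤ 1
      · exact hmin p hp
      · exact le_trans hp₀ (lt_of_not_ge hp).le
  refine ⟨z₀, η / 4, by positivity, fun z hz i γ hγ => ?_⟩
  have h1 := hη' (i, ⟨γ, hγ⟩)
  have h2 : dist (a • z₀) (a • z) ≤ η / 4 := by rw [dist_smul, dist_comm]; exact hz
  have h3 : dist (γ • b i • z) (γ • b i • z₀) ≤ η / 4 := by rw [dist_smul, dist_smul]; exact hz
  have h4 := dist_triangle4 (a • z₀) (a • z) (γ • b i • z) (γ • b i • z₀)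
  simp only at h1
  linarith

end Pool.Agent.P.MP_7a2702_mp
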