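import Pool.Agent.P.MP_7a2702_mp.Basic

set_option autoImplicit false

open scoped MatrixGroups UpperHalfPlane ENNReal ComplexConjugate ContDiff
open MeasureTheory Filter Topology

namespace Pool.Agent.P.MP_7a2702_mp

/-- The number of group elements moving `z` into `B`. -/
noncomputable def unfoldAux_N (G : Subgroup SL(2, ℝ)) (B : Set ℍ) (z : ℍ) : ℝ≥0∞ :=
  ∑' γ : G, B.indicator (fun _ => (1 : ℝ≥0∞)) ((γ : SL(2, ℝ)) • z)

theorem unfoldAux_measurable {G : Subgroup SL(2, ℝ)} (hG : Cocpt G) {B : Set ℍ}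
    (hB : MeasurableSet B) : Measurable (unfoldAux_N G B) := by
  have := hG.countable
  exact Measurable.tsum fun γ =>
    (measurable_const.indicator hB).comp (measurableEmbedding_sl (γ : SL(2, ℝ))).measurable

theorem unfoldAux_smul {G : Subgroup SL(2, ℝ)} (B : Set ℍ) (g : G) (z : ℍ) :
    unfoldAux_N G B ((g : SL(2, ℝ)) • z) = unfoldAux_N G B z := by
  unfold unfoldAux_N
  rw [← (Equiv.mulRight g).tsum_eq
    fun γ : G => B.indicator (fun _ => (1 : ℝ≥0∞)) ((γ : SL(2, ℝ)) • z)]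
  simp only [Equiv.coe_mulRight, Subgroup.coe_mul, mul_smul]

theorem unfoldAux_one_le {G : Subgroup SL(2, ℝ)} {B : Set ℍ} {z : ℍ}
    (h : ∃ g ∈ G, g • z ∈ B) : 1 ≤ unfoldAux_N G B z := by
  obtain ⟨g, hg, hz⟩ := h
  refine le_trans ?_ (ENNReal.le_tsum (⟨g, hg⟩ : G))
  rw [Set.indicator_of_mem hz]

theorem unfoldAux_ne_top {G : Subgroup SL(2, ℝ)} (hG : Cocpt G) (R : ℝ) (z : ℍ) :
    unfoldAux_N G (Metric.closedBall UpperHalfPlane.I R) z ≠ ⊤ := by
  have hf := hG.finite_ball z UpperHalfPlane.I R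
  unfold unfoldAux_N
  rw [tsum_eq_sum (s := hf.toFinset) fun γ hγ =>
    Set.indicator_of_notMem (by simpa using hγ) _]
  refine ENNReal.sum_ne_top.2 fun γ _ => ne_top_of_le_ne_top ENNReal.one_ne_top ?_
  exact Set.indicator_le_self' (fun _ _ => zero_le_one) _

theorem Cocpt.nonempty_unf {G : Subgroup SL(2, ℝ)} (hG : Cocpt G) : Nonempty (Unf G) := by
  have := hG.countable
  obtain ⟨R, hR⟩ := hG.cov
  set B : Set ℍ := Metric.closedBall UpperHalfPlane.I R with hBdef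
  have hB : MeasurableSet B := Metric.isClosed_closedBall.measurableSet
  have hN : Measurable fun z => (unfoldAux_N G B z)⁻¹ := (unfoldAux_measurable hG hB).inv
  have h1 : ∀ z, 1 ≤ unfoldAux_N G B z := fun z => unfoldAux_one_le (hR z)
  refine ⟨⟨(volume.restrict B).withDensity fun z => (unfoldAux_N G B z)⁻¹, ⟨?_⟩, R, ?_, ?_⟩⟩
  · rw [withDensity_apply _ MeasurableSet.univ, Measure.restrict_univ]
    calc ∫⁻ z in B, (unfoldAux_N G B z)⁻¹ ≤ ∫⁻ _ in B, 1 :=
          lintegral_mono fun z => ENNReal.inv_le_one.2 (h1 z)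
      _ = volume B := by simp
      _ < ⊤ := (isCompact_closedBall _ _).measure_lt_top
  · refine withDensity_absolutelyContinuous _ _ ?_
    rw [Measure.restrict_apply hB.compl, Set.compl_inter_self, measure_empty]
  · intro F hF
    have hFs : ∀ γ : G, Measurable fun z : ℍ => F ((γ : SL(2, ℝ)) • z) := fun γ =>
      hF.comp (measurableEmbedding_sl (γ : SL(2, ℝ))).measurable
    have hI : Measurable (B.indicator fun _ => (1 : ℝ≥0∞)) := measurable_const.indicator hB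
    rw [lintegral_withDensity_eq_lintegral_mul _ hN (Measurable.tsum hFs),
      ← lintegral_indicator hB]
    have e1 : ∀ z, B.indicator ((fun z => (unfoldAux_N G B z)⁻¹) *
        fun z => ∑' γ : G, F ((γ : SL(2, ℝ)) • z)) z =
        ∑' γ : G, B.indicator (fun _ => (1 : ℝ≥0∞)) z *
          ((unfoldAux_N G B z)⁻¹ * F ((γ : SL(2, ℝ)) • z)) := by
      intro z
      rw [ENNReal.tsum_mul_left, ENNReal.tsum_mul_left]
      by_cases hz : z ∈ B
      · simp [Set.indicator_of_mem hz]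
      · simp [Set.indicator_of_notMem hz]
    have e2 : ∀ γ : G, ∫⁻ z, B.indicator (fun _ => (1 : ℝ≥0∞)) z *
          ((unfoldAux_N G B z)⁻¹ * F ((γ : SL(2, ℝ)) • z)) =
        ∫⁻ w, B.indicator (fun _ => (1 : ℝ≥0∞)) (((γ⁻¹ : G) : SL(2, ℝ)) • w) *
          ((unfoldAux_N G B w)⁻¹ * F w) := by
      intro γ
      rw [← lintegral_sl (γ : SL(2, ℝ)) fun w =>
        B.indicator (fun _ => (1 : ℝ≥0∞)) (((γ⁻¹ : G) : SL(2, ℝ)) • w) *
          ((unfoldAux_N G B w)⁻¹ * F w)]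
      simp only [unfoldAux_smul, Subgroup.coe_inv, inv_smul_smul]
    have m1 : ∀ γ : G, Measurable fun z : ℍ => B.indicator (fun _ => (1 : ℝ≥0∞)) z *
        ((unfoldAux_N G B z)⁻¹ * F ((γ : SL(2, ℝ)) • z)) := fun γ => hI.mul (hN.mul (hFs γ))
    have m2 : ∀ γ : G, Measurable fun w : ℍ =>
        B.indicator (fun _ => (1 : ℝ≥0∞)) (((γ⁻¹ : G) : SL(2, ℝ)) • w) *
          ((unfoldAux_N G B w)⁻¹ * F w) := fun γ =>
      (hI.comp (measurableEmbedding_sl ((γ⁻¹ : G) : SL(2, ℝ))).measurable).mul (hN.mul hF)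
    simp only [e1]
    rw [lintegral_tsum fun γ => (m1 γ).aemeasurable]
    simp only [e2]
    rw [← lintegral_tsum fun γ => (m2 γ).aemeasurable]
    refine lintegral_congr fun w => ?_
    have e3 : ∑' γ : G, B.indicator (fun _ => (1 : ℝ≥0∞)) (((γ⁻¹ : G) : SL(2, ℝ)) • w) =
        unfoldAux_N G B w :=
      (Equiv.inv G).tsum_eq fun γ : G => B.indicator (fun _ => (1 : ℝ≥0∞)) ((γ : SL(2, ℝ)) • w)
    rw [ENNReal.tsum_mul_right, e3, ← mul_assoc, ENNReal.mul_inv_cancel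
      (zero_lt_one.trans_le (h1 w)).ne' (unfoldAux_ne_top hG R w), one_mul]

end Pool.Agent.P.MP_7a2702_mp
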