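import Pool.Agent.P.MP_7a2702_mp.Parseval
import Pool.Agent.P.MP_7a2702_mp.Separate
import Pool.Agent.P.MP_7a2702_mp.MultTwo
import Pool.Agent.P.MP_7a2702_mp.NormLow
import Pool.Agent.P.MP_7a2702_mp.Unfold

set_option autoImplicit false

open scoped MatrixGroups UpperHalfPlane ENNReal ComplexConjugate ContDiff
open MeasureTheory Filter Topology

namespace Pool.Agent.P.MP_7a2702_mp

theorem lowerAux_volume_pos (z₀ : ℍ) {δ : ℝ} (hδ : 0 < δ) :
    0 < (volume : Measure ℍ) (Metric.closedBall z₀ δ) := by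
  refine pos_iff_ne_zero.2 fun h => volume_univ_ne_zero ?_
  have h0 : ∀ z : ℍ, (volume : Measure ℍ) (Metric.closedBall z δ) = 0 := by
    intro z
    obtain ⟨g, hg⟩ := MulAction.exists_smul_eq SL(2, ℝ) z z₀
    have h1 : (fun w : ℍ => g • w) ⁻¹' Metric.closedBall z₀ δ = Metric.closedBall z δ := by
      ext w
      simp only [Set.mem_preimage, Metric.mem_closedBall, ← hg, dist_smul]
    rw [← h1, (measurePreserving_sl g).measure_preimage
      Metric.isClosed_closedBall.measurableSet.nullMeasurableSet, h]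
  exact measure_null_of_locally_null _ fun z _ =>
    ⟨Metric.closedBall z δ, mem_nhdsWithin_of_mem_nhds (Metric.closedBall_mem_nhds z hδ), h0 z⟩

theorem lowerAux_extract {T : Type} [Countable T] {K : Set ℍ} (hK : IsCompact K)
    (g : T → ℍ → ℝ) (hg : ∀ t, Continuous (g t)) (hg0 : ∀ t z, 0 ≤ g t z) (b : T → ℝ)
    (hb : ∀ t, ∫ z in K, g t z ≤ b t) {x : ℝ} (hx : 0 < x) (hV : 0 < (volume : Measure ℍ) K)
    (h : ∀ z ∈ K, ∃ N, x ≤ N ∧ HasSum (fun t => g t z) N) :
    ∃ F : Finset T, x * (volume : Measure ℍ).real K / 2 ≤ ∑ t ∈ F, b t := by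
  have hint : ∀ t, IntegrableOn (g t) K := fun t => (hg t).continuousOn.integrableOn_compact hK
  have hb0 : ∀ t, 0 ≤ b t := fun t => (integral_nonneg (hg0 t)).trans (hb t)
  have hVr : 0 < (volume : Measure ℍ).real K := ENNReal.toReal_pos hV.ne' hK.measure_lt_top.ne
  have h1 : ENNReal.ofReal (x * (volume : Measure ℍ).real K) ≤ ∑' t, ENNReal.ofReal (b t) := by
    calc ENNReal.ofReal (x * (volume : Measure ℍ).real K)
        = ∫⁻ _ in K, ENNReal.ofReal x := by
          rw [setLIntegral_const, ENNReal.ofReal_mul hx.le, ofReal_measureReal hK.measure_lt_top.ne]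
      _ ≤ ∫⁻ z in K, ∑' t, ENNReal.ofReal (g t z) := by
          refine setLIntegral_mono' hK.measurableSet fun z hz => ?_
          obtain ⟨N, hN, hs⟩ := h z hz
          rw [← ENNReal.ofReal_tsum_of_nonneg (fun t => hg0 t z) hs.summable, hs.tsum_eq]
          exact ENNReal.ofReal_le_ofReal hN
      _ = ∑' t, ∫⁻ z in K, ENNReal.ofReal (g t z) :=
          lintegral_tsum fun t => (hg t).measurable.ennreal_ofReal.aemeasurable
      _ ≤ ∑' t, ENNReal.ofReal (b t) := by
          refine ENNReal.tsum_le_tsum fun t => ?_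
          rw [← ofReal_integral_eq_lintegral_ofReal (hint t) (Eventually.of_forall (hg0 t))]
          exact ENNReal.ofReal_le_ofReal (hb t)
  have h2 : ENNReal.ofReal (x * (volume : Measure ℍ).real K / 2) <
      ∑' t, ENNReal.ofReal (b t) :=
    ((ENNReal.ofReal_lt_ofReal_iff (by positivity)).2 (half_lt_self (by positivity))).trans_le h1
  rw [ENNReal.tsum_eq_iSup_sum, lt_iSup_iff] at h2
  obtain ⟨F, hF⟩ := h2
  rw [← ENNReal.ofReal_sum_of_nonneg fun t _ => hb0 t] at hF
  exact ⟨F, (ENNReal.ofReal_le_ofReal_iff (Finset.sum_nonneg fun t _ => hb0 t)).1 hF.le⟩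

theorem lower {G G₁ : Subgroup SL(2, ℝ)} (hG : Cocpt G) (hG₁ : Cocpt G₁) (hle : G ≤ G₁)
    (hneg : (-1 : SL(2, ℝ)) ∈ G₁) {m : ℕ} (a : Fin (m + 1) → SL(2, ℝ)) {β : SL(2, ℝ)}
    (hβ : β ∈ G₁)
    (h1 : ∀ γ ∈ G, ∃ π : Equiv.Perm (Fin (m + 1)), ∀ i, a i * γ * (a (π i))⁻¹ ∈ G₁)
    (h2 : ∀ i, a 0 * (a i * β)⁻¹ ∉ G₁) :
    ∃ c : ℝ, 0 < c ∧ ∀ᶠ s : ℕ in atTop, ∃ F : Finset ℝ, (∀ μ ∈ F, 2 ≤ mult G μ) ∧
      c * s ≤ ∑ μ ∈ F, (mult G μ : ℝ) * sel s μ ^ 2 := by
  classical
  obtain ⟨U⟩ := hG.nonempty_unf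
  obtain ⟨U₁⟩ := hG₁.nonempty_unf
  obtain ⟨B⟩ := nonempty_eigBasis hG₁ U₁
  obtain ⟨z₀, δ, hδ, hsep⟩ := exists_separated hG₁ hneg (a 0) (fun i => a i * β) h2
  obtain ⟨c₀, hc₀, hlow⟩ := norm_low hG₁ U₁ (m := m) hδ
  obtain ⟨C₀, hC₀⟩ := setIntegral_sq_le hG₁ U₁ z₀ δ
  obtain ⟨C, hC⟩ := upper hG₁ U₁
  set K := Metric.closedBall z₀ δ with hKdef
  have hK : IsCompact K := isCompact_closedBall _ _
  have hV := lowerAux_volume_pos z₀ hδ
  have hVr : 0 < (volume : Measure ℍ).real K := ENNReal.toReal_pos hV.ne' hK.measure_lt_top.ne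
  let ι := Fin (m + 1) ⊕ Fin (m + 1)
  let cf : ι → ℝ := Sum.elim (fun _ => 1) fun _ => -1
  let γ : ι → SL(2, ℝ) := Sum.elim a fun i => a i * β
  have hcf : ∀ i, cf i ^ 2 = 1 := by rintro (i | i) <;> simp [cf]
  have hsum : ∀ (F : ℍ → ℝ) (z : ℍ), ∑ i, cf i * F (γ i • z) =
      ∑ i, F (a i • z) - ∑ i, F (a i • β • z) := by
    intro F z
    simp [ι, cf, γ, Fintype.sum_sum_type, mul_smul, sub_eq_add_neg]
  set C₂ : ℝ := (Fintype.card ι : ℝ) * (Fintype.card ι * max C₀ 1) with hC₂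
  have hcard : (0 : ℝ) < Fintype.card ι := by exact_mod_cast Fintype.card_pos
  have hC₂0 : 0 < C₂ := by positivity
  have hbc : ∀ μ j, BC (B.e μ j) := fun μ j => hG₁.bc_of_mem (B.mem μ j)
  have hcont : ∀ μ j (g : SL(2, ℝ)), Continuous fun z : ℍ => B.e μ j (g • z) := fun μ j g =>
    (hbc μ j).1.comp (continuous_const_smul g)
  have hD : ∀ μ j, ∫ z in K, (∑ i, cf i * B.e μ j (γ i • z)) ^ 2 ≤ C₂ := by
    intro μ j
    have hi : ∀ i, IntegrableOn (fun z : ℍ => B.e μ j (γ i • z) ^ 2) K := fun i =>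
      ((hcont μ j _).pow 2).continuousOn.integrableOn_compact hK
    calc ∫ z in K, (∑ i, cf i * B.e μ j (γ i • z)) ^ 2
        ≤ ∫ z in K, (Fintype.card ι : ℝ) * ∑ i, B.e μ j (γ i • z) ^ 2 := by
          refine integral_mono ?_ ((integrable_finset_sum _ fun i _ => hi i).const_mul _) fun z => ?_
          · exact ((continuous_finset_sum _ fun i _ => continuous_const.mul (hcont μ j _)).pow
              2).continuousOn.integrableOn_compact hK
          · have := sq_sum_le_card_mul_sum_sq (s := Finset.univ)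
              (f := fun i => cf i * B.e μ j (γ i • z))
            simpa only [mul_pow, hcf, one_mul, Finset.card_univ] using this
      _ ≤ C₂ := by
          rw [integral_const_mul, integral_finset_sum _ fun i _ => hi i, hC₂]
          refine mul_le_mul_of_nonneg_left ?_ hcard.le
          rw [← nsmul_eq_mul, ← Finset.card_univ]
          refine Finset.sum_le_card_nsmul _ _ _ fun i _ => ?_
          have := hC₀ _ (hbc μ j) (mem_eigenSpace.1 (B.mem μ j)).2.1 (γ i)
          rw [B.on μ j j, if_pos rfl, mul_one] at this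
          exact this.trans (le_max_left _ _)
  have hsumm : Summable fun μ : ℝ => (mult G₁ μ : ℝ) * sel 3 μ ^ 2 :=
    summable_of_sum_le (fun μ => by positivity) (hC 3 le_rfl)
  set T : Set ℝ := Function.support fun μ : ℝ => (mult G₁ μ : ℝ) * sel 3 μ ^ 2 with hT
  have hTc : Countable T := hsumm.countable_support.to_subtype
  have hT0 : ∀ μ, μ ∉ T → mult G₁ μ = 0 := by
    intro μ hμ
    by_contra h
    have h0 : 0 ≤ μ := not_lt.1 fun h' => h (mult_neg hG₁ h')
    exact hμ (mul_pos (by exact_mod_cast Nat.pos_of_ne_zero h)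
      (pow_pos (sel_pos (by norm_num) h0) 2)).ne'
  refine ⟨c₀ * (volume : Measure ℍ).real K / 2 / C₂, by positivity, ?_⟩
  filter_upwards [hlow, eventually_ge_atTop 3] with s hs hs3
  have hm := mass_pos (s := s) (by omega)
  have hs0 : (0 : ℝ) < s := by exact_mod_cast (by omega : 0 < s)
  obtain ⟨F, hF⟩ := lowerAux_extract (T := T) hK
    (fun μ z => sel s μ ^ 2 * ∑ j, (∑ i, cf i * B.e μ j (γ i • z)) ^ 2)
    (fun μ => continuous_const.mul (continuous_finset_sum _ fun j _ =>
      (continuous_finset_sum _ fun i _ => continuous_const.mul (hcont μ j _)).pow 2))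
    (fun μ z => by positivity)
    (fun μ => C₂ * if 2 ≤ mult G μ then (mult G μ : ℝ) * sel s μ ^ 2 else 0)
    (fun μ => by
      split_ifs with h
      · have hi : ∀ j, IntegrableOn (fun z : ℍ => (∑ i, cf i * B.e μ j (γ i • z)) ^ 2) K :=
          fun j => ((continuous_finset_sum _ fun i _ =>
            continuous_const.mul (hcont μ j _)).pow 2).continuousOn.integrableOn_compact hK
        rw [integral_const_mul, integral_finset_sum _ fun j _ => hi j]
        have h3 : ∑ j, ∫ z in K, (∑ i, cf i * B.e μ j (γ i • z)) ^ 2 ≤ (mult G₁ μ : ℝ) * C₂ := by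
          have := Finset.sum_le_card_nsmul Finset.univ _ _ fun j _ => hD μ j
          simpa using this
        have h4 : (mult G₁ μ : ℝ) ≤ mult G μ := by exact_mod_cast mult_mono hG U hle μ
        have h5 := h3.trans (mul_le_mul_of_nonneg_right h4 hC₂0.le)
        have h6 := mul_le_mul_of_nonneg_left h5 (sq_nonneg (sel s μ))
        linarith
      · have h3 : ∀ j z, ∑ i, cf i * B.e μ j (γ i • z) = 0 := fun j z => by
          rw [hsum, sub_eq_zero]
          by_contra hne
          exact h (two_le_mult hG U hle a hβ h1 (B.mem μ j) hne)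
        simp [h3])
    (x := c₀ * s) (by positivity) hV (fun z hz => by
      have h3 := parseval hG₁ U₁ B hs3 cf fun i => γ i • z
      have h4 := hs (fun i => a i • z) (fun i => a i • β • z) fun i g hg => by
        have := hsep z hz i g hg
        rwa [mul_smul] at this
      have h5 : ∀ w, ∑ i, cf i * kern G₁ s (γ i • z) w =
          ∑ i, kern G₁ s (a i • z) w - ∑ i, kern G₁ s (a i • β • z) w := fun w =>
        hsum (fun p => kern G₁ s p w) z
      simp only [h5] at h3
      refine ⟨_, (le_div_iff₀ (pow_pos hm 2)).2 h4, ?_⟩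
      have h6 := h3.div_const (mass s ^ 2)
      have h7 : ∀ μ : ℝ, (mass s * sel s μ) ^ 2 * (∑ j, (∑ i, cf i * B.e μ j (γ i • z)) ^ 2) /
          mass s ^ 2 = sel s μ ^ 2 * ∑ j, (∑ i, cf i * B.e μ j (γ i • z)) ^ 2 := fun μ => by
        field_simp
      simp only [h7] at h6
      refine (hasSum_subtype_iff_of_support_subset (s := T) fun μ hμ => ?_).2 h6
      by_contra hμT
      have : IsEmpty (Fin (mult G₁ μ)) := by rw [hT0 μ hμT]; infer_instance
      exact hμ (by simp))
  refine ⟨(F.map (Function.Embedding.subtype _)).filter fun μ => 2 ≤ mult G μ,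
    fun μ hμ => (Finset.mem_filter.1 hμ).2, ?_⟩
  rw [Finset.sum_filter, Finset.sum_map, div_mul_eq_mul_div, div_le_iff₀ hC₂0, Finset.sum_mul]
  rw [show c₀ * (volume : Measure ℍ).real K / 2 * s =
    c₀ * s * (volume : Measure ℍ).real K / 2 by ring]
  refine hF.trans_eq (Finset.sum_congr rfl fun μ _ => ?_)
  rw [mul_comm]
  rfl

end Pool.Agent.P.MP_7a2702_mp
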