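import Pool.Agent.P.MP_7a2702_mp.Basic

set_option autoImplicit false

open scoped MatrixGroups UpperHalfPlane ENNReal ComplexConjugate ContDiff
open MeasureTheory Filter Topology

namespace Pool.Agent.P.MP_7a2702_mp

theorem realComplexAux_lap {E F : Type} [NormedAddCommGroup E] [NormedSpace ℝ E]
    [NormedAddCommGroup F] [NormedSpace ℝ F] (l : E →L[ℝ] F) {f : ℍ → E} (hf : Smooth f) :
    Smooth (fun z => l (f z)) ∧ ∀ z, hypLaplacian (fun z => l (f z)) z = l (hypLaplacian f z) := by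
  refine ⟨l.contDiff.comp_contDiffOn hf, fun z => ?_⟩
  have h := (hf.contDiffAt z).laplacian_CLM_comp_left (l := l)
  rw [hypLaplacian, hypLaplacian, map_smul]
  exact congrArg _ h

theorem realComplexAux_mem {G : Subgroup SL(2, ℝ)} {μ : ℝ} {𝕜 𝕜' : Type} [RCLike 𝕜] [RCLike 𝕜']
    (l : 𝕜 →L[ℝ] 𝕜') {f : ℍ → 𝕜} (hf : f ∈ eigenSpace 𝕜 G μ) :
    (fun z => l (f z)) ∈ eigenSpace 𝕜' G μ := by
  obtain ⟨h1, h2, h3⟩ := hf
  refine ⟨(realComplexAux_lap l h1).1, fun g hg z => congrArg l (h2 g hg z), fun z => ?_⟩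
  rw [(realComplexAux_lap l h1).2, ← map_neg, h3, ← RCLike.real_smul_eq_coe_mul, map_smul,
    RCLike.real_smul_eq_coe_mul]

/-- Real and imaginary parts of a complex eigenfunction. -/
noncomputable def realComplexAux_equiv (G : Subgroup SL(2, ℝ)) (μ : ℝ) :
    eigenSpace ℂ G μ ≃ₗ[ℝ] eigenSpace ℝ G μ × eigenSpace ℝ G μ where
  toFun f := (⟨fun z => Complex.reCLM (f.1 z), realComplexAux_mem Complex.reCLM f.2⟩,
    ⟨fun z => Complex.imCLM (f.1 z), realComplexAux_mem Complex.imCLM f.2⟩)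
  map_add' f g := by ext z <;> simp
  map_smul' c f := by ext z <;> simp
  invFun p := ⟨fun z => Complex.ofRealCLM (p.1.1 z), realComplexAux_mem Complex.ofRealCLM p.1.2⟩ +
    Complex.I • ⟨fun z => Complex.ofRealCLM (p.2.1 z), realComplexAux_mem Complex.ofRealCLM p.2.2⟩
  left_inv f := by
    ext z
    simp [mul_comm Complex.I]
  right_inv p := by ext z <;> simp

theorem finrank_complex (G : Subgroup SL(2, ℝ)) (μ : ℝ)
    (h : FiniteDimensional ℝ (eigenSpace ℝ G μ)) :
    FiniteDimensional ℂ (eigenSpace ℂ G μ) ∧ Module.finrank ℂ (eigenSpace ℂ G μ) = mult G μ := by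
  have h1 : Module.Finite ℝ (eigenSpace ℂ G μ) :=
    Module.Finite.equiv (realComplexAux_equiv G μ).symm
  refine ⟨Module.Finite.of_restrictScalars_finite ℝ ℂ _, ?_⟩
  have h2 := (realComplexAux_equiv G μ).finrank_eq
  rw [Module.finrank_prod, finrank_real_of_complex] at h2
  unfold mult
  omega

end Pool.Agent.P.MP_7a2702_mp
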