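import Pool.Agent.P.MP_7a2702_mp.Lower
import Pool.Agent.P.MP_7a2702_mp.CountA
import Pool.Agent.P.MP_7a2702_mp.CountB
import Pool.Agent.P.MP_7a2702_mp.RealComplex

set_option autoImplicit false

open scoped MatrixGroups UpperHalfPlane ENNReal ComplexConjugate ContDiff
open MeasureTheory Filter Topology

namespace Pool.Agent.P.MP_7a2702_mp

theorem finite_level {l : ℕ → ℝ} (hlt : Tendsto l atTop atTop) (t : ℝ) :
    {k | l k = t}.Finite := by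
  obtain ⟨N, hN⟩ := eventually_atTop.1 (hlt.eventually_gt_atTop t)
  refine (Set.finite_Iio N).subset fun k hk => ?_
  by_contra h
  exact (hN k (not_lt.1 h)).ne' hk

/-- Sums over a set of indices which is a union of parts of levels. -/
theorem sum_le_sum_image {l : ℕ → ℝ} (hlt : Tendsto l atTop atTop) (hl0 : ∀ k, 0 ≤ l k)
    (m : ℝ → ℕ) (hm : ∀ t : ℝ, 0 ≤ t → {k | l k = t}.ncard = m (t ^ 2)) (h : ℝ → ℝ)
    (hh : ∀ μ, 0 ≤ h μ) (S : Finset ℕ) :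
    ∑ k ∈ S, h (l k ^ 2) ≤ ∑ μ ∈ S.image fun k => l k ^ 2, (m μ : ℝ) * h μ := by
  classical
  rw [← Finset.sum_fiberwise_of_maps_to (g := fun k => l k ^ 2)
    (t := S.image fun k => l k ^ 2) fun k hk => Finset.mem_image_of_mem _ hk]
  refine Finset.sum_le_sum fun μ hμ => ?_
  obtain ⟨k₀, -, rfl⟩ := Finset.mem_image.1 hμ
  rw [Finset.sum_congr rfl (g := fun _ => h (l k₀ ^ 2))
    (fun k hk => by rw [(Finset.mem_filter.1 hk).2]), Finset.sum_const, nsmul_eq_mul]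
  refine mul_le_mul_of_nonneg_right ?_ (hh _)
  rw [← hm _ (hl0 k₀), ← Set.ncard_coe_finset]
  refine Nat.cast_le.2 (Set.ncard_le_ncard (fun k hk => ?_) (finite_level hlt _))
  have := (Finset.mem_filter.1 (Finset.mem_coe.1 hk)).2
  exact (pow_left_inj₀ (hl0 k) (hl0 k₀) two_ne_zero).1 this

theorem analytic_main {G G₁ : Subgroup SL(2, ℝ)} (hG : Cocpt G) (hG₁ : Cocpt G₁) (hle : G ≤ G₁)
    (hneg : (-1 : SL(2, ℝ)) ∈ G₁) {m : ℕ} (a : Fin (m + 1) → SL(2, ℝ)) {β : SL(2, ℝ)}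
    (hβ : β ∈ G₁)
    (h1 : ∀ γ ∈ G, ∃ π : Equiv.Perm (Fin (m + 1)), ∀ i, a i * γ * (a (π i))⁻¹ ∈ G₁)
    (h2 : ∀ i, a 0 * (a i * β)⁻¹ ∉ G₁) :
    ∃ l : ℕ → ℝ, (Monotone l ∧ (∀ k, 0 ≤ l k) ∧ Tendsto l atTop atTop ∧
      ∀ t : ℝ, 0 ≤ t → FiniteDimensional ℂ (eigenSpace ℂ G (t ^ 2)) ∧
        {k | l k = t}.ncard = Module.finrank ℂ (eigenSpace ℂ G (t ^ 2))) ∧
      ∃ a b : ℝ, a < b ∧ ∀ A : ℝ, ¬ Tendsto (pairCorr A l a b) atTop (𝓝 (b - a)) := by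
  classical
  obtain ⟨U⟩ := hG.nonempty_unf
  obtain ⟨C, hC⟩ := upper hG U
  obtain ⟨c, hc, hL⟩ := lower hG hG₁ hle hneg a hβ h1 h2
  have hfin : ∀ L : ℝ, {t : ℝ | 0 ≤ t ∧ t ≤ L ∧ mult G (t ^ 2) ≠ 0}.Finite := by
    intro L
    by_contra hinf
    have hp : 0 < sel 3 (L ^ 2) ^ 2 := pow_pos (sel_pos (by norm_num) (sq_nonneg L)) 2
    obtain ⟨n, hn⟩ := exists_nat_gt (C * (3 : ℕ) / sel 3 (L ^ 2) ^ 2)
    obtain ⟨S, hS, hcard⟩ := Set.Infinite.exists_subset_card_eq hinf n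
    have hinj : Set.InjOn (fun t : ℝ => t ^ 2) S := fun x hx y hy hxy =>
      (pow_left_inj₀ (hS hx).1 (hS hy).1 two_ne_zero).1 hxy
    have h3 := hC 3 le_rfl (S.image fun t => t ^ 2)
    rw [Finset.sum_image hinj] at h3
    have h4 : (n : ℝ) * sel 3 (L ^ 2) ^ 2 ≤
        ∑ t ∈ S, (mult G (t ^ 2) : ℝ) * sel 3 (t ^ 2) ^ 2 := by
      rw [← hcard, ← nsmul_eq_mul, ← Finset.sum_const]
      refine Finset.sum_le_sum fun t ht => ?_
      obtain ⟨ht0, htL, htm⟩ := hS ht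
      have h5 : sel 3 (L ^ 2) ≤ sel 3 (t ^ 2) := sel_antitoneOn (by norm_num) (sq_nonneg t)
        (sq_nonneg L) (pow_le_pow_left₀ ht0 htL 2)
      have h6 : (1 : ℝ) ≤ mult G (t ^ 2) := by exact_mod_cast Nat.one_le_iff_ne_zero.2 htm
      have h7 := pow_le_pow_left₀ (sel_pos (by norm_num) (sq_nonneg L)).le h5 2
      nlinarith
    rw [div_lt_iff₀ hp] at hn
    linarith
  have hnonneg : ∀ μ, mult G μ ≠ 0 → 0 ≤ μ := fun μ h => not_lt.1 fun h' => h (mult_neg hG h')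
  have hinf : {t : ℝ | 0 ≤ t ∧ mult G (t ^ 2) ≠ 0}.Infinite := by
    intro hf
    set B : ℝ := ∑ t ∈ hf.toFinset, (mult G (t ^ 2) : ℝ) with hB
    obtain ⟨s, ⟨F, hF, hs⟩, hs3, hsB⟩ := (hL.and ((eventually_ge_atTop 3).and
      ((tendsto_natCast_atTop_atTop.const_mul_atTop hc).eventually_gt_atTop B))).exists
    have hF0 : ∀ μ ∈ F, 0 ≤ μ := fun μ hμ => hnonneg μ (by have := hF μ hμ; omega)
    have h3 : ∑ μ ∈ F, (mult G μ : ℝ) * sel s μ ^ 2 ≤ ∑ μ ∈ F, (mult G μ : ℝ) :=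
      Finset.sum_le_sum fun μ hμ => mul_le_of_le_one_right (Nat.cast_nonneg _)
        (pow_le_one₀ (sel_pos (by omega) (hF0 μ hμ)).le (sel_le_one (by omega) (hF0 μ hμ)))
    have h4 : ∑ μ ∈ F, (mult G μ : ℝ) ≤ B := by
      have hinj : Set.InjOn (fun t : ℝ => t ^ 2) hf.toFinset := fun x hx y hy hxy =>
        (pow_left_inj₀ (hf.mem_toFinset.1 hx).1 (hf.mem_toFinset.1 hy).1 two_ne_zero).1 hxy
      rw [hB, ← Finset.sum_image (f := fun μ => (mult G μ : ℝ)) hinj]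
      refine Finset.sum_le_sum_of_subset_of_nonneg (fun μ hμ => ?_) fun _ _ _ => Nat.cast_nonneg _
      refine Finset.mem_image.2 ⟨√μ, hf.mem_toFinset.2 ⟨Real.sqrt_nonneg _, ?_⟩,
        Real.sq_sqrt (hF0 μ hμ)⟩
      rw [Real.sq_sqrt (hF0 μ hμ)]
      have := hF μ hμ
      omega
    linarith
  obtain ⟨l, hl, hl0, hlt, hm⟩ := exists_listing (fun t => mult G (t ^ 2)) hfin hinf
  refine ⟨l, ⟨hl, hl0, hlt, fun t ht => ?_⟩, ?_⟩
  · obtain ⟨h3, h4⟩ := finrank_complex G (t ^ 2) (finiteDimensional_eigenSpace hG U _)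
    exact ⟨h3, by rw [h4, hm t ht]⟩
  refine not_poisson l hl hl0 hlt (fun s t => sel s (t ^ 2) ^ 2) (C := C) (c := c)
    (fun s hs t _ => ⟨sq_nonneg _, pow_le_one₀ (sel_pos (by omega) (sq_nonneg t)).le
      (sel_le_one (by omega) (sq_nonneg t))⟩)
    (fun s hs t ht t' _ htt => pow_le_pow_left₀ (sel_pos (by omega) (sq_nonneg t')).le
      (sel_antitoneOn (by omega) (sq_nonneg t) (sq_nonneg t') (pow_le_pow_left₀ ht htt 2)) 2) hc
    (fun s hs N => (sum_le_sum_image hlt hl0 (mult G) hm (fun μ => sel s μ ^ 2)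
      (fun _ => sq_nonneg _) _).trans (hC s hs _)) ?_
  filter_upwards [hL] with s ⟨F, hF, hs⟩
  have hF0 : ∀ μ ∈ F, 0 ≤ μ := fun μ hμ => hnonneg μ (by have := hF μ hμ; omega)
  refine ⟨F.biUnion fun μ => (finite_level hlt √μ).toFinset, fun k hk => ?_, hs.trans_eq ?_⟩
  · obtain ⟨μ, hμ, hk⟩ := Finset.mem_biUnion.1 hk
    have hk' : l k = √μ := (finite_level hlt √μ).mem_toFinset.1 hk
    have h3 : 1 < {j | l j = √μ}.ncard := by
      rw [hm _ (Real.sqrt_nonneg μ), Real.sq_sqrt (hF0 μ hμ)]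
      exact hF μ hμ
    obtain ⟨j, hj, hjk⟩ := Set.exists_ne_of_one_lt_ncard h3 k
    exact ⟨j, hjk, by rw [hk']; exact hj⟩
  · rw [Finset.sum_biUnion]
    · refine Finset.sum_congr rfl fun μ hμ => ?_
      rw [Finset.sum_congr rfl (g := fun _ => sel s μ ^ 2) (fun k hk => by
        rw [(finite_level hlt √μ).mem_toFinset.1 hk, Real.sq_sqrt (hF0 μ hμ)]),
        Finset.sum_const, nsmul_eq_mul, ← Set.ncard_eq_toFinset_card _ (finite_level hlt √μ),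
        hm _ (Real.sqrt_nonneg μ), Real.sq_sqrt (hF0 μ hμ)]
    · intro μ hμ μ' hμ' hne
      refine Finset.disjoint_left.2 fun k hk hk' => hne ?_
      have h3 : l k = √μ := (finite_level hlt √μ).mem_toFinset.1 hk
      have h4 : l k = √μ' := (finite_level hlt √μ').mem_toFinset.1 hk'
      rw [← Real.sq_sqrt (hF0 μ hμ), ← Real.sq_sqrt (hF0 μ' hμ'), ← h3, ← h4]

end Pool.Agent.P.MP_7a2702_mp
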