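import Pool.Agent.P.MP_7a2702_mp.Order

set_option autoImplicit false

open scoped MatrixGroups UpperHalfPlane ENNReal ComplexConjugate ContDiff
open MeasureTheory Filter Topology

namespace Pool.Agent.P.MP_7a2702_mp

/-- The coordinates. -/
def normO_co (G : Qu ℝ) : Fin 4 → ℝ := ![G.re, G.imI, G.imJ, G.imK]

theorem normO_prod (G : Qu ℝ) (hn : nrd G = 1) (y1 y2 y3 : Qu ℤ)
    (h1 : G * ⟨0, 1, 0, 0⟩ * star G = Qu.map (Int.castRingHom ℝ) y1)
    (h2 : G * ⟨0, 0, 1, 0⟩ * star G = Qu.map (Int.castRingHom ℝ) y2)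
    (h3 : G * ⟨0, 0, 0, 1⟩ * star G = Qu.map (Int.castRingHom ℝ) y3) (u w : Fin 4) :
    ∃ t : ℤ, 65 * normO_co G u * normO_co G w = t := by
  have h10 := congrArg QuaternionAlgebra.re h1
  have h11 := congrArg QuaternionAlgebra.imI h1
  have h12 := congrArg QuaternionAlgebra.imJ h1
  have h13 := congrArg QuaternionAlgebra.imK h1
  have h20 := congrArg QuaternionAlgebra.re h2
  have h21 := congrArg QuaternionAlgebra.imI h2
  have h22 := congrArg QuaternionAlgebra.imJ h2
  have h23 := congrArg QuaternionAlgebra.imK h2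
  have h30 := congrArg QuaternionAlgebra.re h3
  have h31 := congrArg QuaternionAlgebra.imI h3
  have h32 := congrArg QuaternionAlgebra.imJ h3
  have h33 := congrArg QuaternionAlgebra.imK h3
  simp [Qu.map_apply] at h10 h11 h12 h13 h20 h21 h22 h23 h30 h31 h32 h33
  unfold nrd at hn
  fin_cases u <;> fin_cases w
  · refine ⟨(13) * 1 + (13) * y1.imI + (26) * y2.imJ + (-13) * y2.imK + (-13) * y3.imJ + (13) * y3.imK, ?_⟩
    simp only [normO_co]; simp
    linear_combination (13) * hn + (13) * h11 + (26) * h22 + (-13) * h23 + (-13) * h32 + (13) * h33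
  · refine ⟨(7) * 1 + (-1) * y1.re + (6) * y1.imI + (-13) * y2.imJ + (13) * y2.imK + (13) * y3.imJ, ?_⟩
    simp only [normO_co]; simp
    linear_combination (7) * hn + (-1) * h10 + (6) * h11 + (-13) * h22 + (13) * h23 + (13) * h32
  · refine ⟨(13) * y1.imJ + (-13) * y1.imK + (-1) * y2.re + (-1) * y3.imI, ?_⟩
    simp only [normO_co]; simp
    linear_combination (13) * h12 + (-13) * h13 + (-1) * h20 + (-1) * h31
  · refine ⟨(-13) * y1.imJ + (-1) * y2.re + (1) * y2.imI + (1) * y3.re, ?_⟩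
    simp only [normO_co]; simp
    linear_combination (-13) * h12 + (-1) * h20 + (1) * h21 + (1) * h30
  · refine ⟨(7) * 1 + (-1) * y1.re + (6) * y1.imI + (-13) * y2.imJ + (13) * y2.imK + (13) * y3.imJ, ?_⟩
    simp only [normO_co]; simp
    linear_combination (7) * hn + (-1) * h10 + (6) * h11 + (-13) * h22 + (13) * h23 + (13) * h32
  · refine ⟨(-13) * 1 + (-13) * y1.imI + (13) * y2.imJ + (13) * y3.imK, ?_⟩
    simp only [normO_co]; simp
    linear_combination (-13) * hn + (-13) * h11 + (13) * h22 + (13) * h33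
  · refine ⟨(-13) * y1.imJ + (-1) * y2.imI + (1) * y3.re, ?_⟩
    simp only [normO_co]; simp
    linear_combination (-13) * h12 + (-1) * h21 + (1) * h30
  · refine ⟨(-13) * y1.imK + (1) * y2.re + (1) * y3.imI, ?_⟩
    simp only [normO_co]; simp
    linear_combination (-13) * h13 + (1) * h20 + (1) * h31
  · refine ⟨(13) * y1.imJ + (-13) * y1.imK + (-1) * y2.re + (-1) * y3.imI, ?_⟩
    simp only [normO_co]; simp
    linear_combination (13) * h12 + (-13) * h13 + (-1) * h20 + (-1) * h31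
  · refine ⟨(-13) * y1.imJ + (-1) * y2.imI + (1) * y3.re, ?_⟩
    simp only [normO_co]; simp
    linear_combination (-13) * h12 + (-1) * h21 + (1) * h30
  · refine ⟨(-1) * 1 + (1) * y1.imI + (-1) * y2.imJ + (-1) * y3.imJ + (1) * y3.imK, ?_⟩
    simp only [normO_co]; simp
    linear_combination (-1) * hn + (1) * h11 + (-1) * h22 + (-1) * h32 + (1) * h33
  · refine ⟨(-1) * y1.re + (-1) * y2.imK + (1) * y3.imJ, ?_⟩
    simp only [normO_co]; simp
    linear_combination (-1) * h10 + (-1) * h23 + (1) * h32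
  · refine ⟨(-13) * y1.imJ + (-1) * y2.re + (1) * y2.imI + (1) * y3.re, ?_⟩
    simp only [normO_co]; simp
    linear_combination (-13) * h12 + (-1) * h20 + (1) * h21 + (1) * h30
  · refine ⟨(-13) * y1.imK + (1) * y2.re + (1) * y3.imI, ?_⟩
    simp only [normO_co]; simp
    linear_combination (-13) * h13 + (1) * h20 + (1) * h31
  · refine ⟨(-1) * y1.re + (-1) * y2.imK + (1) * y3.imJ, ?_⟩
    simp only [normO_co]; simp
    linear_combination (-1) * h10 + (-1) * h23 + (1) * h32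
  · refine ⟨(1) * 1 + (-1) * y1.imI + (-1) * y2.imJ + (-1) * y2.imK + (1) * y3.imK, ?_⟩
    simp only [normO_co]; simp
    linear_combination (1) * hn + (-1) * h11 + (-1) * h22 + (-1) * h23 + (1) * h33

theorem normO_dvd {b : Fin 4 → ℤ} (hb : Finset.univ.gcd b = 1) {n m : ℤ}
    (h : ∀ w, n ∣ m * b w) : n ∣ m := by
  have := Finset.dvd_gcd (s := Finset.univ) (f := fun w => m * b w) fun w _ => h w
  rwa [Finset.gcd_mul_left, hb, mul_one, dvd_normalize_iff] at this

/-- An element of `SL(2, ℝ)` normalising the order is proportional to an element of the order of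
norm 1, 5, 13 or 65. -/
theorem exists_of_normalizes (g : SL(2, ℝ))
    (hg : ∀ x : Qu ℤ, ∃ y : Qu ℤ, (g : Matrix (Fin 2) (Fin 2) ℝ) * rho x = rho y * g) :
    ∃ (b : Qu ℤ) (c : ℝ), c ≠ 0 ∧ rho b = c • (g : Matrix (Fin 2) (Fin 2) ℝ) ∧
      (nrd b = 1 ∨ nrd b = 5 ∨ nrd b = 13 ∨ nrd b = 65) := by
  obtain ⟨G, hG⟩ := rhoR_surjective (g : Matrix (Fin 2) (Fin 2) ℝ)
  have hn : nrd G = 1 := by rw [← det_rhoR, hG, g.det_coe]
  have key : ∀ x : Qu ℤ, ∃ y : Qu ℤ,
      G * Qu.map (Int.castRingHom ℝ) x * star G = Qu.map (Int.castRingHom ℝ) y := by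
    intro x
    obtain ⟨y, hy⟩ := hg x
    refine ⟨y, ?_⟩
    have : G * Qu.map (Int.castRingHom ℝ) x = Qu.map (Int.castRingHom ℝ) y * G := by
      apply rhoR_injective
      rw [map_mul, map_mul, hG]
      exact hy
    rw [this, mul_assoc, mul_star_eq, hn, one_smul, mul_one]
  obtain ⟨y1, h1⟩ := key ⟨0, 1, 0, 0⟩
  obtain ⟨y2, h2⟩ := key ⟨0, 0, 1, 0⟩
  obtain ⟨y3, h3⟩ := key ⟨0, 0, 0, 1⟩
  choose T hT using normO_prod G hn y1 y2 y3 (by simpa [Qu.map_apply] using h1)
    (by simpa [Qu.map_apply] using h2) (by simpa [Qu.map_apply] using h3)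
  obtain ⟨u, hu⟩ : ∃ u, normO_co G u ≠ 0 := by
    by_contra h
    push Not at h
    have h0 : G.re = 0 := h 0
    have h1 : G.imI = 0 := h 1
    have h2 : G.imJ = 0 := h 2
    have h3 : G.imK = 0 := h 3
    simp [nrd, h0, h1, h2, h3] at hn
  obtain ⟨b, hb, hb1⟩ := Finset.extract_gcd (T u) (Finset.univ_nonempty (α := Fin 4))
  set d := Finset.univ.gcd (T u) with hd
  have hd0 : (d : ℝ) ≠ 0 := by
    intro h
    have h' : d = 0 := by exact_mod_cast h
    have := hT u u
    rw [hb u (Finset.mem_univ _), h'] at this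
    simp [hu] at this
  set c := 65 * normO_co G u / d with hc
  have hc0 : c ≠ 0 := by positivity
  have hbc : ∀ w, (b w : ℝ) = c * normO_co G w := by
    intro w
    have := hT u w
    rw [hb w (Finset.mem_univ _)] at this
    push_cast at this
    rw [hc]; field_simp; linarith
  have hmap : Qu.map (Int.castRingHom ℝ) ⟨b 0, b 1, b 2, b 3⟩ = c • G := by
    ext
    exacts [hbc 0, hbc 1, hbc 2, hbc 3]
  have hnb : ((nrd (⟨b 0, b 1, b 2, b 3⟩ : Qu ℤ) : ℤ) : ℝ) = c ^ 2 := by
    have := nrd_map (Int.castRingHom ℝ) (⟨b 0, b 1, b 2, b 3⟩ : Qu ℤ)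
    rw [hmap, nrd_smul, hn, mul_one] at this
    exact this.symm
  refine ⟨⟨b 0, b 1, b 2, b 3⟩, c, hc0, ?_, ?_⟩
  · rw [rho, RingHom.comp_apply, hmap, rhoR_smul, hG]
  · set n := nrd (⟨b 0, b 1, b 2, b 3⟩ : Qu ℤ)
    have hpos : 0 < n := by
      have : (0 : ℝ) < n := by rw [hnb]; positivity
      exact_mod_cast this
    have hdv : n ∣ 65 := normO_dvd hb1 fun v => normO_dvd hb1 fun w => ⟨T v w, by
      have : ((65 * b v * b w : ℤ) : ℝ) = (n * T v w : ℤ) := by
        push_cast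
        rw [hnb, hbc, hbc, ← hT]; ring
      exact_mod_cast this⟩
    have hle := Int.le_of_dvd (by norm_num) hdv
    obtain ⟨k, hk⟩ := hdv
    interval_cases n <;> omega

end Pool.Agent.P.MP_7a2702_mp
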