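import Pool.Agent.P.MP_7a2702_mp.NormO
import Pool.Agent.P.MP_7a2702_mp.Fin7
import Pool.Agent.P.MP_7a2702_mp.Fin17

set_option autoImplicit false

open scoped MatrixGroups UpperHalfPlane ENNReal ComplexConjugate ContDiff
open MeasureTheory Filter Topology

namespace Pool.Agent.P.MP_7a2702_mp

theorem normalizerAux_exists {x : Qu ℤ} (hx : Good x) :
    ∃ γ ∈ G0, (γ : Matrix (Fin 2) (Fin 2) ℝ) = rho x :=
  ⟨⟨rho x, by rw [det_rho, hx.1]; simp⟩, ⟨x, hx, rfl⟩, rfl⟩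

theorem normalizerAux_conj {g : SL(2, ℝ)} (hg : ∀ γ ∈ G0, g * γ * g⁻¹ ∈ G0) {x : Qu ℤ}
    (hx : Good x) : ∃ y, Good y ∧ (g : Matrix (Fin 2) (Fin 2) ℝ) * rho x = rho y * g := by
  obtain ⟨γ, hγ, he⟩ := normalizerAux_exists hx
  obtain ⟨y, hy, hy'⟩ := hg γ hγ
  refine ⟨y, hy, ?_⟩
  rw [hy', ← he, ← Matrix.SpecialLinearGroup.coe_mul, ← Matrix.SpecialLinearGroup.coe_mul,
    inv_mul_cancel_right]

theorem normalizerAux_good1 : Good 1 :=
  ⟨nrd_one, by rw [map_one]; exact H7_one, by rw [map_one]; exact H17_one⟩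

theorem normalizerAux_goodA : Good ⟨2, -10, -9, 6⟩ :=
  ⟨by simp [nrd], by decide +kernel, by decide +kernel⟩

theorem normalizerAux_goodD : Good ⟨24, 36, 23, 37⟩ :=
  ⟨by simp [nrd], by decide +kernel, by decide +kernel⟩

theorem normalizerAux_goodB : Good ⟨8, 18, -24, -39⟩ :=
  ⟨by simp [nrd], by decide +kernel, by decide +kernel⟩

theorem normalizerAux_goodC : Good ⟨53, 13, 16, 0⟩ :=
  ⟨by simp [nrd], by decide +kernel, by decide +kernel⟩

theorem normalizerAux_all {g : SL(2, ℝ)} (hg : ∀ γ ∈ G0, g * γ * g⁻¹ ∈ G0) (x : Qu ℤ) :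
    ∃ y : Qu ℤ, (g : Matrix (Fin 2) (Fin 2) ℝ) * rho x = rho y * g := by
  obtain ⟨y1, -, h1⟩ := normalizerAux_conj hg normalizerAux_good1
  obtain ⟨yA, -, hA⟩ := normalizerAux_conj hg normalizerAux_goodA
  obtain ⟨yD, -, hD⟩ := normalizerAux_conj hg normalizerAux_goodD
  obtain ⟨yB, -, hB⟩ := normalizerAux_conj hg normalizerAux_goodB
  obtain ⟨yC, -, hC⟩ := normalizerAux_conj hg normalizerAux_goodC
  obtain ⟨a1, aA, aD, aB, aC, hx⟩ : ∃ a1 aA aD aB aC : ℤ, x = a1 • (1 : Qu ℤ) +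
      aA • (⟨2, -10, -9, 6⟩ : Qu ℤ) + aD • (⟨24, 36, 23, 37⟩ : Qu ℤ) +
      aB • (⟨8, 18, -24, -39⟩ : Qu ℤ) + aC • (⟨53, 13, 16, 0⟩ : Qu ℤ) := by
    refine ⟨x.re - 476823 * x.imI + 297734 * x.imJ - 108954 * x.imK,
      10967 * x.imI - 6848 * x.imJ + 2506 * x.imK, -639 * x.imI + 399 * x.imJ - 146 * x.imK,
      1081 * x.imI - 675 * x.imJ + 247 * x.imK, 8709 * x.imI - 5438 * x.imJ + 1990 * x.imK, ?_⟩
    have h1 : (1 : Qu ℤ) = ⟨1, 0, 0, 0⟩ := rfl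
    rw [h1]
    simp only [QuaternionAlgebra.smul_mk, QuaternionAlgebra.mk_add_mk, smul_eq_mul]
    ext <;> simp only <;> ring
  refine ⟨a1 • y1 + aA • yA + aD • yD + aB • yB + aC • yC, ?_⟩
  rw [hx]
  simp only [map_add, rho_smul, mul_add, add_mul, Matrix.mul_smul, Matrix.smul_mul, h1, hA, hD,
    hB, hC]

theorem normalizerAux_red {g : SL(2, ℝ)} (hg : ∀ γ ∈ G0, g * γ * g⁻¹ ∈ G0) {b : Qu ℤ} {c : ℝ}
    (hb : rho b = c • (g : Matrix (Fin 2) (Fin 2) ℝ)) {x : Qu ℤ} (hx : Good x) :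
    ∃ y, Good y ∧ ∀ n : ℕ,
      red n b * red n x * star (red n b) = ((nrd b : ℤ) : ZMod n) • red n y := by
  obtain ⟨y, hy, h⟩ := normalizerAux_conj hg hx
  refine ⟨y, hy, fun n => ?_⟩
  have h1 : b * x = y * b := by
    apply rho_injective
    rw [map_mul, map_mul, hb, Matrix.smul_mul, Matrix.mul_smul, h]
  have h2 : b * x * star b = nrd b • y := by
    rw [h1, mul_assoc, mul_star_eq, mul_smul_comm, mul_one]
  rw [← red_star, ← map_mul, ← map_mul, h2, map_zsmul, Int.cast_smul_eq_zsmul]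

theorem mem_G0_of_normalizes (g : SL(2, ℝ)) (hg : ∀ γ ∈ G0, g * γ * g⁻¹ ∈ G0) : g ∈ G0 := by
  obtain ⟨b, c, -, hb, hn⟩ := exists_of_normalizes g (normalizerAux_all hg)
  obtain ⟨yA, hyA, hA⟩ := normalizerAux_red hg hb normalizerAux_goodA
  obtain ⟨yB, hyB, hB⟩ := normalizerAux_red hg hb normalizerAux_goodB
  obtain ⟨yC, hyC, hC⟩ := normalizerAux_red hg hb normalizerAux_goodC
  have hn' : ∀ n : ℕ, ((nrd b : ℤ) : ZMod n) = 1 ∨ ((nrd b : ℤ) : ZMod n) = 5 ∨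
      ((nrd b : ℤ) : ZMod n) = 13 ∨ ((nrd b : ℤ) : ZMod n) = 65 := fun n => by
    rcases hn with h | h | h | h <;> simp [h]
  obtain ⟨h5, h13, h7⟩ := check7 (red 7 b) _ (nrd_red 7 b) (hn' 7) ⟨_, hyB.2.1, hB 7⟩
    ⟨_, hyC.2.1, hC 7⟩
  obtain ⟨-, h65, h17⟩ := check17 (red 17 b) _ (nrd_red 17 b) (hn' 17) ⟨_, hyA.2.2, hA 17⟩
    ⟨_, hyB.2.2, hB 17⟩
  have hone : nrd b = 1 := by
    rcases hn with h | h | h | h
    · exact h
    · exact absurd (by simp [h]) h5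
    · exact absurd (by simp [h]) h13
    · exact absurd (by simp [h]) h65
  have hgood : Good b := ⟨hone, h7 (by simp [hone]), h17 (by simp [hone])⟩
  obtain ⟨γ, hγ, he⟩ := normalizerAux_exists hgood
  have hc : c ^ 2 = 1 := by
    have h := det_rho b
    rw [hb, Matrix.det_smul, g.det_coe, hone] at h
    simpa using h
  rcases sq_eq_one_iff.mp hc with h | h
  · have : g = γ := Subtype.ext (by rw [he, hb, h, one_smul])
    rw [this]
    exact hγ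
  · have : g = -1 * γ := Subtype.ext (by
      rw [Matrix.SpecialLinearGroup.coe_mul, he, hb, h]
      simp)
    rw [this]
    exact G0.mul_mem neg_one_mem_G0 hγ

end Pool.Agent.P.MP_7a2702_mp
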