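import Pool.Agent.P.MP_7a2702_mp.Kern

set_option autoImplicit false

open scoped MatrixGroups UpperHalfPlane ENNReal ComplexConjugate ContDiff
open MeasureTheory Filter Topology

namespace Pool.Agent.P.MP_7a2702_mp

/-- Off-diagonal decay of the iterated kernel. -/
theorem integral_kern_kern_le {G : Subgroup SL(2, ℝ)} (hG : Cocpt G) (U : Unf G) :
    ∃ C : ℝ, ∀ s : ℕ, 2 ≤ s → ∀ δ : ℝ, 0 ≤ δ → ∀ z w : ℍ,
      (∀ γ ∈ G, 2 * δ ≤ dist z (γ • w)) →
        ∫ v, kern G s z v * kern G s w v ∂U.ν ≤ C * theta δ ^ (s - 2) := by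
  obtain ⟨M, hM0, hM⟩ := exists_kern_le hG U
  refine ⟨M * mass 2, fun s hs δ hδ z w h => ?_⟩
  rw [integral_kern_mul hG U hs (bc_kern hG U hs w) (kern_inv s w), avg, ← integral_q_pow 2 z,
    mul_right_comm, ← integral_const_mul]
  have hsplit : ∀ a b : ℍ, δ ≤ dist a b → q a b ^ s ≤ theta δ ^ (s - 2) * q a b ^ 2 := by
    intro a b hab
    rw [show q a b ^ s = q a b ^ (s - 2) * q a b ^ 2 by rw [← pow_add]; congr 1; omega]
    exact mul_le_mul_of_nonneg_right
      (pow_le_pow_left₀ (q_pos a b).le (q_le_theta hδ hab) _) (sq_nonneg _)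
  have hθ : 0 ≤ theta δ ^ (s - 2) := pow_nonneg (theta_pos δ).le _
  refine integral_mono ((bc_kern hG U hs w).integrable_avg hs z)
    ((integrable_q_pow le_rfl z).const_mul _) fun v => ?_
  change q z v ^ s * kern G s w v ≤ M * theta δ ^ (s - 2) * q z v ^ 2
  rcases le_total (dist z v) δ with hv | hv
  · have h1 : kern G s w v ≤ theta δ ^ (s - 2) * kern G 2 w v := by
      rw [kern, kern, ← tsum_mul_left]
      refine (summable_kern hG U hs w v).tsum_le_tsum (fun γ => hsplit _ _ ?_)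
        ((summable_kern hG U le_rfl w v).mul_left _)
      have h2 := h _ (G.inv_mem γ.2)
      have h3 := dist_triangle z v ((γ : SL(2, ℝ))⁻¹ • w)
      have h4 : dist v ((γ : SL(2, ℝ))⁻¹ • w) = dist w ((γ : SL(2, ℝ)) • v) := by
        rw [← dist_smul (γ : SL(2, ℝ)), smul_inv_smul, dist_comm]
      linarith
    have h5 : kern G s w v ≤ M * theta δ ^ (s - 2) := by
      have := mul_le_mul_of_nonneg_left (hM 2 le_rfl w v) hθ
      linarith
    rw [mul_comm]
    exact mul_le_mul h5 (q_pow_le z v hs) (pow_nonneg (q_pos z v).le _) (by positivity)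
  · have h1 := mul_le_mul (hsplit z v hv) (hM s hs w v) (kern_nonneg s w v) (by positivity)
    linarith

end Pool.Agent.P.MP_7a2702_mp
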