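import Pool.Agent.P.MP_7a2702_mp.Complete
import Pool.Agent.P.MP_7a2702_mp.Basis

set_option autoImplicit false

open scoped MatrixGroups UpperHalfPlane ENNReal ComplexConjugate ContDiff
open MeasureTheory Filter Topology

namespace Pool.Agent.P.MP_7a2702_mp

theorem parsevalAux_memLp {f : ℍ → ℝ} (hf : BC f) (ν : Measure ℍ) [IsFiniteMeasure ν] :
    MemLp f 2 ν := by
  obtain ⟨hc, M, hM⟩ := hf
  exact MemLp.of_bound hc.aestronglyMeasurable M (Eventually.of_forall fun z => hM z)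

theorem parsevalAux_inner {ν : Measure ℍ} {f : ℍ → ℝ} (hf : MemLp f 2 ν) (w : Lp ℝ 2 ν) :
    inner ℝ (hf.toLp f) w = ∫ z, f z * w z ∂ν := by
  rw [L2.inner_def]
  refine integral_congr_ae ?_
  filter_upwards [hf.coeFn_toLp] with z hz
  rw [hz, real_inner_comm]
  simp

theorem parsevalAux_inner' {ν : Measure ℍ} {f g : ℍ → ℝ} (hf : MemLp f 2 ν) (hg : MemLp g 2 ν) :
    inner ℝ (hf.toLp f) (hg.toLp g) = ∫ z, f z * g z ∂ν := by
  rw [parsevalAux_inner]
  refine integral_congr_ae ?_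
  filter_upwards [hg.coeFn_toLp] with z hz
  rw [hz]

theorem parsevalAux_sum {ν : Measure ℍ} {ι : Type} [Fintype ι] (c : ι → ℝ) {f : ι → ℍ → ℝ}
    {g : ℍ → ℝ} (hf : ∀ i, MemLp (f i) 2 ν) (hg : MemLp g 2 ν) :
    ∫ z, (∑ i, c i * f i z) * g z ∂ν = ∑ i, c i * ∫ z, f i z * g z ∂ν := by
  simp only [Finset.sum_mul, mul_assoc]
  rw [integral_finsetSum (f := fun i z => c i * (f i z * g z)) _
    fun i _ => ((hf i).integrable_mul hg).const_mul (c i)]
  simp only [integral_const_mul]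

theorem parseval {G : Subgroup SL(2, ℝ)} (hG : Cocpt G) (U : Unf G) (B : EigBasis U) {s : ℕ}
    (hs : 3 ≤ s) {ι : Type} [Fintype ι] (c : ι → ℝ) (p : ι → ℍ) :
    HasSum (fun μ : ℝ => (mass s * sel s μ) ^ 2 * ∑ j, (∑ i, c i * B.e μ j (p i)) ^ 2)
      (∫ w, (∑ i, c i * kern G s (p i) w) ^ 2 ∂U.ν) := by
  classical
  have hs2 : 2 ≤ s := by omega
  have he : ∀ μ j, MemLp (B.e μ j) 2 U.ν := fun μ j =>
    parsevalAux_memLp (hG.bc_of_mem (B.mem μ j)) _
  have hk : ∀ i, MemLp (kern G s (p i)) 2 U.ν := fun i =>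
    parsevalAux_memLp (bc_kern hG U hs2 (p i)) _
  have hv : MemLp (fun w => ∑ i, c i * kern G s (p i) w) 2 U.ν :=
    memLp_finsetSum _ fun i _ => (hk i).const_mul (c i)
  have hon : Orthonormal ℝ fun x : Σ μ : ℝ, Fin (mult G μ) => (he x.1 x.2).toLp _ := by
    rw [orthonormal_iff_ite]
    rintro ⟨μ, j⟩ ⟨μ', j'⟩
    rw [parsevalAux_inner']
    by_cases h : μ = μ'
    · subst h
      simp [B.on]
    · rw [integral_mul_eq_zero_of_ne hG U (B.mem μ j) (B.mem μ' j') h, if_neg]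
      exact fun h' => h (congrArg Sigma.fst h')
  have h := hasSum_sq_inner _ hon (hv.toLp _) fun w hw => by
    rw [parsevalAux_inner, parsevalAux_sum c hk (Lp.memLp w)]
    refine Finset.sum_eq_zero fun i _ => ?_
    rw [complete hG U hs w (fun μ f hf => ?_) (p i), mul_zero]
    obtain ⟨a, rfl⟩ := (Submodule.mem_span_range_iff_exists_fun ℝ).1 (B.span μ f hf)
    simp only [Finset.sum_apply, Pi.smul_apply, smul_eq_mul]
    rw [parsevalAux_sum a (he μ) (Lp.memLp w)]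
    refine Finset.sum_eq_zero fun j _ => ?_
    rw [← parsevalAux_inner (he μ j), hw ⟨μ, j⟩, mul_zero]
  rw [← real_inner_self_eq_norm_sq, parsevalAux_inner'] at h
  simp only [← sq] at h
  refine h.sigma fun μ => ?_
  have h1 : ∀ j, inner ℝ ((he μ j).toLp _) (hv.toLp _) ^ 2 =
      (mass s * sel s μ) ^ 2 * (∑ i, c i * B.e μ j (p i)) ^ 2 := fun j => by
    have hμ : 0 ≤ μ := le_of_not_gt fun hμ => (Fin.cast (mult_neg hG hμ) j).elim0
    obtain ⟨a1, a2, a3⟩ := mem_eigenSpace.1 (B.mem μ j)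
    have hb := hG.bc_of_mem (B.mem μ j)
    rw [real_inner_comm, parsevalAux_inner', parsevalAux_sum c hk (he μ j), ← mul_pow,
      Finset.mul_sum]
    congr 1
    refine Finset.sum_congr rfl fun i _ => ?_
    rw [integral_kern_mul hG U hs2 hb a2, avg_eigen a1 hb hμ a3 hs]
    ring
  simp only [h1, Finset.mul_sum Finset.univ _ ((mass s * sel s μ) ^ 2)]
  exact hasSum_fintype _

end Pool.Agent.P.MP_7a2702_mp
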