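import Pool.Agent.P.MP_7a2702_mp.Basic

set_option autoImplicit false

open scoped MatrixGroups UpperHalfPlane ENNReal ComplexConjugate ContDiff
open MeasureTheory Filter Topology

namespace Pool.Agent.P.MP_7a2702_mp

/-- The real linear map `h ↦ x h + y conj h`. -/
noncomputable def saD (x y : ℂ) : ℂ →L[ℝ] ℂ :=
  x • (1 : ℂ →L[ℝ] ℂ) + y • (Complex.conjCLE : ℂ →L[ℝ] ℂ)

theorem saD_apply (x y h : ℂ) : saD x y h = x * h + y * conj h := by
  simp [saD]

theorem saD_norm_le (x y : ℂ) : ‖saD x y‖ ≤ ‖x‖ + ‖y‖ := by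
  refine ContinuousLinearMap.opNorm_le_bound _ (by positivity) fun h => ?_
  rw [saD_apply, add_mul]
  refine (norm_add_le _ _).trans (le_of_eq ?_)
  simp

/-- The integrand. -/
noncomputable def saF (f : ℍ → ℝ) (s m n : ℕ) (z : ℂ) (w : ℍ) : ℂ :=
  ((w.im ^ s * f w : ℝ) : ℂ) * ((z - conj (w : ℂ))⁻¹ ^ m * (conj z - (w : ℂ))⁻¹ ^ n)

noncomputable def saG (f : ℍ → ℝ) (s m n : ℕ) (z : ℂ) : ℂ := ∫ w, saF f s m n z w

theorem sa_ne {z : ℂ} (hz : 0 < z.im) (w : ℍ) : z - conj (w : ℂ) ≠ 0 := by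
  intro h
  have h1 := congrArg Complex.im h
  have h2 := w.im_pos
  simp only [Complex.sub_im, Complex.conj_im, UpperHalfPlane.coe_im, Complex.zero_im] at h1
  linarith

theorem sa_conj (z : ℂ) (w : ℍ) : conj z - (w : ℂ) = conj (z - conj (w : ℂ)) := by simp

theorem sa_ne' {z : ℂ} (hz : 0 < z.im) (w : ℍ) : conj z - (w : ℂ) ≠ 0 := by
  rw [sa_conj]
  exact (map_ne_zero _).2 (sa_ne hz w)

theorem sa_pow_deriv {c u : ℂ} (h : u - c ≠ 0) (m : ℕ) :
    HasDerivAt (fun u => (u - c)⁻¹ ^ m) (-m * (u - c)⁻¹ ^ (m + 1)) u := by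
  have h1 := (((hasDerivAt_id u).sub_const c).inv h).pow m
  refine h1.congr_deriv ?_
  cases m with
  | zero => simp
  | succ m =>
    simp only [id, Nat.add_sub_cancel, Pi.inv_apply]
    rw [div_eq_mul_inv, ← inv_pow]
    ring

theorem saF_deriv (f : ℍ → ℝ) (s m n : ℕ) {z : ℂ} (hz : 0 < z.im) (w : ℍ) :
    HasFDerivAt (fun z => saF f s m n z w)
      (saD (-m * saF f s (m + 1) n z w) (-n * saF f s m (n + 1) z w)) z := by
  have h1 := (sa_pow_deriv (sa_ne hz w) m).complexToReal_fderiv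
  have h2 := (sa_pow_deriv (sa_ne' hz w) n).complexToReal_fderiv.comp z
    Complex.conjCLE.hasFDerivAt
  refine ((h1.mul h2).const_mul ((w.im ^ s * f w : ℝ) : ℂ)).congr_fderiv ?_
  refine ContinuousLinearMap.ext fun h => ?_
  simp only [saD_apply, saF, smul_apply, add_apply,
    ContinuousLinearMap.comp_apply, one_apply_eq_self, smul_eq_mul,
    Function.comp_apply, ContinuousLinearEquiv.coe_coe, Complex.conjCLE_apply]
  ring

theorem saF_meas {f : ℍ → ℝ} (hf : BC f) (s m n : ℕ) (z : ℂ) :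
    AEStronglyMeasurable (saF f s m n z) := by
  have h1 : Continuous fun w : ℍ => ((w.im ^ s * f w : ℝ) : ℂ) :=
    Complex.continuous_ofReal.comp ((UpperHalfPlane.continuous_im.pow s).mul hf.1)
  have h2 : Continuous fun w : ℍ => z - conj (w : ℂ) :=
    continuous_const.sub (Complex.continuous_conj.comp UpperHalfPlane.continuous_coe)
  have h3 : Continuous fun w : ℍ => conj z - (w : ℂ) :=
    continuous_const.sub UpperHalfPlane.continuous_coe
  exact (h1.measurable.mul ((h2.measurable.inv.pow_const m).mul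
    (h3.measurable.inv.pow_const n))).aestronglyMeasurable

theorem saF_bound {f : ℍ → ℝ} (hf : BC f) {s m n : ℕ} (h : 2 * s ≤ m + n) (z₀ : ℍ) :
    ∃ C : ℝ, ∀ w : ℍ, ∀ z ∈ Metric.ball (z₀ : ℂ) (z₀.im / 2),
      ‖saF f s m n z w‖ ≤ C * q z₀ w ^ s := by
  obtain ⟨M, hM⟩ := hf.2
  obtain ⟨k, hk⟩ := Nat.exists_eq_add_of_le h
  have hy := z₀.im_pos
  refine ⟨M * (2 ^ (m + n) * (z₀.im⁻¹) ^ k * ((4 * z₀.im)⁻¹) ^ s), fun w z hz => ?_⟩
  have hv := w.im_pos
  obtain ⟨t, ht⟩ : ∃ t, t = ‖(z₀ : ℂ) - conj (w : ℂ)‖ := ⟨_, rfl⟩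
  have h1 : z₀.im ≤ t := by
    have := Complex.im_le_norm ((z₀ : ℂ) - conj (w : ℂ))
    simp only [Complex.sub_im, Complex.conj_im, UpperHalfPlane.coe_im] at this
    linarith
  have ht0 : 0 < t := by linarith
  have h2 : t / 2 ≤ ‖z - conj (w : ℂ)‖ := by
    have h3 := norm_sub_le_norm_sub_add_norm_sub (z₀ : ℂ) z (conj (w : ℂ))
    rw [Metric.mem_ball, dist_comm, dist_eq_norm] at hz
    linarith
  have h3 : ‖z - conj (w : ℂ)‖⁻¹ ≤ 2 * t⁻¹ := by
    have := inv_anti₀ (by positivity) h2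
    rwa [inv_div, div_eq_mul_inv] at this
  have h4 : q z₀ w = 4 * z₀.im * w.im * t⁻¹ ^ 2 := by
    rw [q_eq, Complex.normSq_eq_norm_sq, ← ht, inv_pow, div_eq_mul_inv]
  have hM0 : 0 ≤ M := (abs_nonneg _).trans (hM w)
  rw [saF, norm_mul, norm_mul, norm_pow, norm_pow, norm_inv, norm_inv, sa_conj, Complex.norm_conj,
    ← pow_add, Complex.norm_real, Real.norm_eq_abs, abs_mul, abs_of_pos (pow_pos hv s)]
  calc _ ≤ w.im ^ s * M * (2 * t⁻¹) ^ (m + n) := by gcongr; exact hM w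
    _ = w.im ^ s * M * (2 ^ (m + n) * (t⁻¹ ^ 2) ^ s * t⁻¹ ^ k) := by
        rw [mul_pow, ← pow_mul, mul_assoc (2 ^ (m + n)), ← pow_add, ← hk]
    _ ≤ w.im ^ s * M * (2 ^ (m + n) * (t⁻¹ ^ 2) ^ s * z₀.im⁻¹ ^ k) := by gcongr
    _ = _ := by
        have h5 : (4 * z₀.im)⁻¹ ^ s * (4 * z₀.im) ^ s = 1 := by
          rw [← mul_pow, inv_mul_cancel₀ (by positivity), one_pow]
        rw [h4, mul_pow, mul_pow]
        linear_combination (-(w.im ^ s * M * (2 ^ (m + n) * (t⁻¹ ^ 2) ^ s * z₀.im⁻¹ ^ k))) * h5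

theorem saF_int {f : ℍ → ℝ} (hf : BC f) {s m n : ℕ} (hs : 2 ≤ s) (h : 2 * s ≤ m + n) (z : ℍ) :
    Integrable (saF f s m n z) := by
  obtain ⟨C, hC⟩ := saF_bound hf h z
  exact ((integrable_q_pow hs z).const_mul C).mono' (saF_meas hf s m n z)
    (Eventually.of_forall fun w => hC w z (Metric.mem_ball_self (half_pos z.im_pos)))

theorem saG_deriv {f : ℍ → ℝ} (hf : BC f) {s m n : ℕ} (hs : 2 ≤ s) (h : 2 * s ≤ m + n) {z : ℂ}
    (hz : 0 < z.im) : HasFDerivAt (saG f s m n)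
      (saD (-m * saG f s (m + 1) n z) (-n * saG f s m (n + 1) z)) z := by
  obtain ⟨z₀, rfl⟩ : ∃ z₀ : ℍ, z = z₀ := ⟨⟨z, hz⟩, rfl⟩
  obtain ⟨C₁, hC₁⟩ := saF_bound (m := m + 1) (n := n) hf (by omega : 2 * s ≤ _) z₀
  obtain ⟨C₂, hC₂⟩ := saF_bound (m := m) (n := n + 1) hf (by omega : 2 * s ≤ _) z₀
  have i₁ := (saF_int (m := m + 1) (n := n) hf hs (by omega) z₀).const_mul (-m : ℂ)
  have i₂ := (saF_int (m := m) (n := n + 1) hf hs (by omega) z₀).const_mul (-n : ℂ)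
  have j₁ := i₁.smul_const (1 : ℂ →L[ℝ] ℂ)
  have j₂ := i₂.smul_const (Complex.conjCLE : ℂ →L[ℝ] ℂ)
  have h1 := hasFDerivAt_integral_of_dominated_of_fderiv_le (𝕜 := ℝ) (μ := volume)
    (F := saF f s m n) (F' := fun z w =>
      saD (-m * saF f s (m + 1) n z w) (-n * saF f s m (n + 1) z w))
    (bound := fun w => (m * C₁ + n * C₂) * q z₀ w ^ s)
    (Metric.ball_mem_nhds (z₀ : ℂ) (half_pos z₀.im_pos))
    (Eventually.of_forall fun z => saF_meas hf s m n z) (saF_int hf hs h z₀)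
    (j₁.add j₂).aestronglyMeasurable
    (Eventually.of_forall fun w z hz => (saD_norm_le _ _).trans (by
      rw [norm_mul, norm_mul, norm_neg, norm_neg, Complex.norm_natCast, Complex.norm_natCast,
        add_mul, mul_assoc, mul_assoc]
      gcongr
      exacts [hC₁ w z hz, hC₂ w z hz]))
    ((integrable_q_pow hs z₀).const_mul _)
    (Eventually.of_forall fun w z hz => saF_deriv f s m n (by
      have h2 := Complex.abs_im_le_norm (z - z₀)
      rw [Metric.mem_ball, dist_eq_norm] at hz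
      rw [Complex.sub_im, UpperHalfPlane.coe_im, abs_le] at h2
      linarith [z₀.im_pos]) w)
  refine h1.congr_fderiv ?_
  simp only [saD]
  rw [integral_add j₁ j₂, integral_smul_const, integral_smul_const, integral_const_mul,
    integral_const_mul]
  rfl

theorem sa_open : IsOpen {w : ℂ | 0 < w.im} := isOpen_lt continuous_const Complex.continuous_im

theorem saG_smooth {f : ℍ → ℝ} (hf : BC f) {s : ℕ} (hs : 2 ≤ s) (k : ℕ) {m n : ℕ}
    (h : 2 * s ≤ m + n) : ContDiffOn ℝ k (saG f s m n) {w : ℂ | 0 < w.im} := by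
  have hd : ∀ {m n : ℕ}, 2 * s ≤ m + n → DifferentiableOn ℝ (saG f s m n) {w : ℂ | 0 < w.im} :=
    fun h z hz => (saG_deriv hf hs h hz).differentiableAt.differentiableWithinAt
  induction k generalizing m n with
  | zero => exact contDiffOn_zero.2 (hd h).continuousOn
  | succ k ih =>
    rw [Nat.cast_succ, contDiffOn_succ_iff_fderiv_of_isOpen sa_open]
    refine ⟨hd h, fun h => absurd h (by simp), ContDiffOn.congr ?_
      fun z hz => (saG_deriv hf hs h hz).fderiv⟩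
    exact ((contDiffOn_const.mul (ih (by omega))).smul contDiffOn_const).add
      ((contDiffOn_const.mul (ih (by omega))).smul contDiffOn_const)

theorem sa_avg (f : ℍ → ℝ) (s : ℕ) (z : ℍ) :
    ((avg s f z : ℝ) : ℂ) = ((4 * z.im : ℝ) : ℂ) ^ s * saG f s s s z := by
  rw [avg, saG, ← integral_const_mul, ← integral_complex_ofReal]
  refine integral_congr_ae (Eventually.of_forall fun w => ?_)
  have h1 : (z - conj (w : ℂ))⁻¹ * (conj (z : ℂ) - (w : ℂ))⁻¹ =
      ((Complex.normSq ((z : ℂ) - conj (w : ℂ)))⁻¹ : ℝ) := by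
    rw [sa_conj, ← mul_inv, Complex.mul_conj, Complex.ofReal_inv]
  simp only [saF, q_eq]
  rw [← mul_pow, h1, div_eq_mul_inv]
  push_cast
  ring

theorem sa_avg' (f : ℍ → ℝ) (s : ℕ) {z : ℂ} (hz : 0 < z.im) :
    ((avg s f (UpperHalfPlane.ofComplex z) : ℝ) : ℂ) =
      ((4 * z.im : ℝ) : ℂ) ^ s * saG f s s s z := by
  rw [UpperHalfPlane.ofComplex_apply_of_im_pos hz, sa_avg]
  rfl

theorem smooth_avg {f : ℍ → ℝ} (hf : BC f) {s : ℕ} (hs : 2 ≤ s) : Smooth (avg s f) := by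
  have h1 : ContDiffOn ℝ ∞ (saG f s s s) {w : ℂ | 0 < w.im} :=
    contDiffOn_infty.2 fun k => saG_smooth hf hs k (by omega)
  have h2 : ContDiff ℝ ∞ fun z : ℂ => ((4 * z.im : ℝ) : ℂ) ^ s :=
    (Complex.ofRealCLM.contDiff.comp (contDiff_const.mul Complex.imCLM.contDiff)).pow s
  refine (Complex.reCLM.contDiff.comp_contDiffOn (h2.contDiffOn.mul h1)).congr fun z hz => ?_
  have h3 := congrArg Complex.re (sa_avg' f s hz)
  rw [Complex.ofReal_re] at h3
  exact h3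

theorem sa_lap {Φ P Q : ℂ → ℂ} {z₀ P₁ P₂ Q₁ Q₂ : ℂ}
    (h : ∀ᶠ z in 𝓝 z₀, HasFDerivAt Φ (saD (P z) (Q z)) z) (hP : HasFDerivAt P (saD P₁ P₂) z₀)
    (hQ : HasFDerivAt Q (saD Q₁ Q₂) z₀) : Laplacian.laplacian Φ z₀ = 2 * (P₂ + Q₁) := by
  have h1 : fderiv ℝ Φ =ᶠ[𝓝 z₀] fun z => saD (P z) (Q z) := h.mono fun z hz => hz.fderiv
  have h2 := ((hP.smul_const (1 : ℂ →L[ℝ] ℂ)).add
    (hQ.smul_const (Complex.conjCLE : ℂ →L[ℝ] ℂ))).fderiv
  rw [InnerProductSpace.laplacian_eq_iteratedFDeriv_complexPlane]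
  simp only [iteratedFDeriv_two_apply]
  rw [h1.fderiv_eq]
  erw [h2]
  simp only [add_apply, ContinuousLinearMap.smulRight_apply,
    smul_apply, one_apply_eq_self, smul_eq_mul, saD_apply,
    ContinuousLinearEquiv.coe_coe, Complex.conjCLE_apply, Matrix.cons_val_zero,
    Matrix.cons_val_one, map_one, Complex.conj_I]
  linear_combination (P₁ - P₂ - Q₁ + Q₂) * Complex.I_mul_I

noncomputable def saT (f : ℍ → ℝ) (s k m n : ℕ) (z : ℂ) : ℂ :=
  ((4 * z.im : ℝ) : ℂ) ^ k * saG f s m n z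

theorem saT_deriv {f : ℍ → ℝ} (hf : BC f) {s m n : ℕ} (hs : 2 ≤ s) (h : 2 * s ≤ m + n) (k : ℕ)
    {z : ℂ} (hz : 0 < z.im) : HasFDerivAt (saT f s k m n)
      (saD (-2 * Complex.I * k * saT f s (k - 1) m n z - m * saT f s k (m + 1) n z)
        (2 * Complex.I * k * saT f s (k - 1) m n z - n * saT f s k m (n + 1) z)) z := by
  have h1 : HasFDerivAt (fun z : ℂ => ((4 * z.im : ℝ) : ℂ))
      (saD (-2 * Complex.I) (2 * Complex.I)) z := by
    refine (saD (-2 * Complex.I) (2 * Complex.I)).hasFDerivAt.congr_of_eventuallyEq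
      (Eventually.of_forall fun u => ?_)
    rw [saD_apply]
    apply Complex.ext <;> simp
    ring
  have h2 := (hasDerivAt_pow k ((4 * z.im : ℝ) : ℂ)).complexToReal_fderiv.comp z h1
  refine (h2.mul (saG_deriv hf hs h hz)).congr_fderiv ?_
  refine ContinuousLinearMap.ext fun u => ?_
  simp only [saD_apply, saT, smul_apply, add_apply,
    ContinuousLinearMap.comp_apply, one_apply_eq_self, smul_eq_mul,
    Function.comp_apply]
  ring

theorem saG_rel {f : ℍ → ℝ} (hf : BC f) {s : ℕ} (hs : 2 ≤ s) (z : ℍ) :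
    2 * Complex.I * (saG f s s (s + 1) z - saG f s (s + 1) s z) +
      ((4 * z.im : ℝ) : ℂ) * saG f s (s + 1) (s + 1) z =
      -4 * saG f (s + 1) (s + 1) (s + 1) z := by
  have i₁ := saF_int (m := s) (n := s + 1) hf hs (by omega) z
  have i₂ := saF_int (m := s + 1) (n := s) hf hs (by omega) z
  have i₃ := saF_int (m := s + 1) (n := s + 1) hf hs (by omega) z
  have i₄ : Integrable fun w => saF f s s (s + 1) z w - saF f s (s + 1) s z w := i₁.sub i₂
  simp only [saG]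
  rw [← integral_sub i₁ i₂, ← integral_const_mul, ← integral_const_mul, ← integral_const_mul,
    ← integral_add (i₄.const_mul _) (i₃.const_mul _)]
  refine integral_congr_ae (Eventually.of_forall fun w => ?_)
  have h1 := mul_inv_cancel₀ (sa_ne (z := z) z.im_pos w)
  have h2 := mul_inv_cancel₀ (sa_ne' (z := z) z.im_pos w)
  have h3 : ((z : ℂ) - conj (w : ℂ)) - (conj (z : ℂ) - (w : ℂ)) =
      2 * Complex.I * ((z.im : ℂ) + (w.im : ℂ)) := by
    apply Complex.ext <;> simp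
    ring
  simp only [saF]
  generalize (z : ℂ) - conj (w : ℂ) = A at *
  generalize conj (z : ℂ) - (w : ℂ) = B at *
  generalize A⁻¹ = a at *
  generalize B⁻¹ = b at *
  have h4 : b - a = 2 * Complex.I * ((z.im : ℂ) + (w.im : ℂ)) * (a * b) := by
    linear_combination (a * b) * h3 - b * h1 + a * h2
  push_cast
  linear_combination ((w.im : ℂ) ^ s * f w * a ^ s * b ^ s) * (2 * Complex.I * h4 +
    4 * ((z.im : ℂ) + (w.im : ℂ)) * (a * b) * Complex.I_mul_I)

theorem lap_avg {f : ℍ → ℝ} (hf : BC f) {s : ℕ} (hs : 2 ≤ s) (z : ℍ) :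
    hypLaplacian (avg s f) z =
      (s : ℝ) * ((s : ℝ) - 1) * avg s f z - (s : ℝ) ^ 2 * avg (s + 1) f z := by
  have hz : 0 < (z : ℂ).im := z.im_pos
  have hU : ∀ᶠ u in 𝓝 (z : ℂ), 0 < u.im := sa_open.mem_nhds hz
  have d1 := saT_deriv (m := s) (n := s) hf hs (by omega) (s - 1) hz
  have d2 := saT_deriv (m := s + 1) (n := s) hf hs (by omega) s hz
  have d3 := saT_deriv (m := s) (n := s + 1) hf hs (by omega) s hz
  have hsub : ∀ {P Q : ℂ → ℂ} {p₁ p₂ q₁ q₂ : ℂ} (c d : ℂ), HasFDerivAt P (saD p₁ p₂) (z : ℂ) →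
      HasFDerivAt Q (saD q₁ q₂) (z : ℂ) → HasFDerivAt (fun u => c * P u - d * Q u)
        (saD (c * p₁ - d * q₁) (c * p₂ - d * q₂)) (z : ℂ) := by
    intro P Q p₁ p₂ q₁ q₂ c d hP hQ
    refine ((hP.const_mul c).sub (hQ.const_mul d)).congr_fderiv
      (ContinuousLinearMap.ext fun u => ?_)
    simp only [saD_apply, smul_apply, sub_apply,
      smul_eq_mul]
    ring
  have h1 := sa_lap (hU.mono fun u hu => saT_deriv (m := s) (n := s) hf hs (by omega) s hu)
    (hsub (-2 * Complex.I * s) s d1 d2) (hsub (2 * Complex.I * s) s d1 d3)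
  have h2 : saT f s s s s =ᶠ[𝓝 (z : ℂ)] Complex.ofRealCLM ∘ (avg s f ∘ UpperHalfPlane.ofComplex) :=
    hU.mono fun u hu => (sa_avg' f s hu).symm
  rw [(InnerProductSpace.laplacian_congr_nhds h2).eq_of_nhds,
    ((smooth_avg hf hs).contDiffAt z).laplacian_CLM_comp_left] at h1
  have h3 := saG_rel hf hs z
  apply Complex.ofReal_injective
  rw [hypLaplacian, smul_eq_mul]
  push_cast
  rw [sa_avg, sa_avg]
  simp only [Function.comp_apply, Complex.ofRealCLM_apply] at h1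
  rw [h1]
  obtain ⟨k, rfl⟩ : ∃ k, s = k + 2 := ⟨s - 2, by omega⟩
  simp only [saT, show k + 2 - 1 = k + 1 from rfl, Nat.add_sub_cancel, UpperHalfPlane.coe_im]
  push_cast at h3 ⊢
  linear_combination (((k : ℂ) + 2) ^ 2 * (4 * (z.im : ℂ)) ^ (k + 3) / 4) * h3 -
    16 * ((k : ℂ) + 2) * (k + 1) * (z.im : ℂ) ^ 2 * (4 * (z.im : ℂ)) ^ k *
      saG f (k + 2) (k + 2) (k + 2) z * Complex.I_mul_I

end Pool.Agent.P.MP_7a2702_mp
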