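import Pool.Agent.P.MP_7a2702_mp.Basic
import Pool.Agent.P.MP_7a2702_mp.Order

set_option autoImplicit false

open scoped MatrixGroups UpperHalfPlane ENNReal ComplexConjugate ContDiff
open MeasureTheory Filter Topology

namespace Pool.Agent.P.MP_7a2702_mp

theorem torsionAux_trace (x : Qu ℤ) (hx : nrd x = 1) : 2 ≤ |2 * x.re + x.imI| := by
  by_contra h
  have h1 : (2 * x.re + x.imI) ^ 2 - 4 =
      5 * x.imI ^ 2 + 13 * ((2 * x.imJ + x.imK) ^ 2 - 5 * x.imK ^ 2) := by
    rw [nrd] at hx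
    linear_combination 4 * hx
  generalize 2 * x.re + x.imI = t at h h1
  have h2 : ((t : ZMod 13)) ^ 2 - 4 = 5 * (x.imI : ZMod 13) ^ 2 := by
    have := congrArg (Int.cast : ℤ → ZMod 13) h1
    push_cast at this
    rw [this, show (13 : ZMod 13) = 0 from rfl]
    ring
  generalize (x.imI : ZMod 13) = b at h2
  have h3 : t = -1 ∨ t = 0 ∨ t = 1 := by
    have := abs_lt.1 (not_le.1 h)
    omega
  rcases h3 with rfl | rfl | rfl <;> revert b <;> decide

/-- The sequence `U` with `x ^ (n + 1) = U (n + 1) x - U n`. -/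
def torsionAuxU (t : ℤ) : ℕ → ℤ
  | 0 => 0
  | 1 => 1
  | n + 2 => t * torsionAuxU t (n + 1) - torsionAuxU t n

theorem torsionAux_lt {t : ℤ} (ht : 2 ≤ |t|) (n : ℕ) :
    |torsionAuxU t n| < |torsionAuxU t (n + 1)| := by
  induction n with
  | zero => simp [torsionAuxU]
  | succ n ih =>
    have h1 : |t * torsionAuxU t (n + 1)| - |torsionAuxU t n| ≤
        |t * torsionAuxU t (n + 1) - torsionAuxU t n| := abs_sub_abs_le_abs_sub _ _
    rw [abs_mul] at h1
    have h2 := abs_nonneg (torsionAuxU t (n + 1))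
    change _ < |t * torsionAuxU t (n + 1) - torsionAuxU t n|
    nlinarith

theorem torsionAux_pow (x : Qu ℤ) (hx : nrd x = 1) (n : ℕ) :
    x ^ (n + 1) = torsionAuxU (2 * x.re + x.imI) (n + 1) • x -
      torsionAuxU (2 * x.re + x.imI) n • (1 : Qu ℤ) := by
  have h2 : x * x = (2 * x.re + x.imI) • x - 1 := by
    rw [nrd] at hx
    generalize ht : 2 * x.re + x.imI = t
    ext <;> simp [-zsmul_eq_mul, ← ht]
    · linear_combination -hx
    all_goals ring
  induction n with
  | zero => simp [torsionAuxU]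
  | succ n ih =>
    rw [pow_succ, ih, sub_mul, smul_mul_assoc, smul_mul_assoc, h2, one_mul, torsionAuxU]
    module

theorem torsion_G1 {g : SL(2, ℝ)} (hg : g ∈ G1) (h : IsOfFinOrder g) : g = 1 ∨ g = -1 := by
  obtain ⟨x, hx, hg⟩ := hg
  obtain ⟨n, hn, h⟩ := isOfFinOrder_iff_pow_eq_one.1 h
  obtain ⟨n, rfl⟩ := Nat.exists_eq_succ_of_ne_zero hn.ne'
  have h1 : x ^ (n + 1) = 1 := by
    apply rho_injective
    rw [map_pow, hg, ← Matrix.SpecialLinearGroup.coe_pow, h, map_one,
      Matrix.SpecialLinearGroup.coe_one]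
  have h2 : torsionAuxU (2 * x.re + x.imI) (n + 1) ≠ 0 :=
    abs_pos.1 ((abs_nonneg _).trans_lt (torsionAux_lt (torsionAux_trace x hx) n))
  rw [torsionAux_pow x hx] at h1
  have hI := congrArg QuaternionAlgebra.imI h1
  have hJ := congrArg QuaternionAlgebra.imJ h1
  have hK := congrArg QuaternionAlgebra.imK h1
  simp [h2] at hI hJ hK
  rw [nrd, hI, hJ, hK] at hx
  have h3 : x.re = 1 ∨ x.re = -1 := sq_eq_one_iff.1 (by linarith)
  rcases h3 with h3 | h3
  · left
    have : x = 1 := by ext <;> simp [*]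
    ext1
    rw [← hg, this, map_one, Matrix.SpecialLinearGroup.coe_one]
  · right
    have : x = -1 := by ext <;> simp [*]
    ext1
    rw [← hg, this, map_neg, map_one]
    simp

end Pool.Agent.P.MP_7a2702_mp
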